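import Pool.Agent.TH985.WP.Gauss

/-!
# Exponential tilts of Gaussian vectors and matrices
-/

set_option autoImplicit false
open MeasureTheory ProbabilityTheory Matrix
open scoped ENNReal

namespace Pool.Agent.TH985.WP

/-- the integral of a product of functions of different coordinates -/
theorem lintegral_pi_prod' {ι : Type*} [Fintype ι] {Ω : ι → Type*}
    [∀ i, MeasurableSpace (Ω i)] (μ : ∀ i, Measure (Ω i)) [∀ i, SigmaFinite (μ i)]
    (f : ∀ i, Ω i → ℝ≥0∞) (hf : ∀ i, Measurable (f i)) :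
    ∫⁻ ω, ∏ i, f i (ω i) ∂(Measure.pi μ) = ∏ i, ∫⁻ x, f i x ∂(μ i) := by
  classical
  have hmt : ∀ t : Finset ι, Measurable (fun ω : ∀ i, Ω i => ∏ i ∈ t, f i (ω i)) := fun t =>
    Finset.measurable_fun_prod _ fun i _ => (hf i).comp (measurable_pi_apply i)
  have key : ∀ (t : Finset ι) (x : ∀ i, Ω i),
      (∫⋯∫⁻_t, (fun ω => ∏ i ∈ t, f i (ω i)) ∂μ) x = ∏ i ∈ t, ∫⁻ y, f i y ∂(μ i) := by
    intro t
    induction t using Finset.induction_on with
    | empty => intro x; simp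
    | insert i t hi ih =>
      intro x
      rw [lmarginal_insert _ (hmt _) hi]
      have h1 : ∀ y : Ω i, (∫⋯∫⁻_t, (fun ω => ∏ j ∈ insert i t, f j (ω j)) ∂μ)
          (Function.update x i y) = f i y * ∏ j ∈ t, ∫⁻ y, f j y ∂(μ j) := by
        intro y
        rw [← ih (Function.update x i y)]
        unfold lmarginal
        rw [← lintegral_const_mul]
        · refine lintegral_congr fun z => ?_
          simp only [Finset.prod_insert hi]
          congr 1
          simp [Function.updateFinset, hi]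
        · exact (hmt t).comp measurable_updateFinset
      simp_rw [h1]
      rw [lintegral_mul_const _ (hf i), Finset.prod_insert hi]
  by_cases hne : Nonempty (∀ i, Ω i)
  · obtain ⟨x⟩ := hne
    have h := key Finset.univ x
    rw [lmarginal_univ] at h
    exact h
  · have hE : ∃ i, IsEmpty (Ω i) := by
      by_contra hcon
      push Not at hcon
      apply hne
      exact ⟨fun i => (not_isEmpty_iff.1 (by simp)).some⟩
    obtain ⟨i, hi⟩ := hE
    have h1 : IsEmpty (∀ i, Ω i) := ⟨fun g => hi.false (g i)⟩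
    rw [Finset.prod_eq_zero (Finset.mem_univ i)]
    · simp [lintegral_of_isEmpty]
    · simp [lintegral_of_isEmpty]

/-- product measures with densities -/
theorem pi_withDensity {ι : Type*} [Fintype ι] {Ω : ι → Type*}
    [∀ i, MeasurableSpace (Ω i)] (μ : ∀ i, Measure (Ω i)) [∀ i, SigmaFinite (μ i)]
    (f : ∀ i, Ω i → ℝ≥0∞) (hf : ∀ i, Measurable (f i))
    [∀ i, SigmaFinite ((μ i).withDensity (f i))] :
    Measure.pi (fun i => (μ i).withDensity (f i)) =
      (Measure.pi μ).withDensity (fun ω => ∏ i, f i (ω i)) := by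
  refine Measure.pi_eq fun s hs => ?_
  rw [withDensity_apply _ (MeasurableSet.univ_pi hs), Measure.restrict_pi_pi,
    lintegral_pi_prod' _ f hf]
  exact Finset.prod_congr rfl fun i _ => (withDensity_apply _ (hs i)).symm

/-- the density of the standard Gaussian vector -/
theorem gm_density (n : Type*) [Fintype n] : gm n = (volume : Measure (n → ℝ)).withDensity
    (fun x => ENNReal.ofReal ((Real.sqrt (2 * Real.pi))⁻¹ ^ Fintype.card n *
      Real.exp (-(1 / 2) * (x ⬝ᵥ x)))) := by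
  have h1 : ∀ x : ℝ, gaussianPDF 0 1 x = ENNReal.ofReal ((Real.sqrt (2 * Real.pi))⁻¹ *
      Real.exp (-(1 / 2) * (x * x))) := by
    intro x
    unfold gaussianPDF gaussianPDFReal
    congr 1
    simp only [NNReal.coe_one, mul_one, sub_zero]
    congr 2
    ring
  have h0 : gaussianReal 0 1 = (volume : Measure ℝ).withDensity (gaussianPDF 0 1) :=
    gaussianReal_of_var_ne_zero 0 one_ne_zero
  unfold gm
  have : SigmaFinite ((volume : Measure ℝ).withDensity (gaussianPDF 0 1)) := by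
    rw [← h0]; infer_instance
  have h2 := pi_withDensity (fun _ : n => (volume : Measure ℝ)) (fun _ => gaussianPDF 0 1)
    (fun _ => measurable_gaussianPDF 0 1)
  simp_rw [h0]
  rw [h2]
  rw [← volume_pi]
  congr 1
  funext x
  simp_rw [h1]
  rw [← ENNReal.ofReal_prod_of_nonneg (fun i _ => by positivity), Finset.prod_mul_distrib,
    Finset.prod_const, ← Real.exp_sum, ← Finset.mul_sum]
  rfl

/-- **the tilt of a Gaussian vector** -/
theorem gm_tilt {n : Type*} [Fintype n] [DecidableEq n] (S L : Matrix n n ℝ)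
    (hL : L * Lᵀ * (1 + S) = 1) (F : (n → ℝ) → ℝ≥0∞) (hF : Measurable F) :
    ∫⁻ x, F x * ENNReal.ofReal (Real.exp (-(1 / 2) * (x ⬝ᵥ S *ᵥ x))) ∂(gm n) =
      ENNReal.ofReal |L.det| * ∫⁻ x, F (L *ᵥ x) ∂(gm n) := by
  have hdet : L.det ≠ 0 := by
    intro h0
    have := congrArg Matrix.det hL
    rw [Matrix.det_mul, Matrix.det_mul, h0] at this
    simp at this
  have hLmul : Continuous (fun x : n → ℝ => L *ᵥ x) := by fun_prop
  set g : (n → ℝ) → ℝ≥0∞ := fun x => ENNReal.ofReal ((Real.sqrt (2 * Real.pi))⁻¹ ^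
    Fintype.card n * Real.exp (-(1 / 2) * (x ⬝ᵥ x))) with hg
  have hdm : ∀ A : Matrix n n ℝ, Measurable (fun x : n → ℝ => x ⬝ᵥ A *ᵥ x) := by
    intro A
    unfold dotProduct mulVec dotProduct
    fun_prop
  have hdm1 : Measurable (fun x : n → ℝ => x ⬝ᵥ x) := by
    unfold dotProduct
    fun_prop
  have hgm : Measurable g := by
    rw [hg]
    exact ENNReal.measurable_ofReal.comp (((hdm1.const_mul _).exp).const_mul _)
  have hSm : Measurable (fun x : n → ℝ => ENNReal.ofReal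
      (Real.exp (-(1 / 2) * (x ⬝ᵥ S *ᵥ x)))) :=
    ENNReal.measurable_ofReal.comp (((hdm S).const_mul _).exp)
  rw [gm_density n, ← hg]
  have hFS : Measurable (fun x : n → ℝ => F x * ENNReal.ofReal
      (Real.exp (-(1 / 2) * (x ⬝ᵥ S *ᵥ x)))) := hF.mul hSm
  have hFL : Measurable (fun x : n → ℝ => F (L *ᵥ x)) := hF.comp hLmul.measurable
  rw [lintegral_withDensity_eq_lintegral_mul _ hgm hFS,
    lintegral_withDensity_eq_lintegral_mul _ hgm hFL]
  -- change of variables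
  have hmap := Real.map_matrix_volume_pi_eq_smul_volume_pi hdet
  have hG : Measurable (fun x => g x * (F x * ENNReal.ofReal
      (Real.exp (-(1 / 2) * (x ⬝ᵥ S *ᵥ x))))) := hgm.mul (hF.mul hSm)
  have hcv : ∫⁻ x, (g (L *ᵥ x) * (F (L *ᵥ x) * ENNReal.ofReal
      (Real.exp (-(1 / 2) * ((L *ᵥ x) ⬝ᵥ S *ᵥ (L *ᵥ x)))))) =
      ENNReal.ofReal |L.det⁻¹| * ∫⁻ x, g x * (F x * ENNReal.ofReal
      (Real.exp (-(1 / 2) * (x ⬝ᵥ S *ᵥ x)))) := by
    rw [← smul_eq_mul, ← lintegral_smul_measure, ← hmap]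
    have hc2 : Measurable (toLin' L) := by
      have : ⇑(toLin' L) = fun x : n → ℝ => L *ᵥ x := by
        funext x; simp
      rw [this]; exact hLmul.measurable
    rw [lintegral_map hG hc2]
    simp
  have hq : ∀ x : n → ℝ, g (L *ᵥ x) * (F (L *ᵥ x) * ENNReal.ofReal
      (Real.exp (-(1 / 2) * ((L *ᵥ x) ⬝ᵥ S *ᵥ (L *ᵥ x))))) = g x * F (L *ᵥ x) := by
    intro x
    have e0 : Lᵀ * (1 + S) * L = 1 := by
      have hLT : IsUnit Lᵀ.det := by rw [Matrix.det_transpose]; exact isUnit_iff_ne_zero.2 hdet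
      have hL1 : IsUnit L.det := isUnit_iff_ne_zero.2 hdet
      have h1 : Lᵀ * (1 + S) = L⁻¹ := by
        calc Lᵀ * (1 + S) = L⁻¹ * L * (Lᵀ * (1 + S)) := by
              rw [Matrix.nonsing_inv_mul L hL1, one_mul]
          _ = L⁻¹ * (L * Lᵀ * (1 + S)) := by simp only [Matrix.mul_assoc]
          _ = L⁻¹ := by rw [hL, mul_one]
      rw [h1, Matrix.nonsing_inv_mul L hL1]
    have e1 : (L *ᵥ x) ⬝ᵥ (L *ᵥ x) + (L *ᵥ x) ⬝ᵥ S *ᵥ (L *ᵥ x) = x ⬝ᵥ x := by
      have h2 : (L *ᵥ x) ⬝ᵥ (L *ᵥ x) + (L *ᵥ x) ⬝ᵥ S *ᵥ (L *ᵥ x) =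
          (L *ᵥ x) ⬝ᵥ ((1 + S) *ᵥ (L *ᵥ x)) := by
        rw [Matrix.add_mulVec, Matrix.one_mulVec, dotProduct_add]
      rw [h2]
      have h3 : (L *ᵥ x) ⬝ᵥ ((1 + S) *ᵥ (L *ᵥ x)) = x ⬝ᵥ ((Lᵀ * (1 + S) * L) *ᵥ x) := by
        rw [Matrix.dotProduct_mulVec, Matrix.dotProduct_mulVec, Matrix.dotProduct_mulVec,
          ← Matrix.vecMul_vecMul, ← Matrix.vecMul_vecMul, Matrix.vecMul_transpose]
      rw [h3, e0, Matrix.one_mulVec]
    rw [mul_comm (F (L *ᵥ x)), ← mul_assoc]
    congr 1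
    simp only [hg]
    rw [← ENNReal.ofReal_mul (by positivity), mul_assoc, ← Real.exp_add, ← mul_add, e1]
  simp_rw [hq] at hcv
  simp only [Pi.mul_apply]
  rw [hcv, ← mul_assoc, ← ENNReal.ofReal_mul (abs_nonneg _), ← abs_mul,
    mul_inv_cancel₀ hdet, abs_one, ENNReal.ofReal_one, one_mul]

theorem measurable_quad {n : Type*} [Fintype n] (S : Matrix n n ℝ) :
    Measurable (fun x : n → ℝ => x ⬝ᵥ S *ᵥ x) := by
  unfold dotProduct mulVec dotProduct
  fun_prop

/-- **the tilt of a Gaussian matrix** -/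
theorem gmat_tilt {K n : Type*} [Fintype K] [Fintype n] [DecidableEq n] (S L : Matrix n n ℝ)
    (hL : L * Lᵀ * (1 + S) = 1) (F : (K → n → ℝ) → ℝ≥0∞) (hF : Measurable F) :
    ∫⁻ M, F M * ENNReal.ofReal (Real.exp (-(1 / 2) * ∑ k, M k ⬝ᵥ S *ᵥ M k)) ∂(gmat K n) =
      ENNReal.ofReal |L.det| ^ Fintype.card K * ∫⁻ M, F (fun k => L *ᵥ M k) ∂(gmat K n) := by
  have hdet : L.det ≠ 0 := by
    intro h0
    have := congrArg Matrix.det hL
    rw [Matrix.det_mul, Matrix.det_mul, h0] at this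
    simp at this
  have hc0 : ENNReal.ofReal |L.det| ≠ 0 := by
    rw [ne_eq, ENNReal.ofReal_eq_zero, not_le]
    exact abs_pos.2 hdet
  have hc1 : ENNReal.ofReal |L.det| ≠ ∞ := ENNReal.ofReal_ne_top
  have hLmul : Measurable (fun x : n → ℝ => L *ᵥ x) := by
    have : Continuous (fun x : n → ℝ => L *ᵥ x) := by fun_prop
    exact this.measurable
  set c : ℝ≥0∞ := ENNReal.ofReal |L.det| with hc
  set e : (n → ℝ) → ℝ≥0∞ := fun x => ENNReal.ofReal (Real.exp (-(1 / 2) * (x ⬝ᵥ S *ᵥ x))) with he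
  have hem : Measurable e :=
    ENNReal.measurable_ofReal.comp (((measurable_quad S).const_mul _).exp)
  have h1 : (gm n).map (fun x => L *ᵥ x) = (gm n).withDensity (fun x => c⁻¹ * e x) := by
    refine Measure.ext fun s hs => ?_
    rw [withDensity_apply _ hs, lintegral_const_mul _ hem, ← lintegral_indicator hs]
    have h2 := gm_tilt S L hL (s.indicator 1) (measurable_one.indicator hs)
    have h3 : ∀ x, s.indicator 1 x * ENNReal.ofReal (Real.exp (-(1 / 2) * (x ⬝ᵥ S *ᵥ x))) =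
        s.indicator e x := by
      intro x
      by_cases hx : x ∈ s
      · simp [hx, he]
      · simp [hx]
    simp_rw [h3] at h2
    rw [h2, ← mul_assoc, ENNReal.inv_mul_cancel hc0 hc1, one_mul, ← lintegral_indicator_one hs,
      lintegral_map (measurable_one.indicator hs) hLmul]
  have hprob : IsProbabilityMeasure ((gm n).map (fun x => L *ᵥ x)) :=
    Measure.isProbabilityMeasure_map hLmul.aemeasurable
  have hprob2 : IsProbabilityMeasure ((gm n).withDensity (fun x => c⁻¹ * e x)) := by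
    rw [← h1]; exact hprob
  have hmp : MeasurePreserving (fun x => L *ᵥ x) (gm n)
      ((gm n).withDensity (fun x => c⁻¹ * e x)) := ⟨hLmul, h1⟩
  have hmp2 := measurePreserving_pi (fun _ : K => gm n)
    (fun _ : K => (gm n).withDensity (fun x => c⁻¹ * e x)) (fun _ => hmp)
  have h4 := pi_withDensity (fun _ : K => gm n) (fun _ x => c⁻¹ * e x)
    (fun _ => hem.const_mul _)
  rw [h4] at hmp2
  have h5 := hmp2.lintegral_comp hF
  have hpm : Measurable (fun M : K → n → ℝ => ∏ k, (c⁻¹ * e (M k))) :=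
    Finset.measurable_fun_prod _ fun k _ => (hem.comp (measurable_pi_apply k)).const_mul _
  rw [lintegral_withDensity_eq_lintegral_mul _ hpm hF] at h5
  have h6 : ∀ M : K → n → ℝ, ENNReal.ofReal (Real.exp (-(1 / 2) * ∑ k, M k ⬝ᵥ S *ᵥ M k)) =
      ∏ k, e (M k) := by
    intro M
    rw [Finset.mul_sum, Real.exp_sum, ENNReal.ofReal_prod_of_nonneg fun i _ => by positivity]
  have hpm2 : Measurable (fun M : K → n → ℝ => F M * ∏ k, e (M k)) :=
    hF.mul (Finset.measurable_fun_prod _ fun k _ => hem.comp (measurable_pi_apply k))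
  have h7 : ∫⁻ M, ((fun M : K → n → ℝ => ∏ k, (c⁻¹ * e (M k))) * F) M
      ∂(Measure.pi fun _ : K => gm n) =
      (c⁻¹) ^ Fintype.card K * ∫⁻ M, F M * ∏ k, e (M k) ∂(Measure.pi fun _ : K => gm n) := by
    rw [← lintegral_const_mul _ hpm2]
    refine lintegral_congr fun M => ?_
    simp only [Pi.mul_apply]
    rw [Finset.prod_mul_distrib, Finset.prod_const, Finset.card_univ]
    ring
  rw [h7] at h5
  simp_rw [h6]
  unfold gmat
  rw [h5, ← mul_assoc, ← mul_pow, ENNReal.mul_inv_cancel hc0 hc1, one_pow, one_mul]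

open scoped MatrixOrder in
/-- factorization of a positive semidefinite matrix -/
theorem exists_factor {n : Type*} [Fintype n] [DecidableEq n] (A : Matrix n n ℝ)
    (hA : A.PosSemidef) : ∃ B : Matrix n n ℝ, A = Bᵀ * B := by
  obtain ⟨B, hB⟩ := CStarAlgebra.nonneg_iff_eq_star_mul_self.mp hA.nonneg
  refine ⟨B, ?_⟩
  rw [hB]
  congr 1

/-- a square root of `(1 + S)⁻¹` -/
theorem exists_tilt {n : Type*} [Fintype n] [DecidableEq n] (S : Matrix n n ℝ)
    (hS : (1 + S).PosDef) : ∃ L : Matrix n n ℝ, L * Lᵀ * (1 + S) = 1 ∧ 0 < |L.det| ∧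
      L * Lᵀ = (1 + S)⁻¹ ∧ |L.det| = (1 + S).det ^ (-(1 / 2) : ℝ) := by
  have h1 := hS.inv.posSemidef
  obtain ⟨B, hB⟩ := exists_factor _ h1
  have hdpos : 0 < (1 + S).det := hS.det_pos
  have hu : IsUnit (1 + S).det := isUnit_iff_ne_zero.2 hdpos.ne'
  have h3 : Bᵀ * Bᵀᵀ = (1 + S)⁻¹ := by rw [Matrix.transpose_transpose, hB]
  have h4 : Bᵀ.det * Bᵀ.det = ((1 + S).det)⁻¹ := by
    have := congrArg Matrix.det h3
    rw [Matrix.det_mul, Matrix.det_transpose Bᵀ, Matrix.det_nonsing_inv, Ring.inverse_eq_inv'] at this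
    exact this
  have h5 : 0 < |Bᵀ.det| := by
    rw [abs_pos]
    intro h0
    rw [h0, mul_zero] at h4
    exact (inv_pos.2 hdpos).ne h4
  refine ⟨Bᵀ, ?_, h5, h3, ?_⟩
  · rw [h3, Matrix.nonsing_inv_mul _ hu]
  · have h6 : |Bᵀ.det| = Real.sqrt (((1 + S).det)⁻¹) := by
      rw [← h4, Real.sqrt_mul_self_eq_abs]
    rw [h6, Real.sqrt_eq_rpow, Real.inv_rpow hdpos.le, Real.rpow_neg hdpos.le]

theorem detw_meas {ι : Type*} [Fintype ι] [DecidableEq ι] (κ : ℝ) :
    Measurable (detw (ι := ι) κ) := by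
  have h : Measurable (fun M : ι → ι → ℝ => (Matrix.of M).det) := by
    simp only [Matrix.det_apply, Matrix.of_apply]
    refine Finset.measurable_fun_sum _ fun s _ => ?_
    refine Measurable.const_smul ?_ _
    exact Finset.measurable_fun_prod _ fun i _ => by fun_prop
  unfold detw
  exact ENNReal.measurable_ofReal.comp (h.abs.pow_const κ)

theorem detw_mulVec {ι : Type*} [Fintype ι] [DecidableEq ι] (κ : ℝ) (L : Matrix ι ι ℝ)
    (M : ι → ι → ℝ) : detw κ (fun k => L *ᵥ M k) = ENNReal.ofReal (|L.det| ^ κ) * detw κ M := by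
  have h1 : Matrix.of (fun k => L *ᵥ M k) = Matrix.of M * Lᵀ := by
    ext i j
    simp [Matrix.mul_apply, mulVec, dotProduct, mul_comm]
  unfold detw
  rw [h1, Matrix.det_mul, Matrix.det_transpose, abs_mul, mul_comm,
    Real.mul_rpow (abs_nonneg _) (abs_nonneg _), ENNReal.ofReal_mul (by positivity)]

/-- **the Laplace transform** of `|det M|^κ` times the Gaussian law -/
theorem lap {ι : Type*} [Fintype ι] [DecidableEq ι] (κ : ℝ) (S : Matrix ι ι ℝ)
    (hS : (1 + S).PosDef) :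
    ∫⁻ M, detw κ M * ENNReal.ofReal (Real.exp (-(1 / 2) * ∑ k, M k ⬝ᵥ S *ᵥ M k)) ∂(gmat ι ι) =
      ENNReal.ofReal ((1 + S).det ^ (-((κ + Fintype.card ι) / 2))) * Zc ι κ := by
  obtain ⟨L, hL1, hL2, _, hL3⟩ := exists_tilt S hS
  rw [gmat_tilt S L hL1 (detw κ) (detw_meas κ)]
  simp_rw [detw_mulVec]
  rw [lintegral_const_mul _ (detw_meas κ), ← mul_assoc]
  unfold Zc
  congr 1
  have hd := hS.det_pos
  rw [← ENNReal.ofReal_pow hL2.le, ← ENNReal.ofReal_mul (by positivity), hL3,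
    ← Real.rpow_natCast, ← Real.rpow_mul hd.le, ← Real.rpow_mul hd.le, ← Real.rpow_add hd]
  congr 2
  ring

end Pool.Agent.TH985.WP
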