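import Pool.Agent.TH985.WP.Gf

/-!
# The product inequality for powers of determinants of `C_i M N_i`
-/

set_option autoImplicit false
open MeasureTheory ProbabilityTheory Matrix
open scoped ENNReal

namespace Pool.Agent.TH985.WP

theorem lintegral_pi_prod_finset {ι : Type*} [Fintype ι] [DecidableEq ι] {Ω : ι → Type*}
    [∀ i, MeasurableSpace (Ω i)] (P : ∀ i, Measure (Ω i)) [∀ i, IsProbabilityMeasure (P i)]
    (t : Finset ι) (f : ∀ i, Ω i → ℝ≥0∞) (hf : ∀ i, Measurable (f i)) :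
    ∫⁻ ω, ∏ i ∈ t, f i (ω i) ∂(Measure.pi P) = ∏ i ∈ t, ∫⁻ x, f i x ∂(P i) := by
  have h := lintegral_pi_prod P (fun i x => if i ∈ t then f i x else 1) (fun i => by
    by_cases hi : i ∈ t
    · simp only [hi, if_true]; exact hf i
    · simp only [hi, if_false]; exact measurable_const)
  have h1 : ∀ ω : ∀ i, Ω i, ∏ i, (if i ∈ t then f i (ω i) else 1) = ∏ i ∈ t, f i (ω i) := by
    intro ω
    rw [Finset.prod_ite_mem, Finset.univ_inter]
  have h2 : ∏ i, ∫⁻ x, (if i ∈ t then f i x else 1) ∂(P i) = ∏ i ∈ t, ∫⁻ x, f i x ∂(P i) := by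
    rw [← Finset.univ_inter t, ← Finset.prod_ite_mem]
    refine Finset.prod_congr rfl fun i _ => ?_
    by_cases hi : i ∈ t
    · simp [hi]
    · simp [hi]
  rw [← h2, ← h]
  exact lintegral_congr fun ω => (h1 ω).symm

section

variable {I : Type} [Fintype I] [DecidableEq I] {B : I → Type} [∀ i, Fintype (B i)]
  [∀ i, DecidableEq (B i)]

/-- the blocks -/
def blk {I : Type} {B : I → Type} (y : ((i : I) × (B i × B i)) → ℝ) (i : I) :
    Matrix (B i) (B i) ℝ := Matrix.of fun b a => y ⟨i, (b, a)⟩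

/-- the sum of `C_i Z ν_iᵀ` and a block -/
def addb {K n : Type} [Fintype K] [Fintype n] (C : Matrix ((i : I) × B i) n ℝ) (i : I)
    (Z : K → n → ℝ) (ν : K → B i → ℝ) (y : ((i : I) × (B i × B i)) → ℝ) : B i → B i → ℝ :=
  fun b a => ymat (cw C i Z) ν b a + y ⟨i, (b, a)⟩

theorem measurable_addb {X K n : Type} [MeasurableSpace X] [Fintype K] [Fintype n]
    (C : Matrix ((i : I) × B i) n ℝ) (i : I) (Z : X → K → n → ℝ) (hZ : Measurable Z)
    (ν : X → K → B i → ℝ) (hν : Measurable ν) (y : X → ((i : I) × (B i × B i)) → ℝ)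
    (hy : Measurable y) : Measurable fun x => addb C i (Z x) (ν x) (y x) := by
  refine measurable_pi_lambda _ fun b => measurable_pi_lambda _ fun a => ?_
  unfold addb
  refine Measurable.add ?_ ?_
  · exact measurable_ymat (fun x => cw C i (Z x)) (fun j b => (measurable_cw C i j b).comp hZ)
      ν (fun j a => (measurable_pi_apply a).comp ((measurable_pi_apply j).comp hν)) b a
  · exact (measurable_pi_apply _).comp hy

attribute [local irreducible] addb in
/-- integrals of products of functions of the blocks -/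
theorem lawB_prod {n : Type} [Fintype n] (C : Matrix ((i : I) × B i) n ℝ) (i₀ : I)
    (κ₀ : ℝ) [hκ : Fact (-1 < κ₀)] (ρ' : Measure (((i : I) × (B i × B i)) → ℝ))
    [IsProbabilityMeasure ρ'] (t : Finset I) (g : ∀ i, (B i → B i → ℝ) → ℝ≥0∞)
    (hg : ∀ i, Measurable (g i)) :
    ∫⁻ y, ∏ i ∈ t, g i (fun b a => y ⟨i, (b, a)⟩) ∂(lawB C i₀ κ₀ ρ') =
      ∫⁻ Z, ∫⁻ y', ∏ i ∈ t, (∫⁻ ν, g i (addb C i Z ν y') ∂(nuB B i₀ κ₀ i)) ∂ρ'
        ∂(gmat (B i₀) n) := by
  have hYB := measurable_YB (K := B i₀) C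
  have hmy : Measurable fun y : ((i : I) × (B i × B i)) → ℝ =>
      ∏ i ∈ t, g i (fun b a => y ⟨i, (b, a)⟩) := by
    refine Finset.measurable_fun_prod _ fun i _ => (hg i).comp ?_
    exact measurable_pi_lambda _ fun b => measurable_pi_lambda _ fun a => measurable_pi_apply _
  unfold lawB
  rw [lintegral_map hmy hYB]
  have hj : ∀ i, Measurable fun p : (B i₀ → n → ℝ) × ((∀ i, B i₀ → B i → ℝ) ×
      (((i : I) × (B i × B i)) → ℝ)) => addb C i p.1 (p.2.1 i) p.2.2 := by
    intro i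
    exact measurable_addb C i (fun p : (B i₀ → n → ℝ) × ((∀ i, B i₀ → B i → ℝ) ×
      (((i : I) × (B i × B i)) → ℝ)) => p.1) measurable_fst (fun p => p.2.1 i)
      ((measurable_pi_apply i).comp (measurable_fst.comp measurable_snd)) (fun p => p.2.2)
      (measurable_snd.comp measurable_snd)
  have hpm : Measurable fun p : (B i₀ → n → ℝ) × ((∀ i, B i₀ → B i → ℝ) ×
      (((i : I) × (B i × B i)) → ℝ)) => ∏ i ∈ t, g i (addb C i p.1 (p.2.1 i) p.2.2) :=
    Finset.measurable_fun_prod _ fun i _ => (hg i).comp (hj i)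
  have e1 : ∀ p : (B i₀ → n → ℝ) × ((∀ i, B i₀ → B i → ℝ) ×
      (((i : I) × (B i × B i)) → ℝ)), ∏ i ∈ t, g i (fun b a =>
        (fun x : (i : I) × (B i × B i) => ymat (cw C x.1 p.1) (p.2.1 x.1) x.2.1 x.2.2 +
          p.2.2 x) ⟨i, (b, a)⟩) = ∏ i ∈ t, g i (addb C i p.1 (p.2.1 i) p.2.2) := by
    intro p
    unfold addb
    rfl
  rw [lintegral_congr e1, lintegral_prod _ hpm.aemeasurable]
  refine lintegral_congr fun Z => ?_
  have hpm2 : Measurable fun p : (∀ i, B i₀ → B i → ℝ) × (((i : I) × (B i × B i)) → ℝ) =>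
      ∏ i ∈ t, g i (addb C i Z (p.1 i) p.2) :=
    hpm.comp (measurable_const.prodMk measurable_id)
  rw [lintegral_prod_symm _ hpm2.aemeasurable]
  refine lintegral_congr fun y' => ?_
  refine lintegral_pi_prod_finset (nuB B i₀ κ₀) t (fun i ν => g i (addb C i Z ν y'))
    fun i => ?_
  exact (hg i).comp (measurable_addb C i (fun _ : B i₀ → B i → ℝ => Z) measurable_const
    (fun ν => ν) measurable_id (fun _ => y') measurable_const)

/-- integrals of a function of one block, first representation -/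
theorem lawA_one {n : Type} [Fintype n] [DecidableEq n] (C : Matrix ((i : I) × B i) n ℝ)
    (κ : ℝ) [_hκ : Fact (-1 < κ)] (i : I) (g : (B i → B i → ℝ) → ℝ≥0∞) (hg : Measurable g) :
    ∫⁻ y, g (fun b a => y ⟨i, (b, a)⟩) ∂(lawA C κ) =
      ∫⁻ M, ∫⁻ ν, g (fun b a => ymat (cw C i M) ν b a) ∂(gmat n (B i)) ∂(muk n κ) := by
  have hY := measurable_Y (K := n) C
  have hmy : Measurable fun y : ((i : I) × (B i × B i)) → ℝ =>
      g (fun b a => y ⟨i, (b, a)⟩) := by
    refine hg.comp ?_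
    exact measurable_pi_lambda _ fun b => measurable_pi_lambda _ fun a => measurable_pi_apply _
  have hpm : Measurable fun p : (n → n → ℝ) × (∀ i, n → B i → ℝ) =>
      g (fun b a => ymat (cw C i p.1) (p.2 i) b a) := hmy.comp hY
  unfold lawA
  rw [lintegral_map hmy hY]
  rw [show (∫⁻ p : (n → n → ℝ) × (∀ i, n → B i → ℝ), g (fun b a =>
    (fun x : (i : I) × (B i × B i) => ymat (cw C x.1 p.1) (p.2 x.1) x.2.1 x.2.2) ⟨i, (b, a)⟩)
    ∂((muk n κ).prod (Measure.pi fun i => gmat n (B i)))) =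
    ∫⁻ p : (n → n → ℝ) × (∀ i, n → B i → ℝ), g (fun b a => ymat (cw C i p.1) (p.2 i) b a)
    ∂((muk n κ).prod (Measure.pi fun i => gmat n (B i))) from rfl]
  rw [lintegral_prod _ hpm.aemeasurable]
  refine lintegral_congr fun M => ?_
  have h1 : Measurable fun ν : n → B i → ℝ => g (fun b a => ymat (cw C i M) ν b a) := by
    refine hg.comp ?_
    refine measurable_pi_lambda _ fun b => measurable_pi_lambda _ fun a => ?_
    exact measurable_ymat (fun _ => cw C i M) (fun _ _ => measurable_const) (fun ν => ν)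
      (fun j a => by fun_prop) b a
  exact (measurePreserving_eval (fun i => gmat n (B i)) i).lintegral_comp h1

/-- zero rows give zero blocks -/
theorem lawA_zero {n : Type} [Fintype n] [DecidableEq n] (C : Matrix ((i : I) × B i) n ℝ)
    (κ : ℝ) (i : I) (hC : ∀ b x, C ⟨i, b⟩ x = 0) :
    ∀ᵐ y ∂(lawA C κ), ∀ b a, y ⟨i, (b, a)⟩ = 0 := by
  have hY := measurable_Y (K := n) C
  have hs : MeasurableSet {y : ((i : I) × (B i × B i)) → ℝ | ∀ b a, y ⟨i, (b, a)⟩ = 0} := by
    have : {y : ((i : I) × (B i × B i)) → ℝ | ∀ b a, y ⟨i, (b, a)⟩ = 0} =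
        ⋂ b, ⋂ a, {y : ((i : I) × (B i × B i)) → ℝ | y ⟨i, (b, a)⟩ = 0} := by
      ext y; simp
    rw [this]
    exact MeasurableSet.iInter fun b => MeasurableSet.iInter fun a =>
      measurableSet_eq_fun (measurable_pi_apply _) measurable_const
  unfold lawA
  rw [ae_map_iff hY.aemeasurable hs]
  refine Filter.Eventually.of_forall fun p b a => ?_
  simp only [ymat, Matrix.of_apply, cw, mulVec, dotProduct]
  refine Finset.sum_eq_zero fun j _ => ?_
  rw [Finset.sum_eq_zero fun x _ => by rw [hC, zero_mul], zero_mul]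

/-- a Gram matrix can be represented in the smaller space -/
theorem exists_small {n : Type} [Fintype n] (C : Matrix ((i : I) × B i) n ℝ) (s : Finset I)
    (hC : ∀ i ∉ s, ∀ b x, C ⟨i, b⟩ x = 0) :
    ∃ C' : Matrix ((i : I) × B i) {p : (i : I) × B i // p.1 ∈ s} ℝ,
      C' * C'ᵀ = C * Cᵀ ∧ ∀ i ∉ s, ∀ b x, C' ⟨i, b⟩ x = 0 := by
  set G : Matrix {p : (i : I) × B i // p.1 ∈ s} {p : (i : I) × B i // p.1 ∈ s} ℝ :=
    (C * Cᵀ).submatrix Subtype.val Subtype.val with hG
  have hpos : G.PosSemidef := by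
    have h1 : (C * Cᵀ).PosSemidef := by
      have := posSemidef_self_mul_conjTranspose C
      rwa [conjTranspose_eq_transpose_of_trivial] at this
    exact h1.submatrix _
  obtain ⟨R, hR⟩ := exists_factor G hpos
  refine ⟨Matrix.of fun p x => if h : p.1 ∈ s then R x ⟨p, h⟩ else 0, ?_, ?_⟩
  · ext p q
    simp only [Matrix.mul_apply, transpose_apply, Matrix.of_apply]
    by_cases hp : p.1 ∈ s
    · by_cases hq : q.1 ∈ s
      · simp only [hp, hq, dif_pos]
        have h2 : G ⟨p, hp⟩ ⟨q, hq⟩ = ∑ x, R x ⟨p, hp⟩ * R x ⟨q, hq⟩ := by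
          rw [hR]
          simp [Matrix.mul_apply]
        rw [← h2, hG]
        simp [Matrix.mul_apply]
      · simp only [hq, dif_neg, not_false_eq_true, mul_zero, Finset.sum_const_zero]
        symm
        refine Finset.sum_eq_zero fun x _ => ?_
        rw [show C q x = 0 from hC q.1 hq q.2 x, mul_zero]
    · simp only [hp, dif_neg, not_false_eq_true, zero_mul, Finset.sum_const_zero]
      symm
      refine Finset.sum_eq_zero fun x _ => ?_
      rw [show C p x = 0 from hC p.1 hp p.2 x, zero_mul]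
  · intro i hi b x
    simp [hi]

end

end Pool.Agent.TH985.WP
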