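import Mathlib

/-!
# The Wishart law: definitions
-/

set_option autoImplicit false
open MeasureTheory

namespace Pool.Agent.TH985.WP

/-- the symmetric matrix with entries `x {i, j}` -/
def symm {ι : Type*} (x : Sym2 ι → ℝ) : Matrix ι ι ℝ := Matrix.of fun i j => x s(i, j)

/-- the cone of positive definite symmetric matrices, in the coordinates `x {i, j}` -/
def cone (ι : Type*) [Fintype ι] : Set (Sym2 ι → ℝ) := {x | (symm x).PosDef}

/-- the multivariate gamma function `∫_{X > 0} |X|^(β - (p+1)/2) etr(-X) dX`, `p = card ι` -/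
noncomputable def mgamma (ι : Type*) [Fintype ι] [DecidableEq ι] (β : ℝ) : ℝ :=
  ∫ x in cone ι, (symm x).det ^ (β - ((Fintype.card ι : ℝ) + 1) / 2) *
    Real.exp (-(symm x).trace)

/-- the Wishart density `|X|^(α/2 - (p+1)/2) etr(-(Σ⁻¹/2) X) / (|2Σ|^(α/2) Γ_p(α/2))` -/
noncomputable def wishartDensity {ι : Type*} [Fintype ι] [DecidableEq ι] (α : ℝ)
    (S X : Matrix ι ι ℝ) : ℝ :=
  X.det ^ (α / 2 - ((Fintype.card ι : ℝ) + 1) / 2) *
    Real.exp (-(((1 / 2 : ℝ) • S⁻¹) * X).trace) /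
    (((2 : ℝ) • S).det ^ (α / 2) * mgamma ι (α / 2))

/-- the Wishart law `W_p(α, Σ)`, as a measure in the coordinates `x {i, j}` -/
noncomputable def wishart {ι : Type*} [Fintype ι] [DecidableEq ι] (α : ℝ)
    (S : Matrix ι ι ℝ) : Measure (Sym2 ι → ℝ) :=
  (volume.restrict (cone ι)).withDensity fun x => ENNReal.ofReal (wishartDensity α S (symm x))

end Pool.Agent.TH985.WP
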