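import Pool.Agent.H581R3.GPR.Fin

/-!
# The Gaussian product inequality for lower Lebesgue integrals and arbitrary finite index types
-/

set_option autoImplicit false
open MeasureTheory ProbabilityTheory
open scoped ENNReal

namespace Pool.Agent.TH985.WP

/-- standard Gaussian measure on `κ → ℝ` -/
noncomputable def gm (κ : Type*) [Fintype κ] : Measure (κ → ℝ) :=
  Measure.pi fun _ : κ => gaussianReal 0 1

instance gm_prob (κ : Type*) [Fintype κ] : IsProbabilityMeasure (gm κ) := by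
  unfold gm; infer_instance

theorem gpi_fin (n d : ℕ) (l : Fin d → ((Fin n → ℝ) →ₗ[ℝ] ℝ)) (p : Fin d → ℝ)
    (hp : ∀ k, 0 ≤ p k) :
    ∏ k, ∫⁻ g, ENNReal.ofReal (|l k g| ^ (p k)) ∂(gm (Fin n)) ≤
      ∫⁻ g, ∏ k, ENNReal.ofReal (|l k g| ^ (p k)) ∂(gm (Fin n)) := by
  have hgm : gm (Fin n) = H780GP.gam n := rfl
  rw [hgm]
  haveI : IsProbabilityMeasure (H780GP.gam n) := by rw [← hgm]; infer_instance
  haveI : IsProbabilityMeasure (H780GP.gam d) := by
    have : gm (Fin d) = H780GP.gam d := rfl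
    rw [← this]; infer_instance
  have hcl : ∀ k, Continuous (fun g : Fin n → ℝ => l k g) := fun k =>
    LinearMap.continuous_of_finiteDimensional (l k)
  have hcf : ∀ (r : Fin d → ℝ), (∀ k, 0 ≤ r k) → ∀ k,
      Continuous (fun g : Fin n → ℝ => |l k g| ^ (r k)) := fun r hr k =>
    ((hcl k).abs).rpow_const fun x => Or.inr (hr k)
  -- integrability
  have hint : ∀ (r : Fin d → ℝ), (∀ k, 0 ≤ r k) →
      Integrable (fun g : Fin n → ℝ => ∏ k, |l k g| ^ (r k)) (H780GP.gam n) := by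
    intro r hr
    have h1 := Pool.Agent.H581R3.GPR.t_IP n d l 0 le_rfl one_pos r hr
    have h2 : MeasurePreserving (Prod.fst : (Fin n → ℝ) × (Fin d → ℝ) → (Fin n → ℝ))
        ((H780GP.gam n).prod (H780GP.gam d)) (H780GP.gam n) := measurePreserving_fst
    have h3 : Continuous (fun g : Fin n → ℝ => ∏ k, |l k g| ^ (r k)) :=
      continuous_finsetProd _ fun k _ => hcf r hr k
    refine (h2.integrable_comp h3.aestronglyMeasurable).1 ?_
    refine h1.congr (Filter.Eventually.of_forall fun w => ?_)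
    simp [H780GP.Lf]
  have hone : ∀ k, Integrable (fun g : Fin n → ℝ => |l k g| ^ (p k)) (H780GP.gam n) := by
    intro k
    classical
    have h := hint (fun k' => if k' = k then p k else 0) (fun k' => by
      split_ifs
      · exact hp k
      · exact le_rfl)
    refine h.congr (Filter.Eventually.of_forall fun g => ?_)
    show ∏ k', |l k' g| ^ (if k' = k then p k else 0) = |l k g| ^ (p k)
    rw [Finset.prod_eq_single k]
    · rw [if_pos rfl]
    · intro b _ hb
      rw [if_neg hb, Real.rpow_zero]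
    · intro h
      exact absurd (Finset.mem_univ k) h
  have e1 : ∀ k, ∫⁻ g, ENNReal.ofReal (|l k g| ^ (p k)) ∂(H780GP.gam n) =
      ENNReal.ofReal (∫ g, |l k g| ^ (p k) ∂(H780GP.gam n)) := fun k =>
    (ofReal_integral_eq_lintegral_ofReal (hone k)
      (Filter.Eventually.of_forall fun g => by positivity)).symm
  have e2 : ∫⁻ g, ∏ k, ENNReal.ofReal (|l k g| ^ (p k)) ∂(H780GP.gam n) =
      ENNReal.ofReal (∫ g, ∏ k, |l k g| ^ (p k) ∂(H780GP.gam n)) := by
    rw [ofReal_integral_eq_lintegral_ofReal (hint p hp)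
      (Filter.Eventually.of_forall fun g => by positivity)]
    refine lintegral_congr fun g => ?_
    rw [ENNReal.ofReal_prod_of_nonneg fun k _ => by positivity]
  simp_rw [e1]
  rw [e2, ← ENNReal.ofReal_prod_of_nonneg fun k _ => integral_nonneg fun g => by positivity]
  exact ENNReal.ofReal_le_ofReal (Pool.Agent.H581R3.GPR.t_F3 n d l p hp)

/-- reindexing a standard Gaussian vector -/
theorem gm_congr {κ κ' : Type*} [Fintype κ] [Fintype κ'] (e : κ ≃ κ') :
    MeasurePreserving (fun (x : κ' → ℝ) (i : κ) => x (e i)) (gm κ') (gm κ) := by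
  have h := measurePreserving_piCongrLeft (fun _ : κ => gaussianReal 0 1) e.symm
  have h2 : ⇑(MeasurableEquiv.piCongrLeft (fun _ : κ => ℝ) e.symm) =
      fun (x : κ' → ℝ) (i : κ) => x (e i) := by
    funext x i
    have := MeasurableEquiv.piCongrLeft_apply_apply (β := fun _ : κ => ℝ) e.symm x (e i)
    simpa using this
  rw [h2] at h
  exact h

theorem gpi_lin {κ ι : Type*} [Fintype κ] [Fintype ι] (c : ι → κ → ℝ) (q : ι → ℝ)
    (hq : ∀ i, 0 ≤ q i) :
    ∏ i, ∫⁻ z, ENNReal.ofReal (|∑ k, c i k * z k| ^ (q i)) ∂(gm κ) ≤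
      ∫⁻ z, ∏ i, ENNReal.ofReal (|∑ k, c i k * z k| ^ (q i)) ∂(gm κ) := by
  classical
  let e := Fintype.equivFin κ
  let e' := Fintype.equivFin ι
  let l : Fin (Fintype.card ι) → ((Fin (Fintype.card κ) → ℝ) →ₗ[ℝ] ℝ) := fun j =>
    ∑ k, (c (e'.symm j) k) • (LinearMap.proj (e k) : (Fin (Fintype.card κ) → ℝ) →ₗ[ℝ] ℝ)
  have hl : ∀ j g, l j g = ∑ k, c (e'.symm j) k * g (e k) := by
    intro j g
    simp [l, LinearMap.sum_apply]
  have hmp := gm_congr e
  have key := gpi_fin (Fintype.card κ) (Fintype.card ι) l (fun j => q (e'.symm j))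
    (fun j => hq _)
  have hm1 : ∀ i, Measurable (fun z : κ → ℝ => ENNReal.ofReal (|∑ k, c i k * z k| ^ (q i))) := by
    intro i
    fun_prop
  have e1 : ∀ i, ∫⁻ z, ENNReal.ofReal (|∑ k, c i k * z k| ^ (q i)) ∂(gm κ) =
      ∫⁻ g, ENNReal.ofReal (|l (e' i) g| ^ (q i)) ∂(gm (Fin (Fintype.card κ))) := by
    intro i
    rw [← hmp.lintegral_comp (hm1 i)]
    refine lintegral_congr fun g => ?_
    rw [hl]
    simp
  have e2 : ∫⁻ z, ∏ i, ENNReal.ofReal (|∑ k, c i k * z k| ^ (q i)) ∂(gm κ) =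
      ∫⁻ g, ∏ i, ENNReal.ofReal (|l (e' i) g| ^ (q i)) ∂(gm (Fin (Fintype.card κ))) := by
    rw [← hmp.lintegral_comp (Finset.measurable_fun_prod _ fun i _ => hm1 i)]
    refine lintegral_congr fun g => ?_
    refine Finset.prod_congr rfl fun i _ => ?_
    rw [hl]
    simp
  rw [e2]
  simp_rw [e1]
  have e3 : ∏ i, ∫⁻ g, ENNReal.ofReal (|l (e' i) g| ^ (q i)) ∂(gm (Fin (Fintype.card κ))) =
      ∏ j, ∫⁻ g, ENNReal.ofReal (|l j g| ^ (q (e'.symm j))) ∂(gm (Fin (Fintype.card κ))) := by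
    rw [← Equiv.prod_comp e']
    simp
  have e4 : ∀ g : Fin (Fintype.card κ) → ℝ, ∏ i, ENNReal.ofReal (|l (e' i) g| ^ (q i)) =
      ∏ j, ENNReal.ofReal (|l j g| ^ (q (e'.symm j))) := by
    intro g
    rw [← Equiv.prod_comp e']
    simp
  rw [e3]
  simp_rw [e4]
  exact key

end Pool.Agent.TH985.WP
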