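import Pool.Agent.TH985.WP.Defs
import Pool.Agent.TH985.WP.Gpi

/-!
# Definitions for the Wishart product inequality: weighted Gaussian matrices
-/

set_option autoImplicit false
open MeasureTheory ProbabilityTheory Matrix
open scoped ENNReal

namespace Pool.Agent.TH985.WP

/-- the symmetric array `[[x, v], [vᵀ, y]]` indexed by `Option ι` -/
def border {ι : Type*} (x : Sym2 ι → ℝ) (v : ι → ℝ) (y : ℝ) : Sym2 (Option ι) → ℝ :=
  Sym2.lift ⟨fun a b =>
    match a, b with
    | some a, some b => x s(a, b)
    | some a, none => v a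
    | none, some b => v b
    | none, none => y, by rintro (_ | a) (_ | b) <;> simp [Sym2.eq_swap]⟩

/-- a matrix given by its columns: `M k` is the `k`-th column, with iid standard Gaussian
entries -/
noncomputable def gmat (K n : Type*) [Fintype K] [Fintype n] : Measure (K → n → ℝ) :=
  Measure.pi fun _ : K => gm n

instance gmat_prob (K n : Type*) [Fintype K] [Fintype n] : IsProbabilityMeasure (gmat K n) := by
  unfold gmat; infer_instance

/-- the weight `|det M|^κ` -/
noncomputable def detw {ι : Type*} [Fintype ι] [DecidableEq ι] (κ : ℝ) (M : ι → ι → ℝ) : ℝ≥0∞ :=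
  ENNReal.ofReal (|(Matrix.of M).det| ^ κ)

/-- the normalising constant `E |det M|^κ` -/
noncomputable def Zc (ι : Type*) [Fintype ι] [DecidableEq ι] (κ : ℝ) : ℝ≥0∞ :=
  ∫⁻ M, detw κ M ∂(gmat ι ι)

/-- the law of a square matrix with density `|det M|^κ / Zc` with respect to the Gaussian law -/
noncomputable def muk (ι : Type*) [Fintype ι] [DecidableEq ι] (κ : ℝ) : Measure (ι → ι → ℝ) :=
  (Zc ι κ)⁻¹ • (gmat ι ι).withDensity (detw κ)

/-- the Gram matrix `C M Mᵀ Cᵀ` -/
def gram {m n K : Type*} [Fintype n] [Fintype K] (C : Matrix m n ℝ) (M : K → n → ℝ) :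
    Matrix m m ℝ := Matrix.of fun i j => ∑ k, (C *ᵥ M k) i * (C *ᵥ M k) j

/-- the coordinates of the Gram matrix -/
def gramc {m n K : Type*} [Fintype n] [Fintype K] (C : Matrix m n ℝ) (M : K → n → ℝ) :
    Sym2 m → ℝ :=
  Sym2.lift ⟨fun i j => gram C M i j, by
    intro i j
    simp only [gram, Matrix.of_apply]
    exact Finset.sum_congr rfl fun k _ => mul_comm _ _⟩

end Pool.Agent.TH985.WP
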