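import Pool.Agent.TH985.WP.Induct

/-!
# Moments of determinants of Gaussian matrices with linearly transformed rows
-/

set_option autoImplicit false
open MeasureTheory ProbabilityTheory Matrix
open scoped ENNReal

namespace Pool.Agent.TH985.WP

theorem uniq2 {K n : Type*} [Fintype K] [Fintype n] {μ ν : Measure (K → n → ℝ)}
    [IsFiniteMeasure μ] [IsFiniteMeasure ν]
    (h : ∀ V : K → n → ℝ, ∫ x, Complex.exp ((∑ k, ∑ a, V k a * x k a : ℝ) * Complex.I) ∂μ =
      ∫ x, Complex.exp ((∑ k, ∑ a, V k a * x k a : ℝ) * Complex.I) ∂ν) : μ = ν := by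
  apply (MeasurableEquiv.curry K n ℝ).symm.map_measurableEquiv_injective
  have hm : Measurable (MeasurableEquiv.curry K n ℝ).symm :=
    (MeasurableEquiv.curry K n ℝ).symm.measurable
  apply uniq
  intro a
  rw [integral_map hm.aemeasurable (cont_cexp a).aestronglyMeasurable,
    integral_map hm.aemeasurable (cont_cexp a).aestronglyMeasurable]
  have h1 : ∀ x : K → n → ℝ, ∑ k, a k * (MeasurableEquiv.curry K n ℝ).symm x k =
      ∑ k, ∑ b, a (k, b) * x k b := by
    intro x
    rw [Fintype.sum_prod_type]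
    rfl
  simp_rw [h1]
  exact h fun k b => a (k, b)

/-- left multiplication by a matrix with orthonormal rows -/
theorem gmat_left {J B A : Type*} [Fintype J] [Fintype B] [DecidableEq B] [Fintype A]
    (U : Matrix B J ℝ) (hU : U * Uᵀ = 1) :
    MeasurePreserving (fun (ν : J → A → ℝ) (b : B) (a : A) => ∑ j, U b j * ν j a)
      (gmat J A) (gmat B A) := by
  have hc : Continuous (fun (ν : J → A → ℝ) (b : B) (a : A) => ∑ j, U b j * ν j a) := by
    fun_prop
  refine ⟨hc.measurable, ?_⟩
  have : IsProbabilityMeasure ((gmat J A).map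
      fun (ν : J → A → ℝ) (b : B) (a : A) => ∑ j, U b j * ν j a) :=
    Measure.isProbabilityMeasure_map hc.aemeasurable
  apply uniq2
  intro V
  have hcc : Continuous fun x : B → A → ℝ =>
      Complex.exp ((∑ k, ∑ a, V k a * x k a : ℝ) * Complex.I) := by fun_prop
  rw [integral_map hc.aemeasurable hcc.aestronglyMeasurable]
  have h1 : ∀ ν : J → A → ℝ, ∑ b, ∑ a, V b a * ∑ j, U b j * ν j a =
      ∑ j, ∑ a, (∑ b, V b a * U b j) * ν j a := by
    intro ν
    simp only [Finset.mul_sum, Finset.sum_mul]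
    rw [Finset.sum_comm]
    rw [Finset.sum_comm (f := fun (j : J) (a : A) => ∑ b, V b a * U b j * ν j a)]
    refine Finset.sum_congr rfl fun a _ => ?_
    rw [Finset.sum_comm]
    refine Finset.sum_congr rfl fun j _ => Finset.sum_congr rfl fun b _ => by ring
  simp_rw [h1]
  rw [gmat_cf (fun j a => ∑ b, V b a * U b j), gmat_cf V]
  congr 3
  rw [Finset.sum_comm]
  rw [Finset.sum_comm (f := fun (k : B) (a : A) => V k a ^ 2)]
  refine Finset.sum_congr rfl fun a _ => ?_
  have h2 : ∀ j, ∑ b, V b a * U b j = (Uᵀ *ᵥ fun b => V b a) j := by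
    intro j
    simp [mulVec, dotProduct, mul_comm]
  simp_rw [h2]
  rw [← quad_DDt, hU, one_mulVec]
  simp [dotProduct, sq]

/-- the matrix with columns `w j` -/
def colm {J B : Type*} (w : J → B → ℝ) : Matrix B J ℝ := Matrix.of fun b j => w j b

theorem ymat_eq {J B A : Type*} [Fintype J] (w : J → B → ℝ) (ν : J → A → ℝ) :
    ymat w ν = colm w * Matrix.of ν := by
  ext b a
  simp [ymat, colm, Matrix.mul_apply]

/-- **the moments of the determinant of `W N`** -/
theorem detG {J B : Type} [Fintype J] [Fintype B] [DecidableEq B] (q : ℝ) (hq : 0 ≤ q)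
    (w : J → B → ℝ) :
    Gf q w 0 = ENNReal.ofReal ((colm w * (colm w)ᵀ).det ^ (q / 2)) * Zc B q := by
  set W := colm w with hW
  have hpsd : (W * Wᵀ).PosSemidef := by
    have := posSemidef_self_mul_conjTranspose W
    rwa [conjTranspose_eq_transpose_of_trivial] at this
  by_cases hdet : (W * Wᵀ).det = 0
  · -- the singular case
    obtain ⟨v, hv0, hv⟩ := Matrix.exists_mulVec_eq_zero_iff.2 hdet
    have h1 : Wᵀ *ᵥ v = 0 := by
      have h2 : v ⬝ᵥ (W * Wᵀ) *ᵥ v = 0 := by rw [hv, dotProduct_zero]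
      rw [quad_DDt] at h2
      funext j
      have h3 := (Finset.sum_eq_zero_iff_of_nonneg (fun j _ => sq_nonneg _)).1 h2 j
        (Finset.mem_univ j)
      simpa using h3
    have h4 : ∀ ν : J → B → ℝ, (ymat w ν).det = 0 := by
      intro ν
      rw [ymat_eq, ← hW, ← Matrix.det_transpose]
      refine Matrix.exists_mulVec_eq_zero_iff.1 ⟨v, hv0, ?_⟩
      rw [Matrix.transpose_mul, ← Matrix.mulVec_mulVec, h1, Matrix.mulVec_zero]
    unfold Gf
    simp_rw [add_zero, h4, hdet, abs_zero]
    rw [lintegral_const, measure_univ, mul_one]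
    rcases hq.eq_or_lt with h0 | h0
    · rw [← h0]
      simp [Zc, detw]
    · rw [Real.zero_rpow h0.ne', Real.zero_rpow (by positivity)]
      simp
  · -- the regular case
    obtain ⟨R, hR⟩ := exists_factor _ hpsd
    have hRd : (W * Wᵀ).det = R.det * R.det := by
      rw [hR, Matrix.det_mul, Matrix.det_transpose]
    have hR0 : R.det ≠ 0 := by
      intro h0
      apply hdet
      rw [hRd, h0, mul_zero]
    have hRu : IsUnit Rᵀ.det := by
      rw [Matrix.det_transpose]; exact isUnit_iff_ne_zero.2 hR0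
    have hRu' : IsUnit R.det := isUnit_iff_ne_zero.2 hR0
    set U : Matrix B J ℝ := (Rᵀ)⁻¹ * W with hU
    have hUU : U * Uᵀ = 1 := by
      have h1 : U * Uᵀ = (Rᵀ)⁻¹ * (W * Wᵀ) * R⁻¹ := by
        rw [hU, Matrix.transpose_mul, Matrix.transpose_nonsing_inv, Matrix.transpose_transpose]
        simp only [Matrix.mul_assoc]
      rw [h1, hR, ← Matrix.mul_assoc, Matrix.nonsing_inv_mul _ hRu, one_mul,
        Matrix.mul_nonsing_inv _ hRu']
    have hWU : W = Rᵀ * U := by
      rw [hU, ← Matrix.mul_assoc, Matrix.mul_nonsing_inv _ hRu, Matrix.one_mul]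
    have h5 : ∀ ν : J → B → ℝ, ENNReal.ofReal (|(ymat w ν + 0).det| ^ q) =
        ENNReal.ofReal (|R.det| ^ q) * detw q (fun (b : B) (a : B) => ∑ j, U b j * ν j a) := by
      intro ν
      have e1 : (ymat w ν + 0).det = R.det *
          (Matrix.of (fun (b : B) (a : B) => ∑ j, U b j * ν j a)).det := by
        rw [add_zero, ymat_eq, ← hW, hWU, Matrix.mul_assoc, Matrix.det_mul,
          Matrix.det_transpose]
        congr 2
      unfold detw
      rw [e1, abs_mul, Real.mul_rpow (abs_nonneg _) (abs_nonneg _),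
        ENNReal.ofReal_mul (by positivity)]
    unfold Gf
    simp_rw [h5]
    have hmp := gmat_left (A := B) U hUU
    have hdm : Measurable fun ν : J → B → ℝ =>
        detw q (fun (b : B) (a : B) => ∑ j, U b j * ν j a) :=
      (detw_meas q).comp hmp.measurable
    rw [lintegral_const_mul _ hdm, hmp.lintegral_comp (detw_meas q)]
    unfold Zc
    congr 2
    rw [hRd, ← sq, ← sq_abs, ← Real.rpow_natCast, ← Real.rpow_mul (abs_nonneg _)]
    congr 1
    push_cast
    ring

end Pool.Agent.TH985.WP
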