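import Pool.Agent.TH985.WP.Top
import Pool.Agent.TH384.WP.WishartEq

/-!
# The product inequality for the determinants of the diagonal blocks of a Wishart matrix
-/

set_option autoImplicit false
open MeasureTheory ProbabilityTheory Matrix
open scoped ENNReal

namespace Pool.Agent.TH985.WP

theorem gram_bound {m n K : Type} [Fintype m] [Fintype n] [Fintype K] (C : Matrix m n ℝ) :
    ∃ c : ℝ, 0 ≤ c ∧ ∀ (M : K → n → ℝ) (i j : m), |gram C M i j| ≤ c * ∑ k, M k ⬝ᵥ M k := by
  refine ⟨∑ p, ∑ x, C p x ^ 2, by positivity, fun M i j => ?_⟩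
  set c := ∑ p, ∑ x, C p x ^ 2 with hc
  have h1 : ∀ (v : n → ℝ) (p : m), (C *ᵥ v) p ^ 2 ≤ c * (v ⬝ᵥ v) := by
    intro v p
    have h2 : (C *ᵥ v) p ^ 2 ≤ (∑ x, C p x ^ 2) * ∑ x, v x ^ 2 := by
      simp only [mulVec, dotProduct]
      exact Finset.sum_mul_sq_le_sq_mul_sq Finset.univ _ _
    have h3 : ∑ x, v x ^ 2 = v ⬝ᵥ v := by simp [dotProduct, sq]
    rw [h3] at h2
    refine h2.trans (mul_le_mul_of_nonneg_right ?_ ?_)
    · exact Finset.single_le_sum (f := fun p => ∑ x, C p x ^ 2)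
        (fun p _ => Finset.sum_nonneg fun x _ => sq_nonneg _) (Finset.mem_univ p)
    · rw [← h3]
      positivity
  have h4 : |gram C M i j| ≤ ∑ k, c * (M k ⬝ᵥ M k) := by
    simp only [gram, Matrix.of_apply]
    refine (Finset.abs_sum_le_sum_abs _ _).trans (Finset.sum_le_sum fun k _ => ?_)
    rw [abs_mul]
    have h5 := h1 (M k) i
    have h6 := h1 (M k) j
    rw [← sq_abs] at h5 h6
    nlinarith [sq_nonneg (|(C *ᵥ M k) i| - |(C *ᵥ M k) j|)]
  rwa [Finset.mul_sum]

section

variable {I : Type} [Fintype I] [DecidableEq I] {B : I → Type} [∀ i, Fintype (B i)]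
  [∀ i, DecidableEq (B i)]

omit [DecidableEq I] [∀ i, DecidableEq (B i)] in
theorem dblk_gram_psd (C : Matrix ((i : I) × B i) ((i : I) × B i) ℝ)
    (M : ((i : I) × B i) → ((i : I) × B i) → ℝ) (i : I) :
    (dblk (gram C M) i).PosSemidef := by
  rw [dblk_gram]
  have := posSemidef_self_mul_conjTranspose (colm (cw C i M))
  rwa [conjTranspose_eq_transpose_of_trivial] at this

theorem moment_fin (C : Matrix ((i : I) × B i) ((i : I) × B i) ℝ) (κ : ℝ) (hκ : -1 < κ)
    (ν : I → ℝ) (hν : ∀ i, 0 ≤ ν i) :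
    ∫⁻ M, ∏ i, ENNReal.ofReal ((dblk (gram C M) i).det ^ ν i)
      ∂(muk ((i : I) × B i) κ) < ∞ := by
  obtain ⟨c, hc0, hc⟩ := gram_bound (K := (i : I) × B i) C
  set s : ℝ := ∑ i, (Fintype.card (B i) : ℝ) * ν i with hs
  have hs0 : 0 ≤ s := Finset.sum_nonneg fun i _ => mul_nonneg (Nat.cast_nonneg _) (hν i)
  set δ : ℝ := 1 / (4 * (s + 1)) with hδ
  have hδ0 : 0 < δ := by positivity
  have hδs : δ * s ≤ 1 / 4 := by
    rw [hδ, div_mul_eq_mul_div, one_mul, div_le_iff₀ (by positivity)]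
    linarith
  set N : (((i : I) × B i) → ((i : I) × B i) → ℝ) → ℝ := fun M => ∑ k, M k ⬝ᵥ M k with hN
  have hN0 : ∀ M, 0 ≤ N M := fun M => Finset.sum_nonneg fun k _ => by
    have : M k ⬝ᵥ M k = ∑ x, M k x ^ 2 := by simp [dotProduct, sq]
    rw [this]; positivity
  set K : I → ℝ := fun i => (((Fintype.card (B i)).factorial : ℝ) *
    (c / δ) ^ (Fintype.card (B i))) ^ ν i with hK
  have hK0 : ∀ i, 0 ≤ K i := fun i => by positivity
  have hb : ∀ i M, (dblk (gram C M) i).det ^ ν i ≤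
      K i * Real.exp (δ * (Fintype.card (B i) * ν i) * N M) := by
    intro i M
    have hd0 : 0 ≤ (dblk (gram C M) i).det := (dblk_gram_psd C M i).det_nonneg
    have h1 : |(dblk (gram C M) i).det| ≤
        (Fintype.card (B i)).factorial • (c * N M) ^ (Fintype.card (B i)) :=
      Matrix.det_le (abv := AbsoluteValue.abs) (fun a b => hc M _ _)
    rw [abs_of_nonneg hd0, nsmul_eq_mul] at h1
    have h2 : c * N M ≤ (c / δ) * Real.exp (δ * N M) := by
      have h3 : δ * N M ≤ Real.exp (δ * N M) := by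
        have := Real.add_one_le_exp (δ * N M)
        linarith
      have h4 : c * N M = (c / δ) * (δ * N M) := by field_simp
      rw [h4]
      exact mul_le_mul_of_nonneg_left h3 (by positivity)
    have h5 : (c * N M) ^ (Fintype.card (B i)) ≤
        (c / δ) ^ (Fintype.card (B i)) * Real.exp (δ * Fintype.card (B i) * N M) := by
      have h6 := pow_le_pow_left₀ (mul_nonneg hc0 (hN0 M)) h2 (Fintype.card (B i))
      rw [mul_pow (c / δ), ← Real.exp_nat_mul] at h6
      refine h6.trans (le_of_eq ?_)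
      congr 2
      ring
    have h7 : (dblk (gram C M) i).det ≤ ((Fintype.card (B i)).factorial : ℝ) *
        (c / δ) ^ (Fintype.card (B i)) * Real.exp (δ * Fintype.card (B i) * N M) := by
      refine h1.trans ?_
      rw [mul_assoc]
      exact mul_le_mul_of_nonneg_left h5 (Nat.cast_nonneg _)
    have h8 := Real.rpow_le_rpow hd0 h7 (hν i)
    rw [Real.mul_rpow (by positivity) (Real.exp_pos _).le, ← Real.exp_mul] at h8
    refine h8.trans (le_of_eq ?_)
    rw [hK]
    congr 2
    ring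
  have hb2 : ∀ M : ((i : I) × B i) → ((i : I) × B i) → ℝ, ∏ i, ENNReal.ofReal ((dblk (gram C M) i).det ^ ν i) ≤
      ENNReal.ofReal (∏ i, K i) * ENNReal.ofReal (Real.exp (-(1 / 2) *
        ∑ k, M k ⬝ᵥ ((-(1 / 2) : ℝ) • (1 : Matrix ((i : I) × B i) ((i : I) × B i) ℝ)) *ᵥ
          M k)) := by
    intro M
    have h9 : ∏ i, ENNReal.ofReal ((dblk (gram C M) i).det ^ ν i) ≤
        ∏ i, ENNReal.ofReal (K i * Real.exp (δ * (Fintype.card (B i) * ν i) * N M)) :=
      Finset.prod_le_prod' fun i _ => ENNReal.ofReal_le_ofReal (hb i M)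
    refine h9.trans ?_
    rw [← ENNReal.ofReal_prod_of_nonneg (fun i _ => mul_nonneg (hK0 i) (Real.exp_pos _).le),
      ← ENNReal.ofReal_mul (Finset.prod_nonneg fun i _ => hK0 i), Finset.prod_mul_distrib,
      ← Real.exp_sum]
    refine ENNReal.ofReal_le_ofReal (mul_le_mul_of_nonneg_left ?_
      (Finset.prod_nonneg fun i _ => hK0 i))
    rw [Real.exp_le_exp, ← Finset.sum_mul, ← Finset.mul_sum, ← hs]
    have h10 : ∑ k, M k ⬝ᵥ ((-(1 / 2) : ℝ) •
        (1 : Matrix ((i : I) × B i) ((i : I) × B i) ℝ)) *ᵥ M k = -(1 / 2) * N M := by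
      rw [hN, Finset.mul_sum]
      refine Finset.sum_congr rfl fun k _ => ?_
      rw [Matrix.smul_mulVec, Matrix.one_mulVec, dotProduct_smul, smul_eq_mul]
    rw [h10]
    have := mul_le_mul_of_nonneg_right hδs (hN0 M)
    linarith
  have hS : (1 + (-(1 / 2) : ℝ) •
      (1 : Matrix ((i : I) × B i) ((i : I) × B i) ℝ)).PosDef := by
    have : (1 + (-(1 / 2) : ℝ) • (1 : Matrix ((i : I) × B i) ((i : I) × B i) ℝ)) =
        (1 / 2 : ℝ) • (1 : Matrix ((i : I) × B i) ((i : I) × B i) ℝ) := by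
      module
    rw [this]
    exact Matrix.PosDef.one.smul (by norm_num)
  refine lt_of_le_of_lt (lintegral_mono hb2) ?_
  have hqm : Measurable fun M : ((i : I) × B i) → ((i : I) × B i) → ℝ => ENNReal.ofReal
      (Real.exp (-(1 / 2) * ∑ k, M k ⬝ᵥ ((-(1 / 2) : ℝ) •
        (1 : Matrix ((i : I) × B i) ((i : I) × B i) ℝ)) *ᵥ M k)) := by
    have : Measurable fun M : ((i : I) × B i) → ((i : I) × B i) → ℝ => ∑ k, M k ⬝ᵥ
        ((-(1 / 2) : ℝ) • (1 : Matrix ((i : I) × B i) ((i : I) × B i) ℝ)) *ᵥ M k :=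
      Finset.measurable_fun_sum _ fun k _ => (measurable_quad _).comp (measurable_pi_apply k)
    exact ENNReal.measurable_ofReal.comp ((this.const_mul _).exp)
  rw [lintegral_const_mul _ hqm, lap_muk κ hκ _ hS]
  exact ENNReal.mul_lt_top ENNReal.ofReal_lt_top ENNReal.ofReal_lt_top

omit [DecidableEq I] in
theorem symm_gramc (C : Matrix ((i : I) × B i) ((i : I) × B i) ℝ)
    (M : ((i : I) × B i) → ((i : I) × B i) → ℝ) : symm (gramc C M) = gram C M := rfl

/-- **the product inequality for Wishart diagonal blocks** -/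
theorem wishart_prod [∀ i, Nonempty (B i)] (α : ℝ)
    (hα : (Fintype.card ((i : I) × B i) : ℝ) - 1 < α)
    (S : Matrix ((i : I) × B i) ((i : I) × B i) ℝ) (hS : S.PosDef) :
    IsProbabilityMeasure (wishart α S) ∧
    ∀ ν : I → ℝ, (∀ i, 0 ≤ ν i) →
      (∀ i, Integrable (fun x => (dblk (symm x) i).det ^ ν i) (wishart α S)) ∧
      Integrable (fun x => ∏ i, (dblk (symm x) i).det ^ ν i) (wishart α S) ∧
      ∏ i, ∫ x, (dblk (symm x) i).det ^ ν i ∂(wishart α S) ≤
        ∫ x, ∏ i, (dblk (symm x) i).det ^ ν i ∂(wishart α S) := by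
  obtain ⟨R, hR⟩ := exists_factor S hS.posSemidef
  set C := Rᵀ with hC
  have hCC : C * Cᵀ = S := by rw [hC, Matrix.transpose_transpose, hR]
  have hCu : IsUnit C.det := by
    rw [isUnit_iff_ne_zero]
    intro h0
    have := congrArg Matrix.det hCC
    rw [Matrix.det_mul, h0, zero_mul] at this
    exact hS.det_pos.ne this
  set κ : ℝ := α - Fintype.card ((i : I) × B i) with hκd
  have hκ : -1 < κ := by rw [hκd]; linarith
  have : Fact (-1 < κ) := ⟨hκ⟩
  have hW : wishart α S = (muk ((i : I) × B i) κ).map (gramc C) := by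
    rw [← hCC]
    exact Pool.Agent.TH384.WP.wishart_eq α hα C hCu
  have hgm : Measurable (gramc (K := (i : I) × B i) C) :=
    Pool.Agent.TH384.WP.measurable_gramc C
  rw [hW]
  refine ⟨Measure.isProbabilityMeasure_map hgm.aemeasurable, fun ν hν => ?_⟩
  have hdm : ∀ i, Measurable fun x : Sym2 ((i : I) × B i) → ℝ =>
      (dblk (symm x) i).det := fun i =>
    measurable_det (fun x : Sym2 ((i : I) × B i) → ℝ => dblk (symm x) i) (fun a b => by
      simp only [dblk, symm, Matrix.submatrix_apply, Matrix.of_apply]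
      fun_prop)
  have hpm : ∀ i, Measurable fun x : Sym2 ((i : I) × B i) → ℝ =>
      (dblk (symm x) i).det ^ ν i := fun i => (hdm i).pow_const _
  have hPm : Measurable fun x : Sym2 ((i : I) × B i) → ℝ =>
      ∏ i, (dblk (symm x) i).det ^ ν i := Finset.measurable_fun_prod _ fun i _ => hpm i
  have hnn : ∀ (M : ((i : I) × B i) → ((i : I) × B i) → ℝ) (i : I),
      0 ≤ (dblk (symm (gramc C M)) i).det := fun M i => by
    rw [symm_gramc]
    exact (dblk_gram_psd C M i).det_nonneg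
  have hlin : ∀ (μ : I → ℝ), (∀ i, 0 ≤ μ i) → ∀ T : Finset I,
      ∫⁻ x, ENNReal.ofReal (∏ i ∈ T, (dblk (symm x) i).det ^ μ i)
        ∂((muk ((i : I) × B i) κ).map (gramc C)) =
      ∫⁻ M, ∏ i ∈ T, ENNReal.ofReal ((dblk (gram C M) i).det ^ μ i)
        ∂(muk ((i : I) × B i) κ) := by
    intro μ hμ T
    have hm : Measurable fun x : Sym2 ((i : I) × B i) → ℝ => ENNReal.ofReal
        (∏ i ∈ T, (dblk (symm x) i).det ^ μ i) :=
      ENNReal.measurable_ofReal.comp
        (Finset.measurable_fun_prod _ fun i _ => (hdm i).pow_const _)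
    rw [lintegral_map hm hgm]
    refine lintegral_congr fun M => ?_
    rw [ENNReal.ofReal_prod_of_nonneg fun i _ => Real.rpow_nonneg (hnn M i) _]
    rfl
  have hfinall := moment_fin C κ hκ ν hν
  have hfin1 : ∀ i, ∫⁻ M, ENNReal.ofReal ((dblk (gram C M) i).det ^ ν i)
      ∂(muk ((i : I) × B i) κ) < ∞ := by
    intro i
    have h := moment_fin C κ hκ (Pi.single i (ν i)) (fun j => by
      by_cases hj : j = i
      · subst hj; simp [hν]
      · simp [hj])
    refine lt_of_le_of_lt (le_of_eq ?_) h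
    refine lintegral_congr fun M => ?_
    rw [Finset.prod_eq_single i]
    · simp
    · intro j _ hj
      simp [hj]
    · intro h; exact absurd (Finset.mem_univ i) h
  have hae : ∀ i, ∀ᵐ x ∂((muk ((i : I) × B i) κ).map (gramc C)),
      0 ≤ (dblk (symm x) i).det := by
    intro i
    rw [ae_map_iff hgm.aemeasurable (measurableSet_le measurable_const (hdm i))]
    exact Filter.Eventually.of_forall fun M => hnn M i
  have haep : ∀ i, 0 ≤ᵐ[(muk ((i : I) × B i) κ).map (gramc C)]
      fun x => (dblk (symm x) i).det ^ ν i := by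
    intro i
    filter_upwards [hae i] with x hx
    exact Real.rpow_nonneg hx _
  have haeP : 0 ≤ᵐ[(muk ((i : I) × B i) κ).map (gramc C)]
      fun x => ∏ i, (dblk (symm x) i).det ^ ν i := by
    filter_upwards [ae_all_iff.2 hae] with x hx
    exact Finset.prod_nonneg fun i _ => Real.rpow_nonneg (hx i) _
  have hl1 : ∀ i, ∫⁻ x, ENNReal.ofReal ((dblk (symm x) i).det ^ ν i)
      ∂((muk ((i : I) × B i) κ).map (gramc C)) =
      ∫⁻ M, ENNReal.ofReal ((dblk (gram C M) i).det ^ ν i) ∂(muk ((i : I) × B i) κ) := by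
    intro i
    have := hlin ν hν {i}
    simpa using this
  have hlP := hlin ν hν Finset.univ
  have hi1 : ∀ i, Integrable (fun x => (dblk (symm x) i).det ^ ν i)
      ((muk ((i : I) × B i) κ).map (gramc C)) := by
    intro i
    refine ⟨(hpm i).aestronglyMeasurable, ?_⟩
    rw [hasFiniteIntegral_iff_ofReal (haep i), hl1 i]
    exact hfin1 i
  have hiP : Integrable (fun x => ∏ i, (dblk (symm x) i).det ^ ν i)
      ((muk ((i : I) × B i) κ).map (gramc C)) := by
    refine ⟨hPm.aestronglyMeasurable, ?_⟩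
    rw [hasFiniteIntegral_iff_ofReal haeP, hlP]
    exact hfinall
  refine ⟨hi1, hiP, ?_⟩
  rw [integral_eq_lintegral_of_nonneg_ae haeP hPm.aestronglyMeasurable, hlP]
  have e1 : ∀ i, ∫ x, (dblk (symm x) i).det ^ ν i ∂((muk ((i : I) × B i) κ).map (gramc C)) =
      (∫⁻ M, ENNReal.ofReal ((dblk (gram C M) i).det ^ ν i)
        ∂(muk ((i : I) × B i) κ)).toReal := by
    intro i
    rw [integral_eq_lintegral_of_nonneg_ae (haep i) (hpm i).aestronglyMeasurable, hl1 i]
  simp_rw [e1]
  rw [← ENNReal.toReal_prod]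
  exact ENNReal.toReal_mono hfinall.ne (muk_prod C κ hκ ν hν)

end

end Pool.Agent.TH985.WP
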