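import Pool.Agent.TH985.WP.Defs2

/-!
# Gaussian vectors: characteristic functions, uniqueness, rotations, resampling
-/

set_option autoImplicit false
open MeasureTheory ProbabilityTheory Matrix
open scoped ENNReal

namespace Pool.Agent.TH985.WP

/-- the characteristic function of a standard Gaussian vector -/
theorem gm_charFun {κ : Type*} [Fintype κ] (a : κ → ℝ) :
    ∫ x, Complex.exp ((∑ k, a k * x k : ℝ) * Complex.I) ∂(gm κ) =
      Complex.exp (-(1 / 2 : ℝ) * (∑ k, a k ^ 2 : ℝ)) := by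
  have h1 : ∀ x : κ → ℝ, Complex.exp ((∑ k, a k * x k : ℝ) * Complex.I) =
      ∏ k, Complex.exp ((a k * x k : ℝ) * Complex.I) := by
    intro x
    rw [← Complex.exp_sum, Complex.ofReal_sum, Finset.sum_mul]
  simp_rw [h1]
  unfold gm
  rw [integral_fintype_prod_eq_prod (𝕜 := ℂ) (ι := κ) (E := fun _ => ℝ)
    (μ := fun _ : κ => gaussianReal 0 1)
    (fun k x => Complex.exp ((a k * x : ℝ) * Complex.I))]
  have h2 : ∀ k, ∫ x, Complex.exp ((a k * x : ℝ) * Complex.I) ∂(gaussianReal 0 1) =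
      Complex.exp (-(1 / 2 : ℝ) * (a k ^ 2 : ℝ)) := by
    intro k
    have h := charFun_gaussianReal (μ := 0) (v := 1) (a k)
    rw [charFun_apply_real] at h
    have e : ∀ x : ℝ, Complex.exp ((a k * x : ℝ) * Complex.I) =
        Complex.exp ((a k : ℂ) * (x : ℂ) * Complex.I) := by
      intro x; push_cast; ring_nf
    simp_rw [e]
    rw [h]
    congr 1
    push_cast
    ring
  simp_rw [h2]
  rw [← Complex.exp_sum]
  congr 1
  push_cast
  rw [Finset.mul_sum]

/-- finite measures on `κ → ℝ` are determined by their characteristic functions -/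
theorem uniq {κ : Type*} [Fintype κ] {μ ν : Measure (κ → ℝ)} [IsFiniteMeasure μ]
    [IsFiniteMeasure ν]
    (h : ∀ a : κ → ℝ, ∫ x, Complex.exp ((∑ k, a k * x k : ℝ) * Complex.I) ∂μ =
      ∫ x, Complex.exp ((∑ k, a k * x k : ℝ) * Complex.I) ∂ν) : μ = ν := by
  classical
  apply Measure.ext_of_charFunDual
  ext L
  rw [charFunDual_apply, charFunDual_apply]
  have e : ∀ x : κ → ℝ, L x = ∑ k, L (Pi.single k 1) * x k := by
    intro x
    have hx : x = ∑ k, x k • (Pi.single k (1 : ℝ) : κ → ℝ) := by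
      ext j
      simp [Finset.sum_apply, Pi.single_apply]
    conv_lhs => rw [hx]
    rw [map_sum]
    refine Finset.sum_congr rfl fun k _ => ?_
    rw [map_smul, smul_eq_mul, mul_comm]
  have e1 : ∀ x : κ → ℝ, Complex.exp ((L x : ℂ) * Complex.I) =
      Complex.exp ((∑ k, (fun k => L (Pi.single k 1)) k * x k : ℝ) * Complex.I) := by
    intro x
    rw [e x]
  rw [integral_congr_ae (Filter.Eventually.of_forall e1),
    integral_congr_ae (Filter.Eventually.of_forall e1)]
  exact h _

theorem cont_cexp {κ : Type*} [Fintype κ] (a : κ → ℝ) :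
    Continuous fun x : κ → ℝ => Complex.exp ((∑ k, a k * x k : ℝ) * Complex.I) := by
  fun_prop

/-- a rotation preserves the standard Gaussian measure -/
theorem gm_rot {n : Type*} [Fintype n] [DecidableEq n] (O : Matrix n n ℝ) (hO : O * Oᵀ = 1) :
    MeasurePreserving (fun x : n → ℝ => O *ᵥ x) (gm n) (gm n) := by
  have hc : Continuous (fun x : n → ℝ => O *ᵥ x) := by fun_prop
  refine ⟨hc.measurable, ?_⟩
  haveI : IsProbabilityMeasure ((gm n).map fun x : n → ℝ => O *ᵥ x) :=
    Measure.isProbabilityMeasure_map hc.aemeasurable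
  apply uniq
  intro a
  rw [integral_map hc.aemeasurable (cont_cexp a).aestronglyMeasurable]
  have e : ∀ x : n → ℝ, ∑ k, a k * (O *ᵥ x) k = ∑ k, (a ᵥ* O) k * x k := by
    intro x
    have := Matrix.dotProduct_mulVec a O x
    simpa [dotProduct] using this
  simp_rw [e]
  rw [gm_charFun, gm_charFun]
  congr 2
  norm_cast
  have h1 : ∑ k, (a ᵥ* O) k ^ 2 = (a ᵥ* O) ⬝ᵥ (a ᵥ* O) := by
    simp [dotProduct, sq]
  have h2 : ∑ k, a k ^ 2 = a ⬝ᵥ a := by simp [dotProduct, sq]
  rw [h1, h2]
  have h3 : (a ᵥ* O) ⬝ᵥ (a ᵥ* O) = a ⬝ᵥ (a ᵥ* (O * Oᵀ)) := by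
    rw [← Matrix.vecMul_vecMul, Matrix.vecMul_transpose, ← Matrix.dotProduct_mulVec]
  rw [h3, hO, Matrix.vecMul_one]

/-- a linear form of a standard Gaussian vector -/
theorem gm_lin {κ : Type*} [Fintype κ] (a : κ → ℝ) (F : ℝ → ℝ≥0∞) (hF : Measurable F) :
    ∫⁻ x, F (∑ k, a k * x k) ∂(gm κ) =
      ∫⁻ t, F (Real.sqrt (∑ k, a k ^ 2) * t) ∂(gaussianReal 0 1) := by
  have hm1 : Measurable (fun x : κ → ℝ => ∑ k, a k * x k) := by fun_prop
  have hm2 : Measurable (fun t : ℝ => Real.sqrt (∑ k, a k ^ 2) * t) := by fun_prop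
  rw [← lintegral_map hF hm1, ← lintegral_map hF hm2]
  congr 1
  haveI : IsProbabilityMeasure ((gm κ).map fun x : κ → ℝ => ∑ k, a k * x k) :=
    Measure.isProbabilityMeasure_map hm1.aemeasurable
  haveI : IsProbabilityMeasure ((gaussianReal 0 1).map
      fun t : ℝ => Real.sqrt (∑ k, a k ^ 2) * t) :=
    Measure.isProbabilityMeasure_map hm2.aemeasurable
  apply Measure.ext_of_charFun
  ext t
  rw [charFun_apply_real, charFun_apply_real, integral_map hm1.aemeasurable (by fun_prop),
    integral_map hm2.aemeasurable (by fun_prop)]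
  have e1 : ∀ x : κ → ℝ, Complex.exp ((t : ℂ) * ((∑ k, a k * x k : ℝ) : ℂ) * Complex.I) =
      Complex.exp ((∑ k, (t * a k) * x k : ℝ) * Complex.I) := by
    intro x
    congr 2
    rw [← Complex.ofReal_mul, Finset.mul_sum]
    congr 1
    exact Finset.sum_congr rfl fun k _ => by ring
  simp_rw [e1]
  rw [gm_charFun]
  have e2 : ∀ x : ℝ, Complex.exp ((t : ℂ) * ((Real.sqrt (∑ k, a k ^ 2) * x : ℝ) : ℂ) *
      Complex.I) = Complex.exp (((t * Real.sqrt (∑ k, a k ^ 2) : ℝ) : ℂ) * x * Complex.I) := by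
    intro x
    congr 1
    push_cast
    ring
  simp_rw [e2]
  rw [← charFun_apply_real, charFun_gaussianReal]
  congr 1
  have h3 : Real.sqrt (∑ k, a k ^ 2) ^ 2 = ∑ k, a k ^ 2 :=
    Real.sq_sqrt (Finset.sum_nonneg fun k _ => sq_nonneg _)
  have h4 : ∑ k, (t * a k) ^ 2 = t ^ 2 * ∑ k, a k ^ 2 := by
    rw [Finset.mul_sum]
    exact Finset.sum_congr rfl fun k _ => by ring
  rw [h4, ← h3]
  push_cast
  simp
  ring

/-- resampling some coordinates of a product measure -/
theorem pi_mix {ι : Type*} [Fintype ι] {Ω : ι → Type*} [∀ i, MeasurableSpace (Ω i)]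
    (P : ∀ i, Measure (Ω i)) [∀ i, IsProbabilityMeasure (P i)] (p : ι → Prop)
    [DecidablePred p] :
    MeasurePreserving (fun z : (∀ i, Ω i) × (∀ i, Ω i) => fun i => if p i then z.2 i else z.1 i)
      ((Measure.pi P).prod (Measure.pi P)) (Measure.pi P) := by
  have hm : Measurable (fun z : (∀ i, Ω i) × (∀ i, Ω i) =>
      fun i => if p i then z.2 i else z.1 i) := by
    refine measurable_pi_lambda _ fun i => ?_
    by_cases h : p i
    · simp only [h, if_true]
      exact (measurable_pi_apply i).comp measurable_snd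
    · simp only [h, if_false]
      exact (measurable_pi_apply i).comp measurable_fst
  refine ⟨hm, ?_⟩
  symm
  refine Measure.pi_eq fun s hs => ?_
  rw [Measure.map_apply hm (MeasurableSet.univ_pi hs)]
  have hpre : (fun z : (∀ i, Ω i) × (∀ i, Ω i) => fun i => if p i then z.2 i else z.1 i) ⁻¹'
      (Set.univ.pi s) = (Set.univ.pi fun i => if p i then Set.univ else s i) ×ˢ
        (Set.univ.pi fun i => if p i then s i else Set.univ) := by
    ext z
    simp only [Set.mem_preimage, Set.mem_pi, Set.mem_univ, true_implies, Set.mem_prod]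
    constructor
    · intro h
      refine ⟨fun i => ?_, fun i => ?_⟩
      · have := h i
        by_cases hp : p i
        · simp [hp]
        · simpa [hp] using this
      · have := h i
        by_cases hp : p i
        · simpa [hp] using this
        · simp [hp]
    · rintro ⟨h1, h2⟩ i
      by_cases hp : p i
      · simpa [hp] using h2 i
      · simpa [hp] using h1 i
  rw [hpre, Measure.prod_prod, Measure.pi_pi, Measure.pi_pi, ← Finset.prod_mul_distrib]
  refine Finset.prod_congr rfl fun i _ => ?_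
  by_cases hp : p i <;> simp [hp]

/-- replacing one column by an independent copy -/
theorem gmat_update {K n : Type*} [Fintype K] [DecidableEq K] [Fintype n] (k : K) :
    MeasurePreserving (fun z : (K → n → ℝ) × (K → n → ℝ) => Function.update z.2 k (z.1 k))
      ((gmat K n).prod (gmat K n)) (gmat K n) := by
  have h := pi_mix (fun _ : K => gm n) (fun j => j ≠ k)
  have e : (fun z : (K → n → ℝ) × (K → n → ℝ) => fun j => if j ≠ k then z.2 j else z.1 j) =
      fun z => Function.update z.2 k (z.1 k) := by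
    funext z j
    by_cases hj : j = k
    · subst hj; simp
    · simp [hj]
  rw [e] at h
  exact h

/-- resampling the coordinate `a₀` of all columns -/
theorem gmat_mix {K n : Type*} [Fintype K] [Fintype n] [DecidableEq n] (a₀ : n) :
    MeasurePreserving (fun z : (K → n → ℝ) × (K → n → ℝ) =>
      fun j a => if a = a₀ then z.2 j a else z.1 j a)
      ((gmat K n).prod (gmat K n)) (gmat K n) := by
  have h1 := pi_mix (fun _ : n => gaussianReal 0 1) (fun a => a = a₀)
  have h2 := measurePreserving_pi (fun _ : K => (gm n).prod (gm n)) (fun _ : K => gm n)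
    (fun _ => h1)
  have h3 := measurePreserving_arrowProdEquivProdArrow (n → ℝ) (n → ℝ) K
    (fun _ => gm n) (fun _ => gm n)
  have h4 := h2.comp h3.symm
  exact h4

/-- rotating all columns -/
theorem gmat_rot {K n : Type*} [Fintype K] [Fintype n] [DecidableEq n] (O : Matrix n n ℝ)
    (hO : O * Oᵀ = 1) :
    MeasurePreserving (fun (z : K → n → ℝ) j => O *ᵥ z j) (gmat K n) (gmat K n) :=
  measurePreserving_pi (fun _ : K => gm n) (fun _ : K => gm n) (fun _ => gm_rot O hO)

/-- a rotation which maps `μ` to `|μ| e_{a₀}` -/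
theorem exists_rot {n : Type*} [Fintype n] [DecidableEq n] (a₀ : n) (μ : n → ℝ) :
    ∃ O : Matrix n n ℝ, O * Oᵀ = 1 ∧ Oᵀ * O = 1 ∧
      O *ᵥ μ = Real.sqrt (∑ a, μ a ^ 2) • (Pi.single a₀ (1 : ℝ) : n → ℝ) := by
  set ρ := Real.sqrt (∑ a, μ a ^ 2) with hρ
  have hρ2 : ρ ^ 2 = ∑ a, μ a ^ 2 := Real.sq_sqrt (Finset.sum_nonneg fun k _ => sq_nonneg _)
  set e : n → ℝ := Pi.single a₀ (1 : ℝ) with he
  set v : n → ℝ := μ - ρ • e with hv
  have hμμ : μ ⬝ᵥ μ = ρ ^ 2 := by rw [hρ2]; simp [dotProduct, sq]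
  have hee : e ⬝ᵥ e = 1 := by simp [he]
  have hμe : μ ⬝ᵥ e = μ a₀ := by simp [he]
  have heμ : e ⬝ᵥ μ = μ a₀ := by simp [he]
  have hvv : v ⬝ᵥ v = 2 * (ρ ^ 2 - ρ * μ a₀) := by
    rw [hv]
    simp only [sub_dotProduct, dotProduct_sub, smul_dotProduct, dotProduct_smul, hμμ, hee, hμe,
      heμ, smul_eq_mul]
    ring
  have hvμ : v ⬝ᵥ μ = ρ ^ 2 - ρ * μ a₀ := by
    rw [hv]
    simp only [sub_dotProduct, smul_dotProduct, hμμ, heμ, smul_eq_mul]
  by_cases h0 : v ⬝ᵥ v = 0
  · have hv0 : v = 0 := by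
      exact dotProduct_self_eq_zero.1 h0
    refine ⟨1, by simp, by simp, ?_⟩
    rw [one_mulVec]
    have : μ - ρ • e = 0 := by rw [← hv]; exact hv0
    exact sub_eq_zero.1 this
  · set O : Matrix n n ℝ := 1 - (2 / (v ⬝ᵥ v)) • vecMulVec v v with hO
    have hT : Oᵀ = O := by
      rw [hO]
      simp [transpose_vecMulVec]
    have hsq : vecMulVec v v * vecMulVec v v = (v ⬝ᵥ v) • vecMulVec v v := by
      rw [vecMulVec_mul_vecMulVec]
      ext i j
      simp [vecMulVec_apply]
      ring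
    have hOO : O * O = 1 := by
      rw [hO]
      simp only [sub_mul, mul_sub, one_mul, mul_one, smul_mul_assoc, mul_smul_comm, hsq, smul_smul]
      have : (2 / (v ⬝ᵥ v)) * (v ⬝ᵥ v) = 2 := div_mul_cancel₀ _ h0
      rw [this]
      module
    refine ⟨O, by rw [hT]; exact hOO, by rw [hT]; exact hOO, ?_⟩
    have h1 : O *ᵥ μ = μ - ((2 / (v ⬝ᵥ v)) * (v ⬝ᵥ μ)) • v := by
      rw [hO, sub_mulVec, one_mulVec, smul_mulVec, vecMulVec_mulVec]
      ext i
      simp
      ring
    rw [h1, hvμ]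
    have h2 : 2 / (v ⬝ᵥ v) * (ρ ^ 2 - ρ * μ a₀) = 1 := by
      rw [hvv] at h0 ⊢
      rw [div_mul_eq_mul_div]
      exact div_self h0
    rw [h2, one_smul, hv]
    abel

end Pool.Agent.TH985.WP
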