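import Pool.Agent.TH985.WP.LawB

/-!
# Powers of determinants of Gaussian matrices, separately good functions
-/

set_option autoImplicit false
open MeasureTheory ProbabilityTheory Matrix
open scoped ENNReal

namespace Pool.Agent.TH985.WP

/-- `E |det (∑ w_j ν_jᵀ + Y)|^q` -/
noncomputable def Gf {J B : Type*} [Fintype J] [Fintype B] [DecidableEq B] (q : ℝ)
    (w : J → B → ℝ) (Y : Matrix B B ℝ) : ℝ≥0∞ :=
  ∫⁻ ν, ENNReal.ofReal (|(ymat w ν + Y).det| ^ q) ∂(gmat J B)

theorem measurable_pdet {X J B : Type*} [MeasurableSpace X] [Fintype J] [Fintype B]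
    [DecidableEq B] (q : ℝ) (w : X → J → B → ℝ) (hw : ∀ j b, Measurable fun x => w x j b)
    (ν : X → J → B → ℝ) (hν : ∀ j b, Measurable fun x => ν x j b)
    (Y : X → Matrix B B ℝ) (hY : ∀ a b, Measurable fun x => Y x a b) :
    Measurable fun x => ENNReal.ofReal (|(ymat (w x) (ν x) + Y x).det| ^ q) := by
  have h : Measurable fun x => (ymat (w x) (ν x) + Y x).det := by
    refine measurable_det _ fun i j => ?_
    simp only [Matrix.add_apply]
    exact (measurable_ymat w hw ν hν i j).add (hY i j)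
  exact ENNReal.measurable_ofReal.comp (h.abs.pow_const q)

theorem measurable_Gf {X J B : Type*} [MeasurableSpace X] [Fintype J] [Fintype B]
    [DecidableEq B] (q : ℝ) (w : X → J → B → ℝ) (hw : ∀ j b, Measurable fun x => w x j b)
    (Y : X → Matrix B B ℝ) (hY : ∀ a b, Measurable fun x => Y x a b) :
    Measurable fun x => Gf q (w x) (Y x) := by
  have h : Measurable fun p : X × (J → B → ℝ) =>
      ENNReal.ofReal (|(ymat (w p.1) p.2 + Y p.1).det| ^ q) := by
    refine measurable_pdet q (fun p : X × (J → B → ℝ) => w p.1)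
      (fun j b => (hw j b).comp measurable_fst) (fun p => p.2) (fun j b => ?_)
      (fun p => Y p.1) (fun a b => (hY a b).comp measurable_fst)
    exact (measurable_pi_apply b).comp ((measurable_pi_apply j).comp measurable_snd)
  exact h.lintegral_prod_right'

/-- the Gaussian matrix over a sum type -/
theorem gmat_sum {J₁ J₂ B : Type*} [Fintype J₁] [Fintype J₂] [Fintype B]
    (F : (J₁ ⊕ J₂ → B → ℝ) → ℝ≥0∞) (hF : Measurable F) :
    ∫⁻ ν, F ν ∂(gmat (J₁ ⊕ J₂) B) =
      ∫⁻ ν₂, ∫⁻ ν₁, F (Sum.elim ν₁ ν₂) ∂(gmat J₁ B) ∂(gmat J₂ B) := by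
  have hmp : MeasurePreserving
      (MeasurableEquiv.sumPiEquivProdPi fun _ : J₁ ⊕ J₂ => (B → ℝ)).symm
      ((gmat J₁ B).prod (gmat J₂ B)) (gmat (J₁ ⊕ J₂) B) :=
    measurePreserving_sumPiEquivProdPi_symm fun _ : J₁ ⊕ J₂ => gm B
  have h1 : ∀ p : (J₁ → B → ℝ) × (J₂ → B → ℝ),
      (MeasurableEquiv.sumPiEquivProdPi fun _ : J₁ ⊕ J₂ => (B → ℝ)).symm p =
        Sum.elim p.1 p.2 := by
    intro p
    funext j
    rcases j with j | j <;> rfl
  rw [← hmp.lintegral_comp hF]
  have hFm : Measurable fun p : (J₁ → B → ℝ) × (J₂ → B → ℝ) =>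
      F ((MeasurableEquiv.sumPiEquivProdPi fun _ : J₁ ⊕ J₂ => (B → ℝ)).symm p) :=
    hF.comp hmp.measurable
  rw [lintegral_prod_symm _ hFm.aemeasurable]
  simp_rw [h1]

theorem ymat_sum {J₁ J₂ B A : Type*} [Fintype J₁] [Fintype J₂] (w₁ : J₁ → B → ℝ)
    (w₂ : J₂ → B → ℝ) (ν₁ : J₁ → A → ℝ) (ν₂ : J₂ → A → ℝ) :
    ymat (Sum.elim w₁ w₂) (Sum.elim ν₁ ν₂) = ymat w₁ ν₁ + ymat w₂ ν₂ := by
  ext b a
  simp [ymat]

theorem Gf_sum {J₁ J₂ B : Type*} [Fintype J₁] [Fintype J₂] [Fintype B] [DecidableEq B] (q : ℝ)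
    (w₁ : J₁ → B → ℝ) (w₂ : J₂ → B → ℝ) (Y : Matrix B B ℝ) :
    ∫⁻ ν₂, Gf q w₁ (ymat w₂ ν₂ + Y) ∂(gmat J₂ B) = Gf q (Sum.elim w₁ w₂) Y := by
  unfold Gf
  rw [gmat_sum]
  · simp_rw [ymat_sum, add_assoc]
  · exact measurable_pdet q (fun _ => Sum.elim w₁ w₂) (fun _ _ => measurable_const)
      (fun ν => ν) (fun j b => by fun_prop) (fun _ => Y) (fun _ _ => measurable_const)

/-- the first type of separately good functions -/
theorem sepGood_free {K n τ n' Ω B : Type} [Fintype K] [DecidableEq K] [Fintype n] [Fintype τ]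
    [DecidableEq τ] [Fintype n'] [DecidableEq n'] [Fintype B] [DecidableEq B] [Nonempty B]
    [MeasurableSpace Ω]
    (μ : Measure Ω) [IsProbabilityMeasure μ] (A : τ → B → ℝ) (C : Matrix B n ℝ)
    (W' : Ω → n' → B → ℝ) (hW' : Measurable W') (q : ℝ) (hq : 0 ≤ q) :
    SepGood (fun Z : K → n → ℝ => ∫⁻ m, Gf q
      (Sum.elim (Sum.elim A (fun k => C *ᵥ Z k)) (W' m)) 0 ∂μ) := by
  intro k
  obtain ⟨a₀⟩ := ‹Nonempty B›
  set W : (K → n → ℝ) × Ω → ((τ ⊕ K) ⊕ n') → B → ℝ := fun y =>
    Sum.elim (Sum.elim A (fun k => C *ᵥ y.1 k)) (W' y.2) with hW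
  have hWm : Measurable W := by
    refine measurable_pi_lambda _ fun j => ?_
    rcases j with (j | j) | j
    · exact measurable_const
    · have h0 : Continuous (fun x : n → ℝ => C *ᵥ x) := by fun_prop
      exact h0.measurable.comp ((measurable_pi_apply j).comp measurable_fst)
    · exact (measurable_pi_apply j).comp (hW'.comp measurable_snd)
  have h1 := rot_goodP W hWm C (fun _ => 1) measurable_const (Sum.inl (Sum.inr k)) a₀
    (fun _ _ _ => rfl) (fun _ _ _ => rfl) q hq
  have h2 := h1.integrateP μ (X' := K → n → ℝ) (fun p => p) measurable_id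
  have h3 : (fun (x : K → n → ℝ) (z : n → ℝ) => ∫⁻ m, Gf q
      (Sum.elim (Sum.elim A (fun k' => C *ᵥ (Function.update x k z) k')) (W' m)) 0 ∂μ) =
      (fun (x' : K → n → ℝ) (z : n → ℝ) => ∫⁻ y, ∫⁻ ν, 1 *
        ENNReal.ofReal (|(ymat (Function.update (W (x', y)) (Sum.inl (Sum.inr k)) (C *ᵥ z))
          ν).det| ^ q) ∂(gmat ((τ ⊕ K) ⊕ n') B) ∂μ) := by
    funext x z
    refine lintegral_congr fun m => ?_
    unfold Gf
    refine lintegral_congr fun ν => ?_
    rw [one_mul, add_zero]
    have h4 : Function.update (W (x, m)) (Sum.inl (Sum.inr k)) (C *ᵥ z) =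
        Sum.elim (Sum.elim A (fun k' => C *ᵥ (Function.update x k z) k')) (W' m) := by
      funext j
      rcases j with (j | j) | j
      · simp [hW]
      · by_cases hj : j = k
        · subst hj; simp
        · have : (Sum.inl (Sum.inr j) : (τ ⊕ K) ⊕ n') ≠ Sum.inl (Sum.inr k) := by
            simpa using hj
          rw [Function.update_of_ne this]
          simp [hW, hj]
      · simp [hW]
    rw [h4]
  show GoodP (fun (x : K → n → ℝ) (z : n → ℝ) => ∫⁻ m, Gf q
      (Sum.elim (Sum.elim A (fun k' => C *ᵥ (Function.update x k z) k')) (W' m)) 0 ∂μ)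
  rw [h3]
  exact h2

theorem det_mix {B : Type*} [Fintype B] [DecidableEq B] (a₀ k : B) (M y : B → B → ℝ) (ρ : ℝ) :
    (Matrix.of (Function.update (mix a₀ M y) k (ρ • (Pi.single a₀ (1 : ℝ) : B → ℝ)))).det =
      (Matrix.of (Function.update M k (ρ • (Pi.single a₀ (1 : ℝ) : B → ℝ)))).det := by
  by_cases hρ : ρ = 0
  · rw [Matrix.det_eq_zero_of_row_eq_zero k, Matrix.det_eq_zero_of_row_eq_zero k]
    · intro j
      simp [hρ]
    · intro j
      simp [hρ]
  · refine Matrix.det_eq_of_forall_row_eq_smul_add_const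
      (fun j => if j = k then 0 else (y j a₀ - M j a₀) / ρ) k (by simp) ?_
    intro i j
    by_cases hi : i = k
    · subst hi
      simp
    · by_cases hj : j = a₀
      · subst hj
        simp [hi, mix]
        field_simp
        ring
      · simp [hi, mix, hj]

/-- the second type of separately good functions -/
theorem sepGood_own {n τ B : Type} [Fintype n] [Fintype τ]
    [DecidableEq τ] [Fintype B] [DecidableEq B] [Nonempty B] (κ : ℝ)
    (A : τ → B → ℝ) (C : Matrix B n ℝ) (q : ℝ) (hq : 0 ≤ q) :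
    SepGood (fun Z : B → n → ℝ => ∫⁻ M, Gf q A (ymat (fun k => C *ᵥ Z k) M)
      ∂(muk B κ)) := by
  intro k
  obtain ⟨a₀⟩ := ‹Nonempty B›
  set W : (B → n → ℝ) → (τ ⊕ B) → B → ℝ := fun x =>
    Sum.elim A (fun k => C *ᵥ x k) with hW
  have hWm : Measurable W := by
    refine measurable_pi_lambda _ fun j => ?_
    rcases j with j | j
    · exact measurable_const
    · have h0 : Continuous (fun x : n → ℝ => C *ᵥ x) := by fun_prop
      exact h0.measurable.comp (measurable_pi_apply j)
  set ω : ((τ ⊕ B) → B → ℝ) → ℝ≥0∞ := fun ν =>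
    (Zc B κ)⁻¹ * detw κ (fun k => ν (Sum.inr k)) with hω
  have hωm : Measurable ω := by
    refine Measurable.const_mul ((detw_meas κ).comp ?_) _
    exact measurable_pi_lambda _ fun k => measurable_pi_apply _
  have h1 := rot_goodP W hWm C ω hωm (Sum.inr k) a₀ ?_ ?_ q hq
  · have h3 : (fun (x : B → n → ℝ) (z : n → ℝ) => ∫⁻ M, Gf q A
        (ymat (fun k' => C *ᵥ (Function.update x k z) k') M) ∂(muk B κ)) =
        (fun (x' : B → n → ℝ) (z : n → ℝ) => ∫⁻ ν, ω ν *
          ENNReal.ofReal (|(ymat (Function.update (W x') (Sum.inr k) (C *ᵥ z))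
            ν).det| ^ q) ∂(gmat (τ ⊕ B) B)) := by
      funext x z
      have h4 : Function.update (W x) (Sum.inr k) (C *ᵥ z) =
          Sum.elim A (fun k' => C *ᵥ (Function.update x k z) k') := by
        funext j
        rcases j with j | j
        · simp [hW]
        · by_cases hj : j = k
          · subst hj; simp
          · have : (Sum.inr j : τ ⊕ B) ≠ Sum.inr k := by
              simpa using hj
            rw [Function.update_of_ne this]
            simp [hW, hj]
      rw [h4]
      set w₂ : B → B → ℝ := fun k' => C *ᵥ (Function.update x k z) k' with hw₂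
      have hpm : ∀ {J : Type} [Fintype J] (w : J → B → ℝ), Measurable fun ν : J → B → ℝ =>
          ENNReal.ofReal (|(ymat w ν).det| ^ q) := by
        intro J _ w
        have := measurable_pdet (X := J → B → ℝ) q (fun _ => w) (fun _ _ => measurable_const)
          (fun ν => ν) (fun j b => by fun_prop) (fun _ => 0) (fun _ _ => measurable_const)
        simpa using this
      have hmm : Measurable fun ν : (τ ⊕ B) → B → ℝ =>
          ω ν * ENNReal.ofReal (|(ymat (Sum.elim A w₂) ν).det| ^ q) := hωm.mul (hpm _)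
      rw [gmat_sum _ hmm, lintegral_muk]
      · rw [← lintegral_const_mul]
        · refine lintegral_congr fun M => ?_
          simp only [hω, Sum.elim_inr, ymat_sum]
          rw [lintegral_const_mul, mul_assoc]
          · rfl
          · have := measurable_pdet (X := τ → B → ℝ) q (fun _ => A)
              (fun _ _ => measurable_const) (fun ν => ν) (fun j b => by fun_prop)
              (fun _ => ymat w₂ M) (fun _ _ => measurable_const)
            exact this
        · refine (detw_meas κ).mul ?_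
          exact measurable_Gf q (fun _ => A) (fun _ _ => measurable_const) _
            (fun a b => measurable_ymat (fun _ => w₂) (fun _ _ => measurable_const)
              (fun ν => ν) (fun j b => by fun_prop) a b)
      · exact measurable_Gf q (fun _ => A) (fun _ _ => measurable_const) _
          (fun a b => measurable_ymat (fun _ => w₂) (fun _ _ => measurable_const)
            (fun ν => ν) (fun j b => by fun_prop) a b)
    show GoodP (fun (x : B → n → ℝ) (z : n → ℝ) => ∫⁻ M, Gf q A
        (ymat (fun k' => C *ᵥ (Function.update x k z) k') M) ∂(muk B κ))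
    rw [h3]
    exact h1
  · intro O hO ν
    simp only [hω]
    congr 1
    rw [detw_mulVec κ O (fun k => ν (Sum.inr k))]
    have h5 : |O.det| = 1 := by
      have h6 : O.det * O.det = 1 := by
        have := congrArg Matrix.det hO
        rwa [Matrix.det_mul, Matrix.det_transpose, Matrix.det_one] at this
      have : |O.det| * |O.det| = 1 := by rw [← abs_mul, h6, abs_one]
      nlinarith [abs_nonneg O.det]
    rw [h5, Real.one_rpow, ENNReal.ofReal_one, one_mul]
  · intro ν y ρ
    simp only [hω]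
    congr 1
    have h7 : ∀ ν : (τ ⊕ B) → B → ℝ, ∀ v : B → ℝ,
        (fun k' => Function.update ν (Sum.inr k) v (Sum.inr k')) =
        Function.update (fun k' => ν (Sum.inr k')) k v := by
      intro ν v
      funext k'
      by_cases hk : k' = k
      · subst hk; simp
      · have : (Sum.inr k' : τ ⊕ B) ≠ Sum.inr k := by simpa using hk
        rw [Function.update_of_ne this, Function.update_of_ne hk]
    rw [h7, h7]
    unfold detw
    have h8 : (fun k' => mix a₀ ν y (Sum.inr k')) =
        mix a₀ (fun k' => ν (Sum.inr k')) (fun k' => y (Sum.inr k')) := rfl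
    rw [h8, det_mix]

end Pool.Agent.TH985.WP
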