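import Pool.Agent.TH985.WP.Gpi

/-!
# The class of functions for which the product inequality holds
-/

set_option autoImplicit false
open MeasureTheory ProbabilityTheory
open scoped ENNReal

namespace Pool.Agent.TH985.WP

/-- the integral of a product of functions of different coordinates -/
theorem lintegral_pi_prod {ι : Type*} [Fintype ι] {Ω : ι → Type*} [∀ i, MeasurableSpace (Ω i)]
    (P : ∀ i, Measure (Ω i)) [∀ i, IsProbabilityMeasure (P i)] (f : ∀ i, Ω i → ℝ≥0∞)
    (hf : ∀ i, Measurable (f i)) :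
    ∫⁻ ω, ∏ i, f i (ω i) ∂(Measure.pi P) = ∏ i, ∫⁻ x, f i x ∂(P i) := by
  have h := iIndepFun_pi (μ := P) (X := f) (fun i => (hf i).aemeasurable)
  rw [lintegral_prod_eq_prod_lintegral_of_indepFun Finset.univ _ h
    (fun i => (hf i).comp (measurable_pi_apply i))]
  refine Finset.prod_congr rfl fun i _ => ?_
  exact (measurePreserving_eval P i).lintegral_comp (hf i)

/-- `E |σ ξ + ⟨u, z⟩|^q`, `ξ` standard Gaussian -/
noncomputable def core {κ : Type*} [Fintype κ] (q σ : ℝ) (u z : κ → ℝ) : ℝ≥0∞ :=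
  ∫⁻ t, ENNReal.ofReal (|σ * t + ∑ k, u k * z k| ^ q) ∂(gaussianReal 0 1)

theorem core_meas {κ Y : Type*} [Fintype κ] [MeasurableSpace Y] {q σ : Y → ℝ}
    {u z : Y → κ → ℝ} (hq : Measurable q) (hσ : Measurable σ) (hu : Measurable u)
    (hz : Measurable z) : Measurable (fun y => core (q y) (σ y) (u y) (z y)) := by
  unfold core
  have h : Measurable (fun p : Y × ℝ => ENNReal.ofReal
      (|σ p.1 * p.2 + ∑ k, u p.1 k * z p.1 k| ^ (q p.1))) := by
    have hu' : ∀ k, Measurable (fun p : Y × ℝ => u p.1 k) := fun k =>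
      (measurable_pi_iff.1 hu k).comp measurable_fst
    have hz' : ∀ k, Measurable (fun p : Y × ℝ => z p.1 k) := fun k =>
      (measurable_pi_iff.1 hz k).comp measurable_fst
    have hσ' : Measurable (fun p : Y × ℝ => σ p.1) := hσ.comp measurable_fst
    have hq' : Measurable (fun p : Y × ℝ => q p.1) := hq.comp measurable_fst
    have hs : Measurable (fun p : Y × ℝ => ∑ k, u p.1 k * z p.1 k) :=
      Finset.measurable_sum _ fun k _ => (hu' k).mul (hz' k)
    have h1 : Measurable (fun p : Y × ℝ => |σ p.1 * p.2 + ∑ k, u p.1 k * z p.1 k|) :=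
      ((hσ'.mul measurable_snd).add hs).abs
    exact ENNReal.measurable_ofReal.comp (h1.pow hq')
  exact h.lintegral_prod_right'

/-- the product inequality for the functions `core` -/
theorem core_prod {κ ι : Type*} [Fintype κ] [Fintype ι] (q σ : ι → ℝ) (u : ι → κ → ℝ)
    (hq : ∀ i, 0 ≤ q i) :
    ∏ i, ∫⁻ z, core (q i) (σ i) (u i) z ∂(gm κ) ≤
      ∫⁻ z, ∏ i, core (q i) (σ i) (u i) z ∂(gm κ) := by
  classical
  -- the joint vector
  let c : ι → κ ⊕ ι → ℝ := fun i => Sum.elim (u i) (fun j => if j = i then σ i else 0)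
  have hmp : MeasurePreserving (MeasurableEquiv.sumPiEquivProdPi fun _ : κ ⊕ ι => ℝ).symm
      ((gm κ).prod (gm ι)) (gm (κ ⊕ ι)) :=
    measurePreserving_sumPiEquivProdPi_symm fun _ : κ ⊕ ι => gaussianReal 0 1
  have hsum : ∀ i (z : κ → ℝ) (t : ι → ℝ),
      ∑ k, c i k * (MeasurableEquiv.sumPiEquivProdPi fun _ : κ ⊕ ι => ℝ).symm (z, t) k =
        σ i * t i + ∑ k, u i k * z k := by
    intro i z t
    rw [Fintype.sum_sum_type]
    have h1 : ∀ k : κ, (MeasurableEquiv.sumPiEquivProdPi fun _ : κ ⊕ ι => ℝ).symm (z, t)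
        (Sum.inl k) = z k := fun k => rfl
    have h2 : ∀ k : ι, (MeasurableEquiv.sumPiEquivProdPi fun _ : κ ⊕ ι => ℝ).symm (z, t)
        (Sum.inr k) = t k := fun k => rfl
    simp only [h1, h2, c, Sum.elim_inl, Sum.elim_inr, ite_mul, zero_mul]
    rw [Finset.sum_ite_eq' Finset.univ i, if_pos (Finset.mem_univ i), add_comm]
  have hm : ∀ i, Measurable (fun x : κ ⊕ ι → ℝ => ENNReal.ofReal (|∑ k, c i k * x k| ^ (q i))) := by
    intro i
    fun_prop
  have hm2 : ∀ i, Measurable (fun p : (κ → ℝ) × (ι → ℝ) =>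
      ENNReal.ofReal (|σ i * p.2 i + ∑ k, u i k * p.1 k| ^ (q i))) := by
    intro i
    fun_prop
  have key := gpi_lin c q hq
  have e1 : ∀ i, ∫⁻ x, ENNReal.ofReal (|∑ k, c i k * x k| ^ (q i)) ∂(gm (κ ⊕ ι)) =
      ∫⁻ z, core (q i) (σ i) (u i) z ∂(gm κ) := by
    intro i
    rw [← hmp.lintegral_comp (hm i)]
    have : ∀ p : (κ → ℝ) × (ι → ℝ), ENNReal.ofReal (|∑ k, c i k *
        (MeasurableEquiv.sumPiEquivProdPi fun _ : κ ⊕ ι => ℝ).symm p k| ^ (q i)) =
        ENNReal.ofReal (|σ i * p.2 i + ∑ k, u i k * p.1 k| ^ (q i)) := by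
      intro p
      rw [← hsum i p.1 p.2]
    simp_rw [this]
    rw [lintegral_prod _ (hm2 i).aemeasurable]
    refine lintegral_congr fun z => ?_
    have h3 : Measurable (fun t : ℝ => ENNReal.ofReal (|σ i * t + ∑ k, u i k * z k| ^ (q i))) := by
      fun_prop
    exact (measurePreserving_eval (fun _ : ι => gaussianReal 0 1) i).lintegral_comp h3
  have e2 : ∫⁻ x, ∏ i, ENNReal.ofReal (|∑ k, c i k * x k| ^ (q i)) ∂(gm (κ ⊕ ι)) =
      ∫⁻ z, ∏ i, core (q i) (σ i) (u i) z ∂(gm κ) := by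
    rw [← hmp.lintegral_comp (Finset.measurable_fun_prod _ fun i _ => hm i)]
    have : ∀ p : (κ → ℝ) × (ι → ℝ), ∏ i, ENNReal.ofReal (|∑ k, c i k *
        (MeasurableEquiv.sumPiEquivProdPi fun _ : κ ⊕ ι => ℝ).symm p k| ^ (q i)) =
        ∏ i, ENNReal.ofReal (|σ i * p.2 i + ∑ k, u i k * p.1 k| ^ (q i)) := by
      intro p
      exact Finset.prod_congr rfl fun i _ => by rw [← hsum i p.1 p.2]
    simp_rw [this]
    rw [lintegral_prod _ (Finset.measurable_fun_prod _ fun i _ => hm2 i).aemeasurable]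
    refine lintegral_congr fun z => ?_
    exact lintegral_pi_prod (fun _ : ι => gaussianReal 0 1)
      (fun i t => ENNReal.ofReal (|σ i * t + ∑ k, u i k * z k| ^ (q i))) (fun i => by fun_prop)
  rw [← e2]
  simp_rw [← e1]
  exact key

/-- mixtures of the functions `core` -/
def Good {κ : Type} [Fintype κ] (φ : (κ → ℝ) → ℝ≥0∞) : Prop :=
  ∃ (Ω : Type) (_ : MeasurableSpace Ω) (P : Measure Ω) (_ : IsProbabilityMeasure P)
    (w : Ω → ℝ≥0∞) (q : Ω → ℝ) (σ : Ω → ℝ) (u : Ω → κ → ℝ),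
    Measurable w ∧ Measurable q ∧ Measurable σ ∧ Measurable u ∧ (∀ ω, 0 ≤ q ω) ∧
    ∀ z, φ z = ∫⁻ ω, w ω * core (q ω) (σ ω) (u ω) z ∂P

/-- mixtures of the functions `core` with a parameter -/
def GoodP {X κ : Type} [MeasurableSpace X] [Fintype κ] (φ : X → (κ → ℝ) → ℝ≥0∞) : Prop :=
  ∃ (Ω : Type) (_ : MeasurableSpace Ω) (P : Measure Ω) (_ : IsProbabilityMeasure P)
    (w : X × Ω → ℝ≥0∞) (q : X × Ω → ℝ) (σ : X × Ω → ℝ) (u : X × Ω → κ → ℝ),
    Measurable w ∧ Measurable q ∧ Measurable σ ∧ Measurable u ∧ (∀ ω, 0 ≤ q ω) ∧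
    ∀ x z, φ x z = ∫⁻ ω, w (x, ω) * core (q (x, ω)) (σ (x, ω)) (u (x, ω)) z ∂P

theorem Good.measurable {κ : Type} [Fintype κ] {φ : (κ → ℝ) → ℝ≥0∞} (h : Good φ) :
    Measurable φ := by
  obtain ⟨Ω, mΩ, P, hP, w, q, σ, u, hw, hq, hσ, hu, hq0, hφ⟩ := h
  have : φ = fun z => ∫⁻ ω, w ω * core (q ω) (σ ω) (u ω) z ∂P := funext hφ
  rw [this]
  have h1 : Measurable (fun p : (κ → ℝ) × Ω => w p.2 * core (q p.2) (σ p.2) (u p.2) p.1) :=
    (hw.comp measurable_snd).mul (core_meas (hq.comp measurable_snd) (hσ.comp measurable_snd)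
      (hu.comp measurable_snd) measurable_fst)
  exact h1.lintegral_prod_right'

/-- a constant function is good -/
theorem Good.const {κ : Type} [Fintype κ] (c : ℝ≥0∞) : Good (fun _ : κ → ℝ => c) := by
  refine ⟨Unit, inferInstance, Measure.dirac (), inferInstance, fun _ => c, fun _ => 0,
    fun _ => 0, fun _ => 0, by fun_prop, by fun_prop, by fun_prop, by fun_prop,
    fun _ => le_rfl, fun z => ?_⟩
  simp [core]

theorem GoodP.integrate {X κ Y : Type} [MeasurableSpace X] [MeasurableSpace Y] [Fintype κ]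
    {φ : X → (κ → ℝ) → ℝ≥0∞} (h : GoodP φ) (ρ : Measure Y) [IsProbabilityMeasure ρ]
    (g : Y → X) (hg : Measurable g) : Good (fun z => ∫⁻ y, φ (g y) z ∂ρ) := by
  obtain ⟨Ω, mΩ, P, hP, w, q, σ, u, hw, hq, hσ, hu, hq0, hφ⟩ := h
  have hG : Measurable (fun p : Y × Ω => (g p.1, p.2)) :=
    (hg.comp measurable_fst).prodMk measurable_snd
  refine ⟨Y × Ω, inferInstance, ρ.prod P, inferInstance, fun p => w (g p.1, p.2),
    fun p => q (g p.1, p.2), fun p => σ (g p.1, p.2), fun p => u (g p.1, p.2),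
    hw.comp hG, hq.comp hG, hσ.comp hG, hu.comp hG, fun p => hq0 _, fun z => ?_⟩
  have hm : Measurable (fun p : Y × Ω => w (g p.1, p.2) *
      core (q (g p.1, p.2)) (σ (g p.1, p.2)) (u (g p.1, p.2)) z) :=
    (hw.comp hG).mul (core_meas (hq.comp hG) (hσ.comp hG) (hu.comp hG) measurable_const)
  rw [lintegral_prod _ hm.aemeasurable]
  exact lintegral_congr fun y => hφ _ _

theorem GoodP.integrateP {X κ Y X' : Type} [MeasurableSpace X] [MeasurableSpace Y]
    [MeasurableSpace X'] [Fintype κ]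
    {φ : X → (κ → ℝ) → ℝ≥0∞} (h : GoodP φ) (ρ : Measure Y) [IsProbabilityMeasure ρ]
    (g : X' × Y → X) (hg : Measurable g) :
    GoodP (fun x' z => ∫⁻ y, φ (g (x', y)) z ∂ρ) := by
  obtain ⟨Ω, mΩ, P, hP, w, q, σ, u, hw, hq, hσ, hu, hq0, hφ⟩ := h
  have hG : Measurable (fun p : X' × (Y × Ω) => (g (p.1, p.2.1), p.2.2)) := by
    refine (hg.comp ?_).prodMk ?_
    · exact measurable_fst.prodMk (measurable_fst.comp measurable_snd)
    · exact measurable_snd.comp measurable_snd
  refine ⟨Y × Ω, inferInstance, ρ.prod P, inferInstance, fun p => w (g (p.1, p.2.1), p.2.2),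
    fun p => q (g (p.1, p.2.1), p.2.2), fun p => σ (g (p.1, p.2.1), p.2.2),
    fun p => u (g (p.1, p.2.1), p.2.2),
    hw.comp hG, hq.comp hG, hσ.comp hG, hu.comp hG, fun p => hq0 _, fun x z => ?_⟩
  have hG2 : Measurable (fun p : Y × Ω => (g (x, p.1), p.2)) :=
    (hg.comp (measurable_const.prodMk measurable_fst)).prodMk measurable_snd
  have hm : Measurable (fun p : Y × Ω => w (g (x, p.1), p.2) *
      core (q (g (x, p.1), p.2)) (σ (g (x, p.1), p.2)) (u (g (x, p.1), p.2)) z) :=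
    (hw.comp hG2).mul (core_meas (hq.comp hG2) (hσ.comp hG2) (hu.comp hG2) measurable_const)
  rw [lintegral_prod _ hm.aemeasurable]
  exact lintegral_congr fun y => hφ _ _

/-- **the product inequality for good functions** -/
theorem good_prod {κ ι : Type} [Fintype κ] [Fintype ι] (φ : ι → (κ → ℝ) → ℝ≥0∞)
    (hφ : ∀ i, Good (φ i)) :
    ∏ i, ∫⁻ z, φ i z ∂(gm κ) ≤ ∫⁻ z, ∏ i, φ i z ∂(gm κ) := by
  choose Ω mΩ P hP w q σ u hw hq hσ hu hq0 hrep using hφ
  have hm : ∀ i, Measurable (fun p : Ω i × (κ → ℝ) =>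
      w i p.1 * core (q i p.1) (σ i p.1) (u i p.1) p.2) := fun i =>
    ((hw i).comp measurable_fst).mul (core_meas ((hq i).comp measurable_fst)
      ((hσ i).comp measurable_fst) ((hu i).comp measurable_fst) measurable_snd)
  have hcm : ∀ i, Measurable (fun p : Ω i × (κ → ℝ) =>
      core (q i p.1) (σ i p.1) (u i p.1) p.2) := fun i =>
    core_meas ((hq i).comp measurable_fst)
      ((hσ i).comp measurable_fst) ((hu i).comp measurable_fst) measurable_snd
  have h1 : ∀ z, ∏ i, φ i z = ∫⁻ ω, ∏ i, (w i (ω i) * core (q i (ω i)) (σ i (ω i)) (u i (ω i)) z)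
      ∂(Measure.pi P) := by
    intro z
    rw [lintegral_pi_prod P (fun i x => w i x * core (q i x) (σ i x) (u i x) z)
      (fun i => (hm i).comp (measurable_id.prodMk measurable_const))]
    exact Finset.prod_congr rfl fun i _ => hrep i z
  simp_rw [h1]
  have hmm : Measurable (fun p : (κ → ℝ) × (∀ i, Ω i) =>
      ∏ i, (w i (p.2 i) * core (q i (p.2 i)) (σ i (p.2 i)) (u i (p.2 i)) p.1)) := by
    refine Finset.measurable_fun_prod _ fun i _ => ?_
    have h2 : Measurable (fun p : (κ → ℝ) × (∀ i, Ω i) => (p.2 i, p.1)) :=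
      ((measurable_pi_apply i).comp measurable_snd).prodMk measurable_fst
    exact (hm i).comp h2
  rw [lintegral_lintegral_swap hmm.aemeasurable]
  have h2 : ∏ i, ∫⁻ z, φ i z ∂(gm κ) = ∫⁻ ω, ∏ i, (w i (ω i) *
      ∫⁻ z, core (q i (ω i)) (σ i (ω i)) (u i (ω i)) z ∂(gm κ)) ∂(Measure.pi P) := by
    rw [lintegral_pi_prod P (fun i x => w i x * ∫⁻ z, core (q i x) (σ i x) (u i x) z ∂(gm κ))
      (fun i => (hw i).mul ((hcm i).lintegral_prod_right'))]
    refine Finset.prod_congr rfl fun i _ => ?_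
    simp_rw [hrep i]
    have hs : Measurable (Function.uncurry fun (z : κ → ℝ) (x : Ω i) =>
        w i x * core (q i x) (σ i x) (u i x) z) := (hm i).comp measurable_swap
    rw [lintegral_lintegral_swap hs.aemeasurable]
    refine lintegral_congr fun x => ?_
    rw [lintegral_const_mul]
    exact (hcm i).comp (measurable_const.prodMk measurable_id)
  rw [h2]
  refine lintegral_mono fun ω => ?_
  have h3 : ∀ z, ∏ i, (w i (ω i) * core (q i (ω i)) (σ i (ω i)) (u i (ω i)) z) =
      (∏ i, w i (ω i)) * ∏ i, core (q i (ω i)) (σ i (ω i)) (u i (ω i)) z := fun z =>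
    Finset.prod_mul_distrib
  simp_rw [h3]
  rw [Finset.prod_mul_distrib, lintegral_const_mul]
  · have h4 := core_prod (κ := κ) (fun i => q i (ω i)) (fun i => σ i (ω i))
      (fun i => u i (ω i)) (fun i => hq0 i _)
    exact mul_le_mul' le_rfl h4
  · refine Finset.measurable_fun_prod _ fun i _ => ?_
    exact (hcm i).comp (measurable_const.prodMk measurable_id)

/-- a function of several vectors which is good in each of them -/
def SepGood {K κ : Type} [DecidableEq K] [Fintype κ] (f : (K → κ → ℝ) → ℝ≥0∞) : Prop :=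
  ∀ k : K, GoodP (fun (x : K → κ → ℝ) (z : κ → ℝ) => f (Function.update x k z))

/-- **the product inequality for separately good functions of iid Gaussian vectors** -/
theorem sepGood_prod {K κ ι : Type} [Fintype K] [DecidableEq K] [Fintype κ] [Fintype ι]
    (f : ι → (K → κ → ℝ) → ℝ≥0∞) (hm : ∀ i, Measurable (f i)) (hf : ∀ i, SepGood (f i)) :
    ∏ i, ∫⁻ x, f i x ∂(Measure.pi fun _ : K => gm κ) ≤
      ∫⁻ x, ∏ i, f i x ∂(Measure.pi fun _ : K => gm κ) := by
  set μ : K → Measure (κ → ℝ) := fun _ => gm κ with hμ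
  have hM : Measurable (fun x => ∏ i, f i x) := Finset.measurable_fun_prod _ fun i _ => hm i
  have key : ∀ (t : Finset K) (x : K → κ → ℝ),
      ∏ i, (∫⋯∫⁻_t, f i ∂μ) x ≤ (∫⋯∫⁻_t, (fun x => ∏ i, f i x) ∂μ) x := by
    intro t
    induction t using Finset.induction_on with
    | empty =>
      intro x
      simp
    | insert k t hk ih =>
      intro x
      rw [lmarginal_insert _ hM hk]
      have h1 : ∀ i, (∫⋯∫⁻_insert k t, f i ∂μ) x =
          ∫⁻ z, (∫⋯∫⁻_t, f i ∂μ) (Function.update x k z) ∂(gm κ) := fun i =>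
        lmarginal_insert _ (hm i) hk x
      simp_rw [h1]
      refine le_trans (good_prod (fun i z => (∫⋯∫⁻_t, f i ∂μ) (Function.update x k z)) ?_)
        (lintegral_mono fun z => ih _)
      intro i
      have h2 : ∀ z, (∫⋯∫⁻_t, f i ∂μ) (Function.update x k z) =
          ∫⁻ y, f i (Function.update (Function.updateFinset x t y) k z)
            ∂(Measure.pi fun j : t => μ j) := by
        intro z
        unfold lmarginal
        refine lintegral_congr fun y => ?_
        congr 1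
        funext j
        by_cases hj : j = k
        · subst hj
          simp [Function.updateFinset, hk]
        · by_cases hjt : j ∈ t
          · simp [Function.updateFinset, hjt, hj]
          · simp [Function.updateFinset, hjt, hj]
      simp_rw [h2]
      have h3 := (hf i k).integrate (Measure.pi fun j : t => μ j)
        (fun y => Function.updateFinset x t y) measurable_updateFinset
      exact h3
  have h := key Finset.univ (fun _ _ => 0)
  simp only [lmarginal_univ] at h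
  exact h

end Pool.Agent.TH985.WP
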