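import Pool.Agent.TH985.WP.Claim

/-!
# The product inequality for powers of determinants of `C_i M N_i`: the induction
-/

set_option autoImplicit false
open MeasureTheory ProbabilityTheory Matrix
open scoped ENNReal

namespace Pool.Agent.TH985.WP

theorem measurable_cw' {K n I : Type} {B : I → Type} [Fintype n]
    (C : Matrix ((i : I) × B i) n ℝ) (i : I) :
    Measurable fun Z : K → n → ℝ => cw C i Z := by
  refine measurable_pi_lambda _ fun k => measurable_pi_lambda _ fun b => ?_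
  unfold cw mulVec dotProduct
  fun_prop

/-- one step of the induction -/
theorem step {I : Type} [Fintype I] [DecidableEq I] {B : I → Type} [∀ i, Fintype (B i)]
    [∀ i, DecidableEq (B i)] [∀ i, Nonempty (B i)] (q : I → ℝ) (hq : ∀ i, 0 ≤ q i)
    (s : Finset I) (i₀ : I) (hi₀ : i₀ ∉ s) {n n' τ : Type} [Fintype n] [DecidableEq n]
    [Fintype n'] [DecidableEq n'] [Fintype τ] [DecidableEq τ]
    (C : Matrix ((i : I) × B i) n ℝ) (C' : Matrix ((i : I) × B i) n' ℝ)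
    (hC' : ∀ b x, C' ⟨i₀, b⟩ x = 0) (κ₀ κ' : ℝ) [Fact (-1 < κ₀)] [Fact (-1 < κ')]
    (A : ∀ i, τ → B i → ℝ)
    (ih : ∀ A' : ∀ i, (τ ⊕ B i₀) → B i → ℝ,
      ∏ i ∈ s, ∫⁻ y, Gf (q i) (A' i) (blk y i) ∂(lawA C' κ') ≤
        ∫⁻ y, ∏ i ∈ s, Gf (q i) (A' i) (blk y i) ∂(lawA C' κ')) :
    ∏ i ∈ insert i₀ s, ∫⁻ y, Gf (q i) (A i) (blk y i) ∂(lawB C i₀ κ₀ (lawA C' κ')) ≤
      ∫⁻ y, ∏ i ∈ insert i₀ s, Gf (q i) (A i) (blk y i) ∂(lawB C i₀ κ₀ (lawA C' κ')) := by
  set ρ' := lawA C' κ' with hρ'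
  set g : ∀ i, (B i → B i → ℝ) → ℝ≥0∞ := fun i Y => Gf (q i) (A i) (Matrix.of Y) with hg
  have hgm : ∀ i, Measurable (g i) := by
    intro i
    exact measurable_Gf (q i) (fun _ => A i) (fun _ _ => measurable_const) (fun Y => Matrix.of Y)
      (fun a b => by simp only [Matrix.of_apply]; fun_prop)
  set Θ : (B i₀ → n → ℝ) → ℝ≥0∞ := fun Z =>
    ∫⁻ M, Gf (q i₀) (A i₀) (ymat (cw C i₀ Z) M) ∂(muk (B i₀) κ₀) with hΘ
  set Ψ : I → (B i₀ → n → ℝ) → ℝ≥0∞ := fun i Z =>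
    ∫⁻ y', Gf (q i) (Sum.elim (A i) (cw C i Z)) (blk y' i) ∂ρ' with hΨ
  -- integrating out the multipliers
  have hfree : ∀ i, i ≠ i₀ → ∀ (Z : B i₀ → n → ℝ) (y' : ((i : I) × (B i × B i)) → ℝ),
      ∫⁻ ν, g i (addb C i Z ν y') ∂(nuB B i₀ κ₀ i) =
        Gf (q i) (Sum.elim (A i) (cw C i Z)) (blk y' i) := by
    intro i hi Z y'
    rw [← Gf_sum]
    unfold nuB
    rw [Function.update_of_ne hi]
    rfl
  have hown : ∀ (Z : B i₀ → n → ℝ) (y' : ((i : I) × (B i × B i)) → ℝ),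
      (∀ b a, y' ⟨i₀, (b, a)⟩ = 0) →
      ∫⁻ ν, g i₀ (addb C i₀ Z ν y') ∂(nuB B i₀ κ₀ i₀) = Θ Z := by
    intro Z y' hy'
    unfold nuB
    rw [Function.update_self, hΘ]
    refine lintegral_congr fun ν => ?_
    rw [hg]
    simp only
    congr 1
    ext b a
    simp [addb, hy']
  have hae := lawA_zero C' κ' i₀ hC'
  rw [← hρ'] at hae
  -- the integral of the product
  have E3 : ∫⁻ y, ∏ i ∈ insert i₀ s, Gf (q i) (A i) (blk y i) ∂(lawB C i₀ κ₀ ρ') =
      ∫⁻ Z, Θ Z * ∫⁻ y', ∏ i ∈ s, Gf (q i) (Sum.elim (A i) (cw C i Z)) (blk y' i) ∂ρ'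
        ∂(gmat (B i₀) n) := by
    have h1 := lawB_prod C i₀ κ₀ ρ' (insert i₀ s) g hgm
    rw [show (∫⁻ y, ∏ i ∈ insert i₀ s, Gf (q i) (A i) (blk y i) ∂(lawB C i₀ κ₀ ρ')) =
      ∫⁻ y, ∏ i ∈ insert i₀ s, g i (fun b a => y ⟨i, (b, a)⟩) ∂(lawB C i₀ κ₀ ρ') from rfl, h1]
    refine lintegral_congr fun Z => ?_
    have hmp : Measurable fun y' : ((i : I) × (B i × B i)) → ℝ =>
        ∏ i ∈ s, Gf (q i) (Sum.elim (A i) (cw C i Z)) (blk y' i) := by
      refine Finset.measurable_fun_prod _ fun i _ => ?_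
      exact measurable_Gf (q i) (fun _ => Sum.elim (A i) (cw C i Z))
        (fun _ _ => measurable_const) (fun y' => blk y' i)
        (fun a b => by unfold blk; simp only [Matrix.of_apply]; fun_prop)
    rw [← lintegral_const_mul _ hmp]
    refine lintegral_congr_ae ?_
    filter_upwards [hae] with y' hy'
    rw [Finset.prod_insert hi₀, hown Z y' hy']
    congr 1
    refine Finset.prod_congr rfl fun i hi => ?_
    exact hfree i (fun h => hi₀ (h ▸ hi)) Z y'
  have E1 : ∀ i ∈ s, ∫⁻ y, Gf (q i) (A i) (blk y i) ∂(lawB C i₀ κ₀ ρ') =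
      ∫⁻ Z, Ψ i Z ∂(gmat (B i₀) n) := by
    intro i hi
    have h1 := lawB_prod C i₀ κ₀ ρ' {i} g hgm
    simp only [Finset.prod_singleton] at h1
    rw [show (∫⁻ y, Gf (q i) (A i) (blk y i) ∂(lawB C i₀ κ₀ ρ')) =
      ∫⁻ y, g i (fun b a => y ⟨i, (b, a)⟩) ∂(lawB C i₀ κ₀ ρ') from rfl, h1]
    refine lintegral_congr fun Z => ?_
    rw [hΨ]
    exact lintegral_congr fun y' => hfree i (fun h => hi₀ (h ▸ hi)) Z y'
  have E2 : ∫⁻ y, Gf (q i₀) (A i₀) (blk y i₀) ∂(lawB C i₀ κ₀ ρ') =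
      ∫⁻ Z, Θ Z ∂(gmat (B i₀) n) := by
    have h1 := lawB_prod C i₀ κ₀ ρ' {i₀} g hgm
    simp only [Finset.prod_singleton] at h1
    rw [show (∫⁻ y, Gf (q i₀) (A i₀) (blk y i₀) ∂(lawB C i₀ κ₀ ρ')) =
      ∫⁻ y, g i₀ (fun b a => y ⟨i₀, (b, a)⟩) ∂(lawB C i₀ κ₀ ρ') from rfl, h1]
    refine lintegral_congr fun Z => ?_
    have h2 : ∀ᵐ y' ∂ρ', ∫⁻ ν, g i₀ (addb C i₀ Z ν y') ∂(nuB B i₀ κ₀ i₀) = Θ Z := by
      filter_upwards [hae] with y' hy'
      exact hown Z y' hy'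
    rw [lintegral_congr_ae h2, lintegral_const, measure_univ, mul_one]
  rw [Finset.prod_insert hi₀, Finset.prod_congr rfl E1, E2, E3]
  -- measurability and goodness
  have hΘm : Measurable Θ := by
    have h1 : Measurable fun p : (B i₀ → n → ℝ) × (B i₀ → B i₀ → ℝ) =>
        Gf (q i₀) (A i₀) (ymat (cw C i₀ p.1) p.2) := by
      refine measurable_Gf (q i₀) (fun _ => A i₀) (fun _ _ => measurable_const)
        (fun p : (B i₀ → n → ℝ) × (B i₀ → B i₀ → ℝ) => ymat (cw C i₀ p.1) p.2) (fun a b => ?_)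
      exact measurable_ymat (fun p : (B i₀ → n → ℝ) × (B i₀ → B i₀ → ℝ) => cw C i₀ p.1)
        (fun j b => (measurable_cw C i₀ j b).comp measurable_fst) (fun p => p.2)
        (fun j a => (measurable_pi_apply a).comp ((measurable_pi_apply j).comp measurable_snd))
        a b
    exact h1.lintegral_prod_right'
  have hΨm : ∀ i, Measurable (Ψ i) := by
    intro i
    have h1 : Measurable fun p : (B i₀ → n → ℝ) × (((i : I) × (B i × B i)) → ℝ) =>
        Gf (q i) (Sum.elim (A i) (cw C i p.1)) (blk p.2 i) := by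
      refine measurable_Gf (q i) (fun p : (B i₀ → n → ℝ) × (((i : I) × (B i × B i)) → ℝ) =>
        Sum.elim (A i) (cw C i p.1)) (fun j b => ?_) (fun p => blk p.2 i) (fun a b => ?_)
      · rcases j with j | j
        · exact measurable_const
        · exact (measurable_cw C i j b).comp measurable_fst
      · unfold blk
        simp only [Matrix.of_apply]
        exact (measurable_pi_apply _).comp measurable_snd
    exact h1.lintegral_prod_right'
  have hΘs : SepGood Θ :=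
    sepGood_own κ₀ (A i₀) (C.submatrix (Sigma.mk i₀) id) (q i₀) (hq i₀)
  have hΨs : ∀ i, SepGood (Ψ i) := by
    intro i
    have h1 := sepGood_free (K := B i₀) (muk n' κ') (A i) (C.submatrix (Sigma.mk i) id)
      (fun M : n' → n' → ℝ => cw C' i M) (measurable_cw' C' i) (q i) (hq i)
    have h2 : Ψ i = fun Z : B i₀ → n → ℝ => ∫⁻ m, Gf (q i)
      (Sum.elim (Sum.elim (A i) (fun k => C.submatrix (Sigma.mk i) id *ᵥ Z k)) (cw C' i m)) 0
        ∂(muk n' κ') := by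
      funext Z
      rw [hΨ]
      simp only
      have h3 := lawA_one C' κ' i
        (fun Y => Gf (q i) (Sum.elim (A i) (cw C i Z)) (Matrix.of Y)) (by
          exact measurable_Gf (q i) (fun _ => Sum.elim (A i) (cw C i Z))
            (fun _ _ => measurable_const) (fun Y => Matrix.of Y)
            (fun a b => by simp only [Matrix.of_apply]; fun_prop))
      rw [show (∫⁻ y', Gf (q i) (Sum.elim (A i) (cw C i Z)) (blk y' i) ∂ρ') =
        ∫⁻ y', Gf (q i) (Sum.elim (A i) (cw C i Z)) (Matrix.of fun b a => y' ⟨i, (b, a)⟩)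
          ∂(lawA C' κ') from rfl, h3]
      refine lintegral_congr fun M => ?_
      have h4 := Gf_sum (q i) (Sum.elim (A i) (cw C i Z)) (cw C' i M) 0
      rw [show (fun k => C.submatrix (Sigma.mk i) id *ᵥ Z k) = cw C i Z from rfl, ← h4]
      refine lintegral_congr fun ν => ?_
      rw [add_zero]
      rfl
    rw [h2]
    exact h1
  -- the product inequality for the columns of Z
  have hsp := sepGood_prod (K := B i₀) (κ := n) (ι := Option s)
    (fun o => match o with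
      | none => Θ
      | some i => Ψ i.1)
    (fun o => by rcases o with _ | i; exacts [hΘm, hΨm i.1])
    (fun o => by rcases o with _ | i; exacts [hΘs, hΨs i.1])
  simp only [Fintype.prod_option] at hsp
  rw [Finset.prod_coe_sort s (fun i => ∫⁻ x, Ψ i x ∂(Measure.pi fun _ : B i₀ => gm n))] at hsp
  have h5 : ∀ x, ∏ i : s, Ψ i.1 x = ∏ i ∈ s, Ψ i x := fun x =>
    Finset.prod_coe_sort s (fun i => Ψ i x)
  simp only [h5] at hsp
  refine le_trans hsp ?_
  refine lintegral_mono fun Z => ?_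
  exact mul_le_mul' le_rfl (ih fun i => Sum.elim (A i) (cw C i Z))

/-- **the product inequality** -/
theorem claim {I : Type} [Fintype I] [DecidableEq I] {B : I → Type} [∀ i, Fintype (B i)]
    [∀ i, DecidableEq (B i)] [∀ i, Nonempty (B i)] (q : I → ℝ) (hq : ∀ i, 0 ≤ q i)
    (s : Finset I) :
    ∀ (n : Type) [Fintype n] [DecidableEq n] (C : Matrix ((i : I) × B i) n ℝ)
      (_ : ∀ i ∉ s, ∀ b x, C ⟨i, b⟩ x = 0) (α : ℝ)
      (_ : (∑ i ∈ s, (Fintype.card (B i) : ℝ)) - 1 < α)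
      (ρ : Measure (((i : I) × (B i × B i)) → ℝ)) [IsProbabilityMeasure ρ] (_ : HasCF C α ρ)
      (τ : Type) [Fintype τ] [DecidableEq τ] (A : ∀ i, τ → B i → ℝ),
      ∏ i ∈ s, ∫⁻ y, Gf (q i) (A i) (blk y i) ∂ρ ≤
        ∫⁻ y, ∏ i ∈ s, Gf (q i) (A i) (blk y i) ∂ρ := by
  induction s using Finset.induction_on with
  | empty =>
    intro n _ _ C _ α _ ρ _ _ τ _ _ A
    simp
  | insert i₀ s hi₀ ih =>
    intro n _ _ C hC α hα ρ _ hρ τ _ _ A
    rw [Finset.sum_insert hi₀] at hα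
    have hsum0 : 0 ≤ ∑ i ∈ s, (Fintype.card (B i) : ℝ) :=
      Finset.sum_nonneg fun i _ => Nat.cast_nonneg _
    set κ₀ : ℝ := α - Fintype.card (B i₀) with hκ₀d
    have hκ₀ : -1 < κ₀ := by rw [hκ₀d]; linarith
    have : Fact (-1 < κ₀) := ⟨hκ₀⟩
    have hC2 : ∀ i ∉ s, ∀ b x, zr i₀ C ⟨i, b⟩ x = 0 := by
      intro i hi b x
      by_cases h : i = i₀
      · simp [zr, h]
      · simp only [zr, Matrix.of_apply, if_neg h]
        exact hC i (by simp [h, hi]) b x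
    obtain ⟨C', hC'1, hC'2⟩ := exists_small (zr i₀ C) s hC2
    have hcard : (Fintype.card {p : (i : I) × B i // p.1 ∈ s} : ℝ) =
        ∑ i ∈ s, (Fintype.card (B i) : ℝ) := by
      rw [← Nat.cast_sum]
      congr 1
      rw [Fintype.card_subtype]
      have h1 : (Finset.univ.filter fun p : (i : I) × B i => p.1 ∈ s) =
          s.sigma fun i => (Finset.univ : Finset (B i)) := by
        ext p
        simp
      rw [h1, Finset.card_sigma]
      rfl
    set κ' : ℝ := κ₀ - Fintype.card {p : (i : I) × B i // p.1 ∈ s} with hκ'd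
    have hκ' : -1 < κ' := by rw [hκ'd, hcard]; linarith
    have : Fact (-1 < κ') := ⟨hκ'⟩
    have hρ'1 : HasCF C' κ₀ (lawA C' κ') := by
      have h := lawA_cf C' κ' hκ'
      rwa [hκ'd, sub_add_cancel] at h
    have hρ'2 : HasCF (zr i₀ C) κ₀ (lawA C' κ') := fun T => by
      rw [hρ'1 T, det_gram C' (zr i₀ C) hC'1]
    have hB := lawB_cf C i₀ κ₀ hκ₀ (lawA C' κ') hρ'2
    have hρB : ρ = lawB C i₀ κ₀ (lawA C' κ') := by
      apply uniq
      intro T
      rw [hρ T, hB T, hκ₀d, sub_add_cancel]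
    rw [hρB]
    refine step q hq s i₀ hi₀ C C' (fun b x => hC'2 i₀ hi₀ b x) κ₀ κ' A fun A' => ?_
    exact ih _ C' hC'2 κ₀ (by linarith) (lawA C' κ') hρ'1 _ A'

end Pool.Agent.TH985.WP
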