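import Pool.Agent.TH985.WP.Good
import Pool.Agent.TH985.WP.Gauss

/-!
# Powers of determinants of Gaussian matrices are good functions of each column
-/

set_option autoImplicit false
open MeasureTheory ProbabilityTheory Matrix
open scoped ENNReal

namespace Pool.Agent.TH985.WP

/-- `∑ j, w j ν jᵀ` -/
def ymat {J B A : Type*} [Fintype J] (w : J → B → ℝ) (ν : J → A → ℝ) : Matrix B A ℝ :=
  Matrix.of fun b a => ∑ j, w j b * ν j a

theorem measurable_det {X n : Type*} [MeasurableSpace X] [Fintype n] [DecidableEq n]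
    (A : X → Matrix n n ℝ) (hA : ∀ i j, Measurable fun x => A x i j) :
    Measurable fun x => (A x).det := by
  simp only [Matrix.det_apply]
  refine Finset.measurable_fun_sum _ fun s _ => ?_
  refine Measurable.const_smul ?_ _
  exact Finset.measurable_fun_prod _ fun i _ => hA _ _

theorem measurable_cramer {X n : Type*} [MeasurableSpace X] [Fintype n] [DecidableEq n]
    (A : X → Matrix n n ℝ) (hA : ∀ i j, Measurable fun x => A x i j) (v : X → n → ℝ)
    (hv : ∀ i, Measurable fun x => v x i) (a : n) :
    Measurable fun x => cramer (A x) (v x) a := by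
  simp only [Matrix.cramer_apply]
  refine measurable_det _ fun i j => ?_
  by_cases h : j = a
  · subst h
    simp only [Matrix.updateCol_self]
    exact hv i
  · simp only [Matrix.updateCol_ne h]
    exact hA i j

theorem measurable_ymat {X J B A : Type*} [MeasurableSpace X] [Fintype J] (w : X → J → B → ℝ)
    (hw : ∀ j b, Measurable fun x => w x j b) (ν : X → J → A → ℝ)
    (hν : ∀ j a, Measurable fun x => ν x j a) (b : B) (a : A) :
    Measurable fun x => ymat (w x) (ν x) b a := by
  simp only [ymat, Matrix.of_apply]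
  exact Finset.measurable_fun_sum _ fun j _ => (hw j b).mul (hν j a)

theorem ymat_rot {J B : Type*} [Fintype J] [Fintype B] (w : J → B → ℝ)
    (ν : J → B → ℝ) (O : Matrix B B ℝ) :
    ymat w (fun j => O *ᵥ ν j) = ymat w ν * Oᵀ := by
  ext b a
  simp only [ymat, Matrix.of_apply, Matrix.mul_apply, Matrix.transpose_apply, mulVec, dotProduct,
    Finset.mul_sum, Finset.sum_mul]
  rw [Finset.sum_comm]
  refine Finset.sum_congr rfl fun i _ => Finset.sum_congr rfl fun j _ => by ring

theorem abs_det_rot {B : Type*} [Fintype B] [DecidableEq B] (A O : Matrix B B ℝ)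
    (hO : O * Oᵀ = 1) : |(A * Oᵀ).det| = |A.det| := by
  have h1 : O.det * O.det = 1 := by
    have := congrArg Matrix.det hO
    rwa [Matrix.det_mul, Matrix.det_transpose, Matrix.det_one] at this
  have h2 : |O.det| = 1 := by
    have : |O.det| * |O.det| = 1 := by rw [← abs_mul, h1, abs_one]
    nlinarith [abs_nonneg O.det]
  rw [Matrix.det_mul, Matrix.det_transpose, abs_mul, h2, mul_one]

/-- mixing the coordinate `a₀` -/
def mix {J B : Type*} [DecidableEq B] (a₀ : B) (ν y : J → B → ℝ) : J → B → ℝ :=
  fun j a => if a = a₀ then y j a else ν j a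

/-- the Euclidean norm -/
noncomputable def nrm {B : Type*} [Fintype B] (μ : B → ℝ) : ℝ := Real.sqrt (∑ a, μ a ^ 2)

/-- the coefficients of the first column -/
noncomputable def cf {J B : Type*} [Fintype J] [DecidableEq J] [Fintype B] [DecidableEq B]
    (w : J → B → ℝ) (k : J) (a₀ : B) (ν : J → B → ℝ) (v : B → ℝ) : ℝ :=
  cramer (ymat w (Function.update ν k 0)) v a₀

theorem det_formula {J B : Type*} [Fintype J] [DecidableEq J] [Fintype B] [DecidableEq B]
    (w : J → B → ℝ) (k : J) (a₀ : B) (ν y : J → B → ℝ) (ρ : ℝ) :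
    (ymat w (Function.update (mix a₀ ν y) k (ρ • (Pi.single a₀ (1 : ℝ) : B → ℝ)))).det =
      (∑ j, (if j = k then 0 else cf w k a₀ ν (w j)) * y j a₀) + ρ * cf w k a₀ ν (w k) := by
  have h1 : ymat w (Function.update (mix a₀ ν y) k (ρ • (Pi.single a₀ (1 : ℝ) : B → ℝ))) =
      (ymat w (Function.update ν k 0)).updateCol a₀
        (∑ j, (if j = k then 0 else y j a₀) • w j + ρ • w k) := by
    ext b a
    by_cases ha : a = a₀
    · subst ha
      rw [Matrix.updateCol_self]
      simp only [ymat, Matrix.of_apply, Pi.add_apply, Finset.sum_apply, Pi.smul_apply, smul_eq_mul]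
      rw [← Finset.add_sum_erase Finset.univ _ (Finset.mem_univ k),
        ← Finset.add_sum_erase Finset.univ (fun j => (if j = k then 0 else y j a) * w j b)
          (Finset.mem_univ k)]
      simp only [Function.update_self, Pi.smul_apply, Pi.single_eq_same, smul_eq_mul, mul_one,
        if_true, zero_mul, zero_add]
      rw [add_comm, mul_comm (w k b) ρ]
      congr 1
      refine Finset.sum_congr rfl fun j hj => ?_
      have hj' : j ≠ k := Finset.ne_of_mem_erase hj
      rw [Function.update_of_ne hj', if_neg hj']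
      simp [mix, mul_comm]
    · rw [Matrix.updateCol_ne ha]
      simp only [ymat, Matrix.of_apply]
      refine Finset.sum_congr rfl fun j _ => ?_
      by_cases hj : j = k
      · subst hj
        simp [ha]
      · rw [Function.update_of_ne hj, Function.update_of_ne hj]
        simp [mix, ha]
  rw [h1, ← Matrix.cramer_apply, map_add, map_sum, map_smul]
  simp only [map_smul, Pi.add_apply, Finset.sum_apply, Pi.smul_apply, smul_eq_mul]
  congr 1
  refine Finset.sum_congr rfl fun j _ => ?_
  by_cases hj : j = k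
  · simp [hj]
  · simp only [if_neg hj, cf]
    ring

theorem rot_identity {J B : Type*} [Fintype J] [DecidableEq J] [Fintype B] [DecidableEq B]
    (ω : (J → B → ℝ) → ℝ≥0∞) (hω : Measurable ω) (k : J) (a₀ : B)
    (h1 : ∀ O : Matrix B B ℝ, O * Oᵀ = 1 → ∀ ν, ω (fun j => O *ᵥ ν j) = ω ν)
    (h2 : ∀ ν y (ρ : ℝ), ω (Function.update (mix a₀ ν y) k (ρ • (Pi.single a₀ (1 : ℝ) : B → ℝ))) =
      ω (Function.update ν k (ρ • (Pi.single a₀ (1 : ℝ) : B → ℝ))))
    (w : J → B → ℝ) (q : ℝ) :
    ∫⁻ ν, ω ν * ENNReal.ofReal (|(ymat w ν).det| ^ q) ∂(gmat J B) =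
      ∫⁻ p : (J → B → ℝ) × (J → B → ℝ),
        ω (Function.update p.2 k (nrm (p.1 k) • (Pi.single a₀ (1 : ℝ) : B → ℝ))) *
        core q (Real.sqrt (∑ j, (if j = k then 0 else cf w k a₀ p.2 (w j)) ^ 2))
          (fun _ : Unit => nrm (p.1 k) * cf w k a₀ p.2 (w k)) (fun _ => 1)
        ∂((gmat J B).prod (gmat J B)) := by
  set H : (J → B → ℝ) → ℝ≥0∞ := fun ν => ω ν * ENNReal.ofReal (|(ymat w ν).det| ^ q) with hH
  have hHm : Measurable H := by
    refine hω.mul ?_
    have : Measurable fun ν : J → B → ℝ => (ymat w ν).det :=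
      measurable_det _ fun i j => measurable_ymat (fun _ => w) (fun _ _ => measurable_const)
        (fun ν => ν) (fun j a => by fun_prop) i j
    exact ENNReal.measurable_ofReal.comp (this.abs.pow_const q)
  have hup : ∀ μ : B → ℝ, Measurable fun ν : J → B → ℝ => Function.update ν k μ := by
    intro μ
    exact measurable_update'.comp (measurable_id.prodMk measurable_const)
  have hmixm : Measurable fun z : (J → B → ℝ) × (J → B → ℝ) => mix a₀ z.1 z.2 :=
    (gmat_mix (K := J) a₀).measurable
  -- first step
  have s1 : ∫⁻ ν, H ν ∂(gmat J B) =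
      ∫⁻ μ, ∫⁻ ν, H (Function.update ν k (μ k)) ∂(gmat J B) ∂(gmat J B) := by
    have hm := gmat_update (K := J) (n := B) k
    have hmm : Measurable fun z : (J → B → ℝ) × (J → B → ℝ) =>
        H (Function.update z.2 k (z.1 k)) := hHm.comp hm.measurable
    rw [← hm.lintegral_comp hHm, lintegral_prod _ hmm.aemeasurable]
  rw [s1]
  -- the right hand side as an iterated integral
  have hcfm : ∀ v : B → ℝ, Measurable fun ν : J → B → ℝ => cf w k a₀ ν v := by
    intro v
    unfold cf
    refine measurable_cramer (fun ν : J → B → ℝ => ymat w (Function.update ν k 0))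
      (fun i j => ?_) (fun _ => v) (fun i => measurable_const) a₀
    exact measurable_ymat (fun _ => w) (fun _ _ => measurable_const)
      (fun ν : J → B → ℝ => Function.update ν k 0)
      (fun j a => measurable_pi_iff.1 (measurable_pi_iff.1 (hup 0) j) a) i j
  have hnm : Measurable fun μ : J → B → ℝ => nrm (μ k) := by
    unfold nrm
    fun_prop
  have hR : Measurable fun p : (J → B → ℝ) × (J → B → ℝ) =>
      ω (Function.update p.2 k (nrm (p.1 k) • (Pi.single a₀ (1 : ℝ) : B → ℝ))) *
        core q (Real.sqrt (∑ j, (if j = k then 0 else cf w k a₀ p.2 (w j)) ^ 2))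
          (fun _ : Unit => nrm (p.1 k) * cf w k a₀ p.2 (w k)) (fun _ => 1) := by
    refine Measurable.mul ?_ ?_
    · refine hω.comp ?_
      refine measurable_update'.comp (measurable_snd.prodMk ?_)
      refine measurable_pi_lambda _ fun a => ?_
      exact (hnm.comp measurable_fst).mul_const _
    · refine core_meas measurable_const ?_ ?_ measurable_const
      · refine Measurable.sqrt ?_
        refine Finset.measurable_fun_sum _ fun j _ => ?_
        by_cases hj : j = k
        · simp [hj]
        · simp only [if_neg hj]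
          exact ((hcfm (w j)).comp measurable_snd).pow_const 2
      · refine measurable_pi_lambda _ fun _ => ?_
        exact (hnm.comp measurable_fst).mul ((hcfm (w k)).comp measurable_snd)
  rw [lintegral_prod _ hR.aemeasurable]
  refine lintegral_congr fun μ => ?_
  -- the rotation
  obtain ⟨O, hO1, hO2, hO3⟩ := exists_rot a₀ (μ k)
  have hHO : ∀ ν, H (fun j => O *ᵥ ν j) = H ν := by
    intro ν
    simp only [hH]
    rw [h1 O hO1 ν, ymat_rot, abs_det_rot _ _ hO1]
  set ρ := nrm (μ k) with hρ
  set e : B → ℝ := Pi.single a₀ (1 : ℝ) with he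
  have hO3' : O *ᵥ (μ k) = ρ • e := hO3
  have s2 : ∫⁻ ν, H (Function.update ν k (μ k)) ∂(gmat J B) =
      ∫⁻ ν, H (Function.update ν k (ρ • e)) ∂(gmat J B) := by
    have hG : Measurable fun ν : J → B → ℝ => H (Function.update ν k (ρ • e)) :=
      hHm.comp (hup (ρ • e))
    rw [← (gmat_rot (K := J) O hO1).lintegral_comp hG]
    refine lintegral_congr fun ν => ?_
    rw [← hHO (Function.update ν k (μ k))]
    congr 1
    funext j
    by_cases hj : j = k
    · subst hj
      simp [hO3']
    · simp [hj]
  rw [s2]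
  -- resampling
  have hm2 := gmat_mix (K := J) (n := B) a₀
  have hGm : Measurable fun ν => H (Function.update ν k (ρ • e)) := hHm.comp (hup (ρ • e))
  have hGm2 : Measurable fun z : (J → B → ℝ) × (J → B → ℝ) =>
      H (Function.update (fun j a => if a = a₀ then z.2 j a else z.1 j a) k (ρ • e)) :=
    hGm.comp hm2.measurable
  rw [← hm2.lintegral_comp hGm, lintegral_prod _ hGm2.aemeasurable]
  refine lintegral_congr fun ν => ?_
  have s3 : ∀ y : J → B → ℝ, H (Function.update (fun j a => if a = a₀ then y j a else ν j a) k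
      (ρ • e)) = ω (Function.update ν k (ρ • e)) * ENNReal.ofReal
        (|(∑ j, (if j = k then 0 else cf w k a₀ ν (w j)) * y j a₀) + ρ * cf w k a₀ ν (w k)| ^ q) := by
    intro y
    have e1 : (fun (j : J) (a : B) => if a = a₀ then y j a else ν j a) = mix a₀ ν y := rfl
    rw [e1]
    simp only [hH]
    rw [h2 ν y ρ, det_formula]
  simp only [s3]
  rw [lintegral_const_mul]
  · congr 1
    have hev : MeasurePreserving (fun (y : J → B → ℝ) (j : J) => y j a₀) (gmat J B) (gm J) :=
      measurePreserving_pi (fun _ : J => gm B) (fun _ : J => gaussianReal 0 1)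
        (fun _ => measurePreserving_eval (fun _ : B => gaussianReal 0 1) a₀)
    have hF : Measurable fun r : ℝ => ENNReal.ofReal (|r + ρ * cf w k a₀ ν (w k)| ^ q) := by
      fun_prop
    have h3 := gm_lin (fun j => if j = k then 0 else cf w k a₀ ν (w j)) _ hF
    have hF2 : Measurable fun t : J → ℝ => ENNReal.ofReal
        (|(∑ j, (if j = k then 0 else cf w k a₀ ν (w j)) * t j) + ρ * cf w k a₀ ν (w k)| ^ q) := by
      fun_prop
    have h4 := hev.lintegral_comp hF2
    rw [h4, h3]
    unfold core
    simp only [Finset.univ_unique, Finset.sum_singleton, mul_one]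
    rfl
  · have : Measurable fun y : J → B → ℝ => (∑ j, (if j = k then 0 else cf w k a₀ ν (w j)) *
        y j a₀) + ρ * cf w k a₀ ν (w k) := by fun_prop
    exact ENNReal.measurable_ofReal.comp (this.abs.pow_const q)

theorem cf_update {J B : Type*} [Fintype J] [DecidableEq J] [Fintype B] [DecidableEq B]
    (w : J → B → ℝ) (k : J) (a₀ : B) (ν : J → B → ℝ) (v c : B → ℝ) :
    cf (Function.update w k c) k a₀ ν v = cf w k a₀ ν v := by
  have h : ymat (Function.update w k c) (Function.update ν k 0) =
      ymat w (Function.update ν k 0) := by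
    ext b a
    simp only [ymat, Matrix.of_apply]
    refine Finset.sum_congr rfl fun j _ => ?_
    by_cases hj : j = k
    · subst hj
      simp
    · simp [hj]
  unfold cf
  rw [h]

theorem cf_lin {J B κ : Type*} [Fintype J] [DecidableEq J] [Fintype B] [DecidableEq B]
    [Fintype κ] (w : J → B → ℝ) (k : J) (a₀ : B) (ν : J → B → ℝ) (C : Matrix B κ ℝ)
    (z : κ → ℝ) :
    cf w k a₀ ν (C *ᵥ z) = ∑ i, cf w k a₀ ν (fun b => C b i) * z i := by
  have e2 : C *ᵥ z = ∑ i, z i • fun b => C b i := by
    ext b
    simp [mulVec, dotProduct, Finset.sum_apply, mul_comm]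
  unfold cf
  generalize ymat w (Function.update ν k 0) = A
  rw [e2]
  have h := congrFun (map_sum (cramer A) (fun i => z i • fun b => C b i) Finset.univ) a₀
  rw [h, Finset.sum_apply]
  refine Finset.sum_congr rfl fun i _ => ?_
  rw [(cramer A).map_smul, Pi.smul_apply, smul_eq_mul, mul_comm]

theorem core_unit {κ : Type*} [Fintype κ] (q σ r : ℝ) (u z : κ → ℝ) (h : r = ∑ i, u i * z i) :
    core q σ (fun _ : Unit => r) (fun _ => 1) = core q σ u z := by
  unfold core
  simp only [Finset.univ_unique, Finset.sum_singleton, mul_one]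
  rw [h]

theorem measurable_cf {Y J B : Type*} [MeasurableSpace Y] [Fintype J] [DecidableEq J]
    [Fintype B] [DecidableEq B] (W : Y → J → B → ℝ) (hW : ∀ j b, Measurable fun y => W y j b)
    (k : J) (a₀ : B) (ν : Y → J → B → ℝ) (hν : Measurable ν) (v : Y → B → ℝ)
    (hv : ∀ b, Measurable fun y => v y b) :
    Measurable fun y => cf (W y) k a₀ (ν y) (v y) := by
  have hup0 : Measurable fun ν : J → B → ℝ => Function.update ν k (0 : B → ℝ) :=
    measurable_update'.comp (measurable_id.prodMk measurable_const)
  unfold cf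
  refine measurable_cramer (fun y => ymat (W y) (Function.update (ν y) k 0))
    (fun i j => ?_) (fun y => v y) (fun i => hv i) a₀
  refine measurable_ymat W hW (fun y => Function.update (ν y) k 0) (fun j a => ?_) i j
  exact (measurable_pi_apply a).comp ((measurable_pi_apply j).comp (hup0.comp hν))

attribute [local irreducible] cf

theorem rot_goodP {X J B κ : Type} [MeasurableSpace X] [Fintype J] [DecidableEq J] [Fintype B]
    [DecidableEq B] [Fintype κ] (W : X → J → B → ℝ) (hW : Measurable W) (C : Matrix B κ ℝ)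
    (ω : (J → B → ℝ) → ℝ≥0∞) (hω : Measurable ω) (k : J) (a₀ : B)
    (h1 : ∀ O : Matrix B B ℝ, O * Oᵀ = 1 → ∀ ν, ω (fun j => O *ᵥ ν j) = ω ν)
    (h2 : ∀ ν y (ρ : ℝ), ω (Function.update (mix a₀ ν y) k (ρ • (Pi.single a₀ (1 : ℝ) : B → ℝ))) =
      ω (Function.update ν k (ρ • (Pi.single a₀ (1 : ℝ) : B → ℝ))))
    (q : ℝ) (hq : 0 ≤ q) :
    GoodP (fun (x : X) (z : κ → ℝ) => ∫⁻ ν, ω ν *
      ENNReal.ofReal (|(ymat (Function.update (W x) k (C *ᵥ z)) ν).det| ^ q) ∂(gmat J B)) := by
  have hWjb : ∀ j b, Measurable fun x => W x j b := fun j b =>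
    (measurable_pi_apply b).comp ((measurable_pi_apply j).comp hW)
  have hcfm : ∀ v : X → B → ℝ, (∀ b, Measurable fun x => v x b) →
      Measurable fun y : X × ((J → B → ℝ) × (J → B → ℝ)) =>
        cf (W y.1) k a₀ y.2.2 (v y.1) := by
    intro v hv
    exact measurable_cf (fun y : X × ((J → B → ℝ) × (J → B → ℝ)) => W y.1)
      (fun j b => (hWjb j b).comp measurable_fst) k a₀ (fun y => y.2.2)
      (measurable_snd.comp measurable_snd) (fun y => v y.1) (fun b => (hv b).comp measurable_fst)
  have hnm : Measurable fun μ : J → B → ℝ => nrm (μ k) := by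
    unfold nrm
    fun_prop
  refine ⟨(J → B → ℝ) × (J → B → ℝ), inferInstance, (gmat J B).prod (gmat J B), inferInstance,
    fun y => ω (Function.update y.2.2 k (nrm (y.2.1 k) • (Pi.single a₀ (1 : ℝ) : B → ℝ))),
    fun _ => q,
    fun y => Real.sqrt (∑ j, (if j = k then 0 else cf (W y.1) k a₀ y.2.2 (W y.1 j)) ^ 2),
    fun y i => nrm (y.2.1 k) * cf (W y.1) k a₀ y.2.2 (fun b => C b i), ?_, measurable_const, ?_,
    ?_, fun _ => hq, fun x z => ?_⟩
  · refine hω.comp ?_
    refine measurable_update'.comp ((measurable_snd.comp measurable_snd).prodMk ?_)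
    refine measurable_pi_lambda _ fun a => ?_
    exact (hnm.comp (measurable_fst.comp measurable_snd)).mul_const _
  · refine Measurable.sqrt ?_
    refine Finset.measurable_fun_sum _ fun j _ => ?_
    by_cases hj : j = k
    · simp [hj]
    · simp only [if_neg hj]
      exact (hcfm (fun x => W x j) (hWjb j)).pow_const 2
  · refine measurable_pi_lambda _ fun i => ?_
    exact (hnm.comp (measurable_fst.comp measurable_snd)).mul
      (hcfm (fun _ b => C b i) (fun b => measurable_const))
  · show ∫⁻ ν, ω ν *
      ENNReal.ofReal (|(ymat (Function.update (W x) k (C *ᵥ z)) ν).det| ^ q) ∂(gmat J B) = _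
    rw [rot_identity ω hω k a₀ h1 h2 (Function.update (W x) k (C *ᵥ z)) q]
    refine lintegral_congr fun p => ?_
    congr 1
    have e1 : ∀ j, (if j = k then 0 else cf (Function.update (W x) k (C *ᵥ z)) k a₀ p.2
        (Function.update (W x) k (C *ᵥ z) j)) = if j = k then 0 else cf (W x) k a₀ p.2 (W x j) := by
      intro j
      by_cases hj : j = k
      · simp [hj]
      · rw [if_neg hj, if_neg hj, cf_update, Function.update_of_ne hj]
    simp only [e1]
    refine core_unit _ _ _ _ _ ?_
    rw [cf_update, Function.update_self, cf_lin, Finset.mul_sum]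
    refine Finset.sum_congr rfl fun i _ => by ring

end Pool.Agent.TH985.WP
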