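import Pool.Agent.TH985.WP.Tilt
import Pool.Agent.TH985.WP.Rot
import Pool.Agent.TH511.WP.Zc

/-!
# The two representations of the law of `(C_i M N_i)_i`
-/

set_option autoImplicit false
open MeasureTheory ProbabilityTheory Matrix
open scoped ENNReal

namespace Pool.Agent.TH985.WP

section defs

variable {I : Type} {B : I → Type} [∀ i, Fintype (B i)] {n : Type}

/-- the matrix `D = Cᵀ T` -/
def Dm (C : Matrix ((i : I) × B i) n ℝ) (T : ((i : I) × (B i × B i)) → ℝ) :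
    Matrix n ((i : I) × B i) ℝ :=
  Matrix.of fun x p => ∑ b, C ⟨p.1, b⟩ x * T ⟨p.1, (b, p.2)⟩

/-- the columns `C_i z_k` -/
def cw {K : Type} [Fintype n] (C : Matrix ((i : I) × B i) n ℝ) (i : I) (Z : K → n → ℝ) :
    K → B i → ℝ :=
  fun k b => (C *ᵥ Z k) ⟨i, b⟩

end defs

theorem Dm_mulVec {I : Type} {B : I → Type} [∀ i, Fintype (B i)] {n K : Type} [Fintype n]
    (C : Matrix ((i : I) × B i) n ℝ) (T : ((i : I) × (B i × B i)) → ℝ) (Z : K → n → ℝ) (k : K)
    (i : I) (a : B i) :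
    ((Dm C T)ᵀ *ᵥ Z k) ⟨i, a⟩ = ∑ b, cw C i Z k b * T ⟨i, (b, a)⟩ := by
  simp only [mulVec, dotProduct, transpose_apply, Dm, Matrix.of_apply, cw, Finset.sum_mul]
  rw [Finset.sum_comm]
  refine Finset.sum_congr rfl fun b _ => Finset.sum_congr rfl fun x _ => by ring

theorem phase {I : Type} [Fintype I] {B : I → Type} [∀ i, Fintype (B i)] {n K : Type} [Fintype n]
    [Fintype K] (C : Matrix ((i : I) × B i) n ℝ) (T : ((i : I) × (B i × B i)) → ℝ)
    (Z : K → n → ℝ) (ν : ∀ i, K → B i → ℝ) :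
    ∑ x : (i : I) × (B i × B i), T x * ymat (cw C x.1 Z) (ν x.1) x.2.1 x.2.2 =
      ∑ i, ∑ k, ∑ a, ((Dm C T)ᵀ *ᵥ Z k) ⟨i, a⟩ * ν i k a := by
  rw [Fintype.sum_sigma]
  refine Finset.sum_congr rfl fun i _ => ?_
  rw [Fintype.sum_prod_type]
  simp only [Dm_mulVec, ymat, Matrix.of_apply, Finset.mul_sum, Finset.sum_mul]
  rw [Finset.sum_comm]
  rw [Finset.sum_comm (f := fun (k : K) (a : B i) => ∑ b, cw C i Z k b * T ⟨i, (b, a)⟩ * ν i k a)]
  refine Finset.sum_congr rfl fun a _ => ?_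
  rw [Finset.sum_comm]
  refine Finset.sum_congr rfl fun k _ => Finset.sum_congr rfl fun b _ => by ring

/-- the characteristic function of a Gaussian matrix -/
theorem gmat_cf {K B : Type*} [Fintype K] [Fintype B] (V : K → B → ℝ) :
    ∫ ν, Complex.exp ((∑ k, ∑ a, V k a * ν k a : ℝ) * Complex.I) ∂(gmat K B) =
      Complex.exp ((-(1 / 2) * ∑ k, ∑ a, V k a ^ 2 : ℝ)) := by
  have h1 : ∀ ν : K → B → ℝ, Complex.exp ((∑ k, ∑ a, V k a * ν k a : ℝ) * Complex.I) =
      ∏ k, Complex.exp ((∑ a, V k a * ν k a : ℝ) * Complex.I) := by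
    intro ν
    rw [← Complex.exp_sum, Complex.ofReal_sum, Finset.sum_mul]
  simp_rw [h1]
  unfold gmat
  rw [integral_fintype_prod_eq_prod (𝕜 := ℂ) (ι := K) (E := fun _ => B → ℝ)
    (μ := fun _ : K => gm B)
    (fun k x => Complex.exp ((∑ a, V k a * x a : ℝ) * Complex.I))]
  simp_rw [gm_charFun]
  rw [← Complex.exp_sum]
  congr 1
  push_cast
  rw [Finset.mul_sum]

instance muk_prob (ι : Type) [Fintype ι] [DecidableEq ι] (κ : ℝ) [hκ : Fact (-1 < κ)] :
    IsProbabilityMeasure (muk ι κ) := by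
  obtain ⟨h0, h1⟩ := Pool.Agent.TH511.WP.Zc_pos (ι := ι) κ hκ.out
  constructor
  unfold muk
  rw [Measure.smul_apply, withDensity_apply _ MeasurableSet.univ, Measure.restrict_univ,
    smul_eq_mul]
  exact ENNReal.inv_mul_cancel h0.ne' h1.ne

theorem lintegral_muk {ι : Type} [Fintype ι] [DecidableEq ι] (κ : ℝ)
    (F : (ι → ι → ℝ) → ℝ≥0∞) (hF : Measurable F) :
    ∫⁻ M, F M ∂(muk ι κ) = (Zc ι κ)⁻¹ * ∫⁻ M, detw κ M * F M ∂(gmat ι ι) := by
  unfold muk
  rw [lintegral_smul_measure, lintegral_withDensity_eq_lintegral_mul _ (detw_meas κ) hF]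
  rfl

/-- the Laplace transform of `muk` -/
theorem lap_muk {ι : Type} [Fintype ι] [DecidableEq ι] (κ : ℝ) (hκ : -1 < κ) (S : Matrix ι ι ℝ)
    (hS : (1 + S).PosDef) :
    ∫⁻ M, ENNReal.ofReal (Real.exp (-(1 / 2) * ∑ k, M k ⬝ᵥ S *ᵥ M k)) ∂(muk ι κ) =
      ENNReal.ofReal ((1 + S).det ^ (-((κ + Fintype.card ι) / 2))) := by
  obtain ⟨h0, h1⟩ := Pool.Agent.TH511.WP.Zc_pos (ι := ι) κ hκ
  rw [lintegral_muk]
  · rw [lap κ S hS, mul_comm, mul_assoc, ENNReal.mul_inv_cancel h0.ne' h1.ne, mul_one]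
  · have : Measurable fun M : ι → ι → ℝ => ∑ k, M k ⬝ᵥ S *ᵥ M k :=
      Finset.measurable_fun_sum _ fun k _ => (measurable_quad S).comp (measurable_pi_apply k)
    exact ENNReal.measurable_ofReal.comp ((this.const_mul _).exp)

theorem lap_muk_integral {ι : Type} [Fintype ι] [DecidableEq ι] (κ : ℝ) (hκ : -1 < κ)
    (S : Matrix ι ι ℝ) (hS : (1 + S).PosDef) :
    ∫ M, Complex.exp ((-(1 / 2) * ∑ k, M k ⬝ᵥ S *ᵥ M k : ℝ)) ∂(muk ι κ) =
      (((1 + S).det ^ (-((κ + Fintype.card ι) / 2)) : ℝ) : ℂ) := by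
  have h := lap_muk κ hκ S hS
  have h2 : ∀ M : ι → ι → ℝ, Complex.exp ((-(1 / 2) * ∑ k, M k ⬝ᵥ S *ᵥ M k : ℝ)) =
      ((Real.exp (-(1 / 2) * ∑ k, M k ⬝ᵥ S *ᵥ M k) : ℝ) : ℂ) := by
    intro M
    rw [Complex.ofReal_exp]
  simp_rw [h2]
  rw [integral_complex_ofReal]
  congr 1
  rw [integral_eq_lintegral_of_nonneg_ae (Filter.Eventually.of_forall fun M => by positivity), h,
    ENNReal.toReal_ofReal]
  · have := hS.det_pos
    positivity
  · have : Measurable fun M : ι → ι → ℝ => ∑ k, M k ⬝ᵥ S *ᵥ M k :=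
      Finset.measurable_fun_sum _ fun k _ => (measurable_quad S).comp (measurable_pi_apply k)
    exact ((this.const_mul _).exp).aestronglyMeasurable

/-- the tilt for Bochner integrals -/
theorem gmat_tilt_integral {K n : Type*} [Fintype K] [Fintype n] [DecidableEq n]
    (S L : Matrix n n ℝ) (hL : L * Lᵀ * (1 + S) = 1) (F : (K → n → ℝ) → ℂ) (hF : Measurable F) :
    ∫ M, Complex.exp ((-(1 / 2) * ∑ k, M k ⬝ᵥ S *ᵥ M k : ℝ)) * F M ∂(gmat K n) =
      ((|L.det| ^ Fintype.card K : ℝ) : ℂ) * ∫ M, F (fun k => L *ᵥ M k) ∂(gmat K n) := by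
  have hqm : Measurable fun M : K → n → ℝ => ENNReal.ofReal
      (Real.exp (-(1 / 2) * ∑ k, M k ⬝ᵥ S *ᵥ M k)) := by
    have : Measurable fun M : K → n → ℝ => ∑ k, M k ⬝ᵥ S *ᵥ M k :=
      Finset.measurable_fun_sum _ fun k _ => (measurable_quad S).comp (measurable_pi_apply k)
    exact ENNReal.measurable_ofReal.comp ((this.const_mul _).exp)
  have hLm : Measurable (fun (M : K → n → ℝ) k => L *ᵥ M k) := by
    have h0 : Continuous (fun x : n → ℝ => L *ᵥ x) := by fun_prop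
    exact measurable_pi_lambda _ fun k => h0.measurable.comp (measurable_pi_apply k)
  have h1 : (gmat K n).withDensity (fun M => ENNReal.ofReal
      (Real.exp (-(1 / 2) * ∑ k, M k ⬝ᵥ S *ᵥ M k))) =
      (ENNReal.ofReal |L.det| ^ Fintype.card K) •
        (gmat K n).map (fun M k => L *ᵥ M k) := by
    refine Measure.ext fun s hs => ?_
    rw [withDensity_apply _ hs, ← lintegral_indicator hs]
    have h2 := gmat_tilt S L hL (K := K) (s.indicator 1) (measurable_one.indicator hs)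
    have h3 : ∀ M : K → n → ℝ, s.indicator 1 M * ENNReal.ofReal
        (Real.exp (-(1 / 2) * ∑ k, M k ⬝ᵥ S *ᵥ M k)) =
        s.indicator (fun M => ENNReal.ofReal
          (Real.exp (-(1 / 2) * ∑ k, M k ⬝ᵥ S *ᵥ M k))) M := by
      intro x
      by_cases hx : x ∈ s
      · simp [hx]
      · simp [hx]
    simp_rw [h3] at h2
    rw [h2, Measure.smul_apply, ← lintegral_indicator_one hs,
      lintegral_map (measurable_one.indicator hs) hLm, smul_eq_mul]
  have h4 := integral_withDensity_eq_integral_toReal_smul (μ := gmat K n) hqm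
    (Filter.Eventually.of_forall fun M => ENNReal.ofReal_lt_top) F
  rw [h1, integral_smul_measure, integral_map hLm.aemeasurable hF.aestronglyMeasurable] at h4
  have h5 : ∀ M : K → n → ℝ, Complex.exp ((-(1 / 2) * ∑ k, M k ⬝ᵥ S *ᵥ M k : ℝ)) * F M =
      (ENNReal.ofReal (Real.exp (-(1 / 2) * ∑ k, M k ⬝ᵥ S *ᵥ M k))).toReal • F M := by
    intro M
    rw [ENNReal.toReal_ofReal (by positivity), Complex.real_smul, Complex.ofReal_exp]
  simp_rw [h5]
  rw [← h4, ENNReal.toReal_pow, ENNReal.toReal_ofReal (abs_nonneg _), Complex.real_smul]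

end Pool.Agent.TH985.WP
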