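import Pool.Agent.TH985.WP.Law

/-!
# The law of `(C_i M N_i)_i` and its characteristic function
-/

set_option autoImplicit false
open MeasureTheory ProbabilityTheory Matrix
open scoped ENNReal

namespace Pool.Agent.TH985.WP

theorem quad_DDt {n p : Type*} [Fintype n] [Fintype p] (D : Matrix n p ℝ) (z : n → ℝ) :
    z ⬝ᵥ (D * Dᵀ) *ᵥ z = ∑ q, (Dᵀ *ᵥ z) q ^ 2 := by
  rw [← Matrix.mulVec_mulVec, Matrix.dotProduct_mulVec, ← Matrix.mulVec_transpose]
  simp [dotProduct, sq]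

theorem posDef_one_add {n p : Type*} [Fintype n] [DecidableEq n] [Fintype p]
    (D : Matrix n p ℝ) : (1 + D * Dᵀ).PosDef := by
  have h : (D * Dᵀ).PosSemidef := by
    have := posSemidef_self_mul_conjTranspose D
    rwa [conjTranspose_eq_transpose_of_trivial] at this
  exact Matrix.PosDef.one.add_posSemidef h

section

variable {I : Type} [Fintype I] {B : I → Type} [∀ i, Fintype (B i)]

/-- the characteristic function of the law of `(C_i M N_i)_i` -/
def HasCF {n : Type} [Fintype n] [DecidableEq n] (C : Matrix ((i : I) × B i) n ℝ) (α : ℝ)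
    (ρ : Measure (((i : I) × (B i × B i)) → ℝ)) : Prop :=
  ∀ T : ((i : I) × (B i × B i)) → ℝ,
    ∫ y, Complex.exp ((∑ k, T k * y k : ℝ) * Complex.I) ∂ρ =
      (((1 + Dm C T * (Dm C T)ᵀ).det ^ (-(α / 2)) : ℝ) : ℂ)

theorem measurable_cw {K n : Type} [Fintype n] (C : Matrix ((i : I) × B i) n ℝ) (i : I)
    (k : K) (b : B i) : Measurable fun Z : K → n → ℝ => cw C i Z k b := by
  unfold cw mulVec dotProduct
  fun_prop

theorem measurable_Y {K n : Type} [Fintype n] [Fintype K] (C : Matrix ((i : I) × B i) n ℝ) :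
    Measurable (fun (p : (K → n → ℝ) × (∀ i, K → B i → ℝ)) (x : (i : I) × (B i × B i)) =>
      ymat (cw C x.1 p.1) (p.2 x.1) x.2.1 x.2.2) := by
  refine measurable_pi_lambda _ fun x => ?_
  refine measurable_ymat _ (fun j b => (measurable_cw C x.1 j b).comp measurable_fst) _
    (fun j a => ?_) _ _
  exact (measurable_pi_apply a).comp ((measurable_pi_apply j).comp
    ((measurable_pi_apply x.1).comp measurable_snd))

/-- the law of `(C_i M N_i)_i` -/
noncomputable def lawA {n : Type} [Fintype n] [DecidableEq n] (C : Matrix ((i : I) × B i) n ℝ)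
    (κ : ℝ) : Measure (((i : I) × (B i × B i)) → ℝ) :=
  ((muk n κ).prod (Measure.pi fun i => gmat n (B i))).map
    (fun p x => ymat (cw C x.1 p.1) (p.2 x.1) x.2.1 x.2.2)

theorem cexp_meas {κ Ω : Type*} [Fintype κ] [MeasurableSpace Ω] (T : κ → ℝ) (Y : Ω → κ → ℝ)
    (hY : Measurable Y) :
    Measurable fun ω => Complex.exp ((∑ k, T k * Y ω k : ℝ) * Complex.I) :=
  (cont_cexp T).measurable.comp hY

theorem cexp_int {κ Ω : Type*} [Fintype κ] [MeasurableSpace Ω] (μ : Measure Ω)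
    [IsFiniteMeasure μ] (T : κ → ℝ) (Y : Ω → κ → ℝ) (hY : Measurable Y) :
    Integrable (fun ω => Complex.exp ((∑ k, T k * Y ω k : ℝ) * Complex.I)) μ := by
  refine Integrable.of_bound (cexp_meas T Y hY).aestronglyMeasurable 1
    (Filter.Eventually.of_forall fun ω => ?_)
  rw [Complex.norm_exp_ofReal_mul_I]

theorem sum_sq_phase {K n : Type} [Fintype n] [Fintype K] (C : Matrix ((i : I) × B i) n ℝ)
    (T : ((i : I) × (B i × B i)) → ℝ) (Z : K → n → ℝ) :
    ∑ i, ∑ k, ∑ a, ((Dm C T)ᵀ *ᵥ Z k) ⟨i, a⟩ ^ 2 =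
      ∑ k, Z k ⬝ᵥ (Dm C T * (Dm C T)ᵀ) *ᵥ Z k := by
  rw [Finset.sum_comm]
  refine Finset.sum_congr rfl fun k _ => ?_
  rw [quad_DDt, Fintype.sum_sigma]

theorem lawA_cf {n : Type} [Fintype n] [DecidableEq n] (C : Matrix ((i : I) × B i) n ℝ)
    (κ : ℝ) (hκ : -1 < κ) : HasCF C (κ + Fintype.card n) (lawA C κ) := by
  intro T
  have : Fact (-1 < κ) := ⟨hκ⟩
  have hY := measurable_Y (K := n) C
  unfold lawA
  rw [integral_map hY.aemeasurable (cont_cexp T).aestronglyMeasurable,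
    integral_prod _ (cexp_int _ T _ hY)]
  have h1 : ∀ M : n → n → ℝ, ∫ N : (∀ i, n → B i → ℝ), Complex.exp
      ((∑ x : (i : I) × (B i × B i), T x * ymat (cw C x.1 M) (N x.1) x.2.1 x.2.2 : ℝ) *
        Complex.I) ∂(Measure.pi fun i => gmat n (B i)) =
      Complex.exp ((-(1 / 2) * ∑ k, M k ⬝ᵥ (Dm C T * (Dm C T)ᵀ) *ᵥ M k : ℝ)) := by
    intro M
    simp_rw [phase]
    have h2 : ∀ N : (∀ i, n → B i → ℝ), Complex.exp
        ((∑ i, ∑ k, ∑ a, ((Dm C T)ᵀ *ᵥ M k) ⟨i, a⟩ * N i k a : ℝ) * Complex.I) =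
        ∏ i, Complex.exp ((∑ k, ∑ a, ((Dm C T)ᵀ *ᵥ M k) ⟨i, a⟩ * N i k a : ℝ) *
          Complex.I) := by
      intro N
      rw [← Complex.exp_sum, Complex.ofReal_sum, Finset.sum_mul]
    simp_rw [h2]
    rw [integral_fintype_prod_eq_prod (𝕜 := ℂ) (ι := I) (E := fun i => n → B i → ℝ)
      (μ := fun i => gmat n (B i))
      (fun i x => Complex.exp ((∑ k, ∑ a, ((Dm C T)ᵀ *ᵥ M k) ⟨i, a⟩ * x k a : ℝ) *
        Complex.I))]
    simp_rw [gmat_cf (K := n)]
    rw [← Complex.exp_sum, ← Complex.ofReal_sum, ← Finset.mul_sum, sum_sq_phase]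
  simp_rw [h1]
  rw [lap_muk_integral κ hκ _ (posDef_one_add _)]

instance lawA_prob {n : Type} [Fintype n] [DecidableEq n] (C : Matrix ((i : I) × B i) n ℝ)
    (κ : ℝ) [hκ : Fact (-1 < κ)] : IsProbabilityMeasure (lawA C κ) := by
  unfold lawA
  exact Measure.isProbabilityMeasure_map (measurable_Y (K := n) C).aemeasurable

end

/-- the characteristic function depends only on the Gram matrix -/
theorem det_gram {I : Type} [Fintype I] [DecidableEq I] {B : I → Type} [∀ i, Fintype (B i)]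
    [∀ i, DecidableEq (B i)] {n₁ n₂ : Type} [Fintype n₁] [DecidableEq n₁] [Fintype n₂]
    [DecidableEq n₂] (C₁ : Matrix ((i : I) × B i) n₁ ℝ) (C₂ : Matrix ((i : I) × B i) n₂ ℝ)
    (h : C₁ * C₁ᵀ = C₂ * C₂ᵀ) (T : ((i : I) × (B i × B i)) → ℝ) :
    (1 + Dm C₁ T * (Dm C₁ T)ᵀ).det = (1 + Dm C₂ T * (Dm C₂ T)ᵀ).det := by
  rw [Matrix.det_one_add_mul_comm, Matrix.det_one_add_mul_comm (Dm C₂ T)]
  have key : ∀ {n : Type} [Fintype n] (C : Matrix ((i : I) × B i) n ℝ)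
      (p q : (i : I) × B i), ((Dm C T)ᵀ * Dm C T) p q =
      ∑ b, ∑ b', T ⟨p.1, (b, p.2)⟩ * T ⟨q.1, (b', q.2)⟩ * (C * Cᵀ) ⟨p.1, b⟩ ⟨q.1, b'⟩ := by
    intro n _ C p q
    simp only [Matrix.mul_apply, transpose_apply, Dm, Matrix.of_apply, Finset.mul_sum,
      Finset.sum_mul]
    rw [Finset.sum_comm]
    rw [Finset.sum_comm (f := fun (b : B p.1) (b' : B q.1) => ∑ x, T ⟨p.1, (b, p.2)⟩ *
      T ⟨q.1, (b', q.2)⟩ * (C ⟨p.1, b⟩ x * C ⟨q.1, b'⟩ x))]
    refine Finset.sum_congr rfl fun b' _ => ?_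
    rw [Finset.sum_comm]
    refine Finset.sum_congr rfl fun b _ => Finset.sum_congr rfl fun x _ => by ring
  have h2 : (Dm C₁ T)ᵀ * Dm C₁ T = (Dm C₂ T)ᵀ * Dm C₂ T := by
    ext p q
    rw [key, key, h]
  rw [h2]

end Pool.Agent.TH985.WP
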