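import Pool.Agent.TH985.WP.LawA

/-!
# The second representation of the law of `(C_i M N_i)_i`
-/

set_option autoImplicit false
open MeasureTheory ProbabilityTheory Matrix
open scoped ENNReal

namespace Pool.Agent.TH985.WP

section

variable {I : Type} [Fintype I] [DecidableEq I] {B : I → Type} [∀ i, Fintype (B i)]
  [∀ i, DecidableEq (B i)]

/-- zeroing the rows of the block `i₀` -/
def zr {n : Type} (i₀ : I) (C : Matrix ((i : I) × B i) n ℝ) : Matrix ((i : I) × B i) n ℝ :=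
  Matrix.of fun p x => if p.1 = i₀ then 0 else C p x

/-- the laws of the multipliers -/
noncomputable def nuB (B : I → Type) [∀ i, Fintype (B i)] [∀ i, DecidableEq (B i)] (i₀ : I)
    (κ₀ : ℝ) : ∀ i, Measure (B i₀ → B i → ℝ) :=
  Function.update (fun i => gmat (B i₀) (B i)) i₀ (muk (B i₀) κ₀)

instance nuB_prob (i₀ : I) (κ₀ : ℝ) [hκ : Fact (-1 < κ₀)] (i : I) :
    IsProbabilityMeasure (nuB B i₀ κ₀ i) := by
  unfold nuB
  by_cases h : i = i₀
  · subst h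
    rw [Function.update_self]
    infer_instance
  · rw [Function.update_of_ne h]
    infer_instance

/-- the second representation -/
noncomputable def lawB {n : Type} [Fintype n] (C : Matrix ((i : I) × B i) n ℝ) (i₀ : I)
    (κ₀ : ℝ) (ρ' : Measure (((i : I) × (B i × B i)) → ℝ)) :
    Measure (((i : I) × (B i × B i)) → ℝ) :=
  ((gmat (B i₀) n).prod ((Measure.pi (nuB B i₀ κ₀)).prod ρ')).map
    (fun p x => ymat (cw C x.1 p.1) (p.2.1 x.1) x.2.1 x.2.2 + p.2.2 x)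

theorem measurable_YB {K n : Type} [Fintype n] [Fintype K] (C : Matrix ((i : I) × B i) n ℝ) :
    Measurable (fun (p : (K → n → ℝ) × ((∀ i, K → B i → ℝ) × (((i : I) × (B i × B i)) → ℝ)))
      (x : (i : I) × (B i × B i)) =>
      ymat (cw C x.1 p.1) (p.2.1 x.1) x.2.1 x.2.2 + p.2.2 x) := by
  refine measurable_pi_lambda _ fun x => ?_
  have h1 := measurable_pi_iff.1 (measurable_Y (K := K) C) x
  have h2 : Measurable (fun p : (K → n → ℝ) × ((∀ i, K → B i → ℝ) ×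
      (((i : I) × (B i × B i)) → ℝ)) => (p.1, p.2.1)) :=
    measurable_fst.prodMk (measurable_fst.comp measurable_snd)
  exact (h1.comp h2).add ((measurable_pi_apply x).comp (measurable_snd.comp measurable_snd))

theorem det_aux {n p : Type*} [Fintype n] [DecidableEq n] [Fintype p] [DecidableEq p]
    (Q L : Matrix n n ℝ) (hQ : IsUnit Q.det) (hL : L * Lᵀ = Q⁻¹) (D₀ : Matrix n p ℝ) :
    (1 + (D₀ᵀ * L) * (D₀ᵀ * L)ᵀ).det = (Q.det)⁻¹ * (Q + D₀ * D₀ᵀ).det := by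
  have h1 : (D₀ᵀ * L) * (D₀ᵀ * L)ᵀ = D₀ᵀ * (Q⁻¹ * D₀) := by
    rw [Matrix.transpose_mul, Matrix.transpose_transpose, ← hL]
    simp only [Matrix.mul_assoc]
  rw [h1, Matrix.det_one_add_mul_comm]
  have h2 : 1 + Q⁻¹ * D₀ * D₀ᵀ = Q⁻¹ * (Q + D₀ * D₀ᵀ) := by
    rw [Matrix.mul_add, Matrix.nonsing_inv_mul _ hQ, Matrix.mul_assoc]
  rw [h2, Matrix.det_mul, Matrix.det_nonsing_inv, Ring.inverse_eq_inv']

theorem real_aux (q r κ : ℝ) (m : ℕ) (hq : 0 < q) (hr : 0 < r) :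
    q ^ (-(κ / 2)) * ((q ^ (-(1 / 2) : ℝ)) ^ m * (q⁻¹ * r) ^ (-((κ + m) / 2))) =
      r ^ (-((κ + m) / 2)) := by
  rw [Real.mul_rpow (by positivity) hr.le, Real.inv_rpow hq.le, ← Real.rpow_neg hq.le,
    ← Real.rpow_natCast, ← Real.rpow_mul hq.le, ← mul_assoc, ← mul_assoc, ← Real.rpow_add hq,
    ← Real.rpow_add hq]
  have : -(κ / 2) + -(1 / 2) * (m : ℝ) + - -((κ + m) / 2) = 0 := by ring
  rw [this, Real.rpow_zero, one_mul]

theorem lawB_cf {n : Type} [Fintype n] [DecidableEq n] (C : Matrix ((i : I) × B i) n ℝ)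
    (i₀ : I) (κ₀ : ℝ) (hκ : -1 < κ₀) (ρ' : Measure (((i : I) × (B i × B i)) → ℝ))
    [IsProbabilityMeasure ρ'] (hρ' : HasCF (zr i₀ C) κ₀ ρ') :
    HasCF C (κ₀ + Fintype.card (B i₀)) (lawB C i₀ κ₀ ρ') := by
  intro T
  have : Fact (-1 < κ₀) := ⟨hκ⟩
  have hYB := measurable_YB (K := B i₀) C
  unfold lawB
  rw [integral_map hYB.aemeasurable (cont_cexp T).aestronglyMeasurable,
    integral_prod _ (cexp_int _ T _ hYB)]
  -- the inner integral
  set h : (B i₀ → n → ℝ) → ℂ := fun Z => ∫ ν, Complex.exp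
    ((∑ x : (i : I) × (B i × B i), T x * ymat (cw C x.1 Z) (ν x.1) x.2.1 x.2.2 : ℝ) *
      Complex.I) ∂(Measure.pi (nuB B i₀ κ₀)) with hh
  set φ' : ℂ := ∫ y, Complex.exp ((∑ k, T k * y k : ℝ) * Complex.I) ∂ρ' with hφ'
  have h1 : ∀ Z : B i₀ → n → ℝ, ∫ p : (∀ i, B i₀ → B i → ℝ) × (((i : I) × (B i × B i)) → ℝ),
      Complex.exp ((∑ x : (i : I) × (B i × B i), T x *
        (ymat (cw C x.1 Z) (p.1 x.1) x.2.1 x.2.2 + p.2 x) : ℝ) * Complex.I)
        ∂((Measure.pi (nuB B i₀ κ₀)).prod ρ') = h Z * φ' := by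
    intro Z
    rw [hh, hφ', ← integral_prod_mul]
    refine integral_congr_ae (Filter.Eventually.of_forall fun p => ?_)
    simp only
    rw [← Complex.exp_add]
    congr 1
    rw [← add_mul, ← Complex.ofReal_add, ← Finset.sum_add_distrib]
    congr 2
    exact Finset.sum_congr rfl fun x _ => mul_add _ _ _
  simp_rw [h1]
  rw [integral_mul_const]
  -- the multipliers
  set D := Dm C T with hD
  set D₀ : Matrix n (B i₀) ℝ := Matrix.of fun x a => D x ⟨i₀, a⟩ with hD₀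
  set D'' := Dm (zr i₀ C) T with hD''
  have hD''e : ∀ (x : n) (i : I) (a : B i), D'' x ⟨i, a⟩ = if i = i₀ then 0 else D x ⟨i, a⟩ := by
    intro x i a
    rw [hD'', hD]
    simp only [Dm, zr, Matrix.of_apply]
    by_cases hi : i = i₀
    · simp [hi]
    · simp [hi]
  set h₀ : (B i₀ → n → ℝ) → ℂ := fun Z => ∫ M, Complex.exp
    ((∑ k, ∑ a, (D₀ᵀ *ᵥ Z k) a * M k a : ℝ) * Complex.I) ∂(muk (B i₀) κ₀) with hh₀
  have h2 : ∀ Z, h Z = Complex.exp ((-(1 / 2) * ∑ k, Z k ⬝ᵥ (D'' * D''ᵀ) *ᵥ Z k : ℝ)) *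
      h₀ Z := by
    intro Z
    rw [hh]
    simp only
    simp_rw [phase]
    have h3 : ∀ N : (∀ i, B i₀ → B i → ℝ), Complex.exp
        ((∑ i, ∑ k, ∑ a, ((Dm C T)ᵀ *ᵥ Z k) ⟨i, a⟩ * N i k a : ℝ) * Complex.I) =
        ∏ i, Complex.exp ((∑ k, ∑ a, ((Dm C T)ᵀ *ᵥ Z k) ⟨i, a⟩ * N i k a : ℝ) *
          Complex.I) := by
      intro N
      rw [← Complex.exp_sum, Complex.ofReal_sum, Finset.sum_mul]
    simp_rw [h3]
    rw [integral_fintype_prod_eq_prod (𝕜 := ℂ) (ι := I) (E := fun i => B i₀ → B i → ℝ)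
      (μ := nuB B i₀ κ₀)
      (fun i x => Complex.exp ((∑ k, ∑ a, ((Dm C T)ᵀ *ᵥ Z k) ⟨i, a⟩ * x k a : ℝ) *
        Complex.I)), ← Finset.mul_prod_erase Finset.univ _ (Finset.mem_univ i₀), mul_comm]
    congr 1
    · have h4 : ∀ i ∈ Finset.univ.erase i₀, ∫ x, Complex.exp
          ((∑ k, ∑ a, ((Dm C T)ᵀ *ᵥ Z k) ⟨i, a⟩ * x k a : ℝ) * Complex.I) ∂(nuB B i₀ κ₀ i) =
          Complex.exp ((-(1 / 2) * ∑ k, ∑ a, (D''ᵀ *ᵥ Z k) ⟨i, a⟩ ^ 2 : ℝ)) := by
        intro i hi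
        have hne : i ≠ i₀ := Finset.ne_of_mem_erase hi
        unfold nuB
        rw [Function.update_of_ne hne, gmat_cf]
        congr 3
        refine Finset.sum_congr rfl fun k _ => Finset.sum_congr rfl fun a _ => ?_
        congr 1
        simp only [mulVec, dotProduct, transpose_apply]
        refine Finset.sum_congr rfl fun x _ => ?_
        rw [hD''e, if_neg hne]
      rw [Finset.prod_congr rfl h4, ← Complex.exp_sum, ← Complex.ofReal_sum, ← Finset.mul_sum,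
        ← sum_sq_phase, ← Finset.add_sum_erase Finset.univ _ (Finset.mem_univ i₀)]
      have h5 : ∑ k, ∑ a, (D''ᵀ *ᵥ Z k) ⟨i₀, a⟩ ^ 2 = 0 := by
        refine Finset.sum_eq_zero fun k _ => Finset.sum_eq_zero fun a _ => ?_
        have : (D''ᵀ *ᵥ Z k) ⟨i₀, a⟩ = 0 := by
          simp only [mulVec, dotProduct, transpose_apply]
          refine Finset.sum_eq_zero fun x _ => ?_
          rw [hD''e, if_pos rfl, zero_mul]
        rw [this]; norm_num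
      rw [h5, zero_add]
    · rw [hh₀]
      unfold nuB
      rw [Function.update_self]
      rfl
  simp_rw [h2]
  -- the tilt
  have hQ : (1 + D'' * D''ᵀ).PosDef := posDef_one_add D''
  obtain ⟨L, hL1, hL2, hL3, hL4⟩ := exists_tilt (D'' * D''ᵀ) hQ
  have hjm : Measurable (fun p : (B i₀ → n → ℝ) × (B i₀ → B i₀ → ℝ) => Complex.exp
      ((∑ k, ∑ a, (D₀ᵀ *ᵥ p.1 k) a * p.2 k a : ℝ) * Complex.I)) := by
    have hc : Continuous (fun p : (B i₀ → n → ℝ) × (B i₀ → B i₀ → ℝ) => Complex.exp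
      ((∑ k, ∑ a, (D₀ᵀ *ᵥ p.1 k) a * p.2 k a : ℝ) * Complex.I)) := by
      unfold mulVec dotProduct
      fun_prop
    exact hc.measurable
  have hh₀m : Measurable h₀ := by
    rw [hh₀]
    exact (hjm.stronglyMeasurable.integral_prod_right').measurable
  rw [gmat_tilt_integral (D'' * D''ᵀ) L hL1 h₀ hh₀m]
  -- the remaining integral
  have hS : ∫ Z : B i₀ → n → ℝ, h₀ (fun k => L *ᵥ Z k) ∂(gmat (B i₀) n) =
      (((1 + (D₀ᵀ * L) * (D₀ᵀ * L)ᵀ).det ^ (-((κ₀ + Fintype.card (B i₀)) / 2)) : ℝ) : ℂ) := by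
    rw [hh₀]
    simp only
    have hjm2 : Continuous (fun p : (B i₀ → n → ℝ) × (B i₀ → B i₀ → ℝ) => Complex.exp
        ((∑ k, ∑ a, (D₀ᵀ *ᵥ (L *ᵥ p.1 k)) a * p.2 k a : ℝ) * Complex.I)) := by
      unfold mulVec dotProduct
      fun_prop
    have hint : Integrable (Function.uncurry fun (Z : B i₀ → n → ℝ) (M : B i₀ → B i₀ → ℝ) =>
        Complex.exp ((∑ k, ∑ a, (D₀ᵀ *ᵥ (L *ᵥ Z k)) a * M k a : ℝ) * Complex.I))
        ((gmat (B i₀) n).prod (muk (B i₀) κ₀)) := by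
      refine Integrable.of_bound hjm2.aestronglyMeasurable 1
        (Filter.Eventually.of_forall fun ω => ?_)
      simp only [Function.uncurry]
      rw [Complex.norm_exp_ofReal_mul_I]
    rw [integral_integral_swap hint]
    have h6 : ∀ M : B i₀ → B i₀ → ℝ, ∫ Z : B i₀ → n → ℝ, Complex.exp
        ((∑ k, ∑ a, (D₀ᵀ *ᵥ (L *ᵥ Z k)) a * M k a : ℝ) * Complex.I) ∂(gmat (B i₀) n) =
        Complex.exp ((-(1 / 2) * ∑ k, M k ⬝ᵥ ((D₀ᵀ * L) * (D₀ᵀ * L)ᵀ) *ᵥ M k : ℝ)) := by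
      intro M
      have h7 : ∀ Z : B i₀ → n → ℝ, ∑ k, ∑ a, (D₀ᵀ *ᵥ (L *ᵥ Z k)) a * M k a =
          ∑ k, ∑ x, ((D₀ᵀ * L)ᵀ *ᵥ M k) x * Z k x := by
        intro Z
        refine Finset.sum_congr rfl fun k _ => ?_
        have e1 : ∑ a, (D₀ᵀ *ᵥ (L *ᵥ Z k)) a * M k a = ((D₀ᵀ * L) *ᵥ Z k) ⬝ᵥ M k := by
          rw [Matrix.mulVec_mulVec]; rfl
        have e2 : ∑ x, ((D₀ᵀ * L)ᵀ *ᵥ M k) x * Z k x = ((D₀ᵀ * L)ᵀ *ᵥ M k) ⬝ᵥ Z k := rfl
        rw [e1, e2, dotProduct_comm, Matrix.dotProduct_mulVec, Matrix.mulVec_transpose]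
      simp_rw [h7]
      rw [gmat_cf]
      congr 3
      refine Finset.sum_congr rfl fun k _ => ?_
      rw [quad_DDt]
    simp_rw [h6]
    rw [lap_muk_integral κ₀ hκ _ (posDef_one_add _)]
  rw [hS, hφ', hρ' T, ← hD'']
  have hQu : IsUnit (1 + D'' * D''ᵀ).det := isUnit_iff_ne_zero.2 hQ.det_pos.ne'
  rw [det_aux (1 + D'' * D''ᵀ) L hQu hL3 D₀]
  have hsum : 1 + D'' * D''ᵀ + D₀ * D₀ᵀ = 1 + D * Dᵀ := by
    rw [add_assoc]
    congr 1
    ext x y
    simp only [Matrix.add_apply, Matrix.mul_apply, transpose_apply]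
    rw [Fintype.sum_sigma, Fintype.sum_sigma,
      ← Finset.add_sum_erase Finset.univ _ (Finset.mem_univ i₀),
      ← Finset.add_sum_erase Finset.univ (fun i => ∑ a, D x ⟨i, a⟩ * D y ⟨i, a⟩)
        (Finset.mem_univ i₀)]
    have h8 : ∑ a, D'' x ⟨i₀, a⟩ * D'' y ⟨i₀, a⟩ = 0 := by
      refine Finset.sum_eq_zero fun a _ => ?_
      rw [hD''e, if_pos rfl, zero_mul]
    have h9 : ∀ i ∈ Finset.univ.erase i₀, ∑ a, D'' x ⟨i, a⟩ * D'' y ⟨i, a⟩ =
        ∑ a, D x ⟨i, a⟩ * D y ⟨i, a⟩ := by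
      intro i hi
      have hne : i ≠ i₀ := Finset.ne_of_mem_erase hi
      refine Finset.sum_congr rfl fun a _ => ?_
      rw [hD''e, hD''e, if_neg hne, if_neg hne]
    rw [h8, Finset.sum_congr rfl h9, zero_add, add_comm]
    rfl
  rw [hsum, hL4, ← Complex.ofReal_mul, ← Complex.ofReal_mul]
  congr 1
  rw [mul_comm]
  exact real_aux _ _ κ₀ _ hQ.det_pos (posDef_one_add D).det_pos

instance lawB_prob {n : Type} [Fintype n] (C : Matrix ((i : I) × B i) n ℝ) (i₀ : I)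
    (κ₀ : ℝ) [hκ : Fact (-1 < κ₀)] (ρ' : Measure (((i : I) × (B i × B i)) → ℝ))
    [IsProbabilityMeasure ρ'] : IsProbabilityMeasure (lawB C i₀ κ₀ ρ') := by
  unfold lawB
  exact Measure.isProbabilityMeasure_map (measurable_YB (K := B i₀) C).aemeasurable

end

end Pool.Agent.TH985.WP
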