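import Pool.Agent.TH985.WP.DetG

/-!
# The product inequality for the blocks of `C M Mᵀ Cᵀ`
-/

set_option autoImplicit false
open MeasureTheory ProbabilityTheory Matrix
open scoped ENNReal

namespace Pool.Agent.TH985.WP

section

variable {I : Type} [Fintype I] [DecidableEq I] {B : I → Type} [∀ i, Fintype (B i)]
  [∀ i, DecidableEq (B i)]

omit [DecidableEq I] in
theorem measurable_ymfun {n : Type} [Fintype n] (C : Matrix ((i : I) × B i) n ℝ) (i : I)
    {X : Type} [MeasurableSpace X] (M : X → n → n → ℝ) (hM : Measurable M)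
    (ν : X → n → B i → ℝ) (hν : Measurable ν) :
    Measurable fun x => (fun b a => ymat (cw C i (M x)) (ν x) b a : B i → B i → ℝ) := by
  refine measurable_pi_lambda _ fun b => measurable_pi_lambda _ fun a => ?_
  exact measurable_ymat (fun x => cw C i (M x)) (fun j b => (measurable_cw C i j b).comp hM)
    ν (fun j a => (measurable_pi_apply a).comp ((measurable_pi_apply j).comp hν)) b a

/-- integrals of products of functions of the blocks, first representation -/
theorem lawA_prod {n : Type} [Fintype n] [DecidableEq n] (C : Matrix ((i : I) × B i) n ℝ)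
    (κ : ℝ) (g : ∀ i, (B i → B i → ℝ) → ℝ≥0∞)
    (hg : ∀ i, Measurable (g i)) :
    ∫⁻ y, ∏ i, g i (fun b a => y ⟨i, (b, a)⟩) ∂(lawA C κ) =
      ∫⁻ M, ∏ i, (∫⁻ ν, g i (fun b a => ymat (cw C i M) ν b a) ∂(gmat n (B i)))
        ∂(muk n κ) := by
  have hY := measurable_Y (K := n) C
  have hmy : Measurable fun y : ((i : I) × (B i × B i)) → ℝ =>
      ∏ i, g i (fun b a => y ⟨i, (b, a)⟩) := by
    refine Finset.measurable_fun_prod _ fun i _ => (hg i).comp ?_
    exact measurable_pi_lambda _ fun b => measurable_pi_lambda _ fun a => measurable_pi_apply _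
  have hpm : Measurable fun p : (n → n → ℝ) × (∀ i, n → B i → ℝ) =>
      ∏ i, g i (fun b a => ymat (cw C i p.1) (p.2 i) b a) := hmy.comp hY
  unfold lawA
  rw [lintegral_map hmy hY]
  rw [show (∫⁻ p : (n → n → ℝ) × (∀ i, n → B i → ℝ), ∏ i, g i (fun b a =>
    (fun x : (i : I) × (B i × B i) => ymat (cw C x.1 p.1) (p.2 x.1) x.2.1 x.2.2) ⟨i, (b, a)⟩)
    ∂((muk n κ).prod (Measure.pi fun i => gmat n (B i)))) =
    ∫⁻ p : (n → n → ℝ) × (∀ i, n → B i → ℝ), ∏ i, g i
      (fun b a => ymat (cw C i p.1) (p.2 i) b a)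
    ∂((muk n κ).prod (Measure.pi fun i => gmat n (B i))) from rfl]
  rw [lintegral_prod _ hpm.aemeasurable]
  refine lintegral_congr fun M => ?_
  exact lintegral_pi_prod (fun i => gmat n (B i))
    (fun i ν => g i (fun b a => ymat (cw C i M) ν b a))
    (fun i => (hg i).comp (measurable_ymfun C i (fun _ => M) measurable_const (fun ν => ν)
      measurable_id))

omit [DecidableEq I] in
theorem Gf_empty {B : Type} [Fintype B] [DecidableEq B] (q : ℝ) (w : Empty → B → ℝ)
    (Y : Matrix B B ℝ) : Gf q w Y = ENNReal.ofReal (|Y.det| ^ q) := by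
  unfold Gf
  have h : ∀ ν : Empty → B → ℝ, ymat w ν = 0 := by
    intro ν
    ext b a
    simp [ymat]
  simp_rw [h, zero_add]
  rw [lintegral_const, measure_univ, mul_one]

/-- the diagonal blocks of a matrix -/
def dblk {I : Type} {B : I → Type} (X : Matrix ((i : I) × B i) ((i : I) × B i) ℝ) (i : I) :
    Matrix (B i) (B i) ℝ := X.submatrix (Sigma.mk i) (Sigma.mk i)

omit [DecidableEq I] [∀ i, DecidableEq (B i)] in
theorem dblk_gram (C : Matrix ((i : I) × B i) ((i : I) × B i) ℝ)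
    (M : ((i : I) × B i) → ((i : I) × B i) → ℝ) (i : I) :
    dblk (gram C M) i = colm (cw C i M) * (colm (cw C i M))ᵀ := by
  ext a b
  simp only [dblk, gram, Matrix.submatrix_apply, Matrix.of_apply, Matrix.mul_apply, colm,
    transpose_apply, cw]

/-- **the product inequality for the diagonal blocks of `C M Mᵀ Cᵀ`** -/
theorem muk_prod [∀ i, Nonempty (B i)]
    (C : Matrix ((i : I) × B i) ((i : I) × B i) ℝ) (κ : ℝ) (hκ : -1 < κ) (ν : I → ℝ)
    (hν : ∀ i, 0 ≤ ν i) :
    ∏ i, ∫⁻ M, ENNReal.ofReal ((dblk (gram C M) i).det ^ ν i)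
        ∂(muk ((i : I) × B i) κ) ≤
      ∫⁻ M, ∏ i, ENNReal.ofReal ((dblk (gram C M) i).det ^ ν i)
        ∂(muk ((i : I) × B i) κ) := by
  have : Fact (-1 < κ) := ⟨hκ⟩
  have hcard : (Fintype.card ((i : I) × B i) : ℝ) = ∑ i, (Fintype.card (B i) : ℝ) := by
    rw [Fintype.card_sigma]; push_cast; rfl
  have hcl := claim (fun i => 2 * ν i) (fun i => mul_nonneg zero_le_two (hν i)) Finset.univ
    ((i : I) × B i) C (fun i hi => absurd (Finset.mem_univ i) hi)
    (κ + Fintype.card ((i : I) × B i)) (by rw [hcard]; linarith)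
    (lawA C κ) (lawA_cf C κ hκ) Empty (fun i e => e.elim)
  simp_rw [Gf_empty] at hcl
  have hgm : ∀ i, Measurable fun Y : B i → B i → ℝ =>
      ENNReal.ofReal (|(Matrix.of Y).det| ^ (2 * ν i)) := by
    intro i
    have := measurable_det (fun Y : B i → B i → ℝ => Matrix.of Y)
      (fun a b => by simp only [Matrix.of_apply]; fun_prop)
    exact ENNReal.measurable_ofReal.comp (this.abs.pow_const _)
  have hone : ∀ i, ∫⁻ y, ENNReal.ofReal (|(blk y i).det| ^ (2 * ν i)) ∂(lawA C κ) =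
      ∫⁻ M, Gf (2 * ν i) (cw C i M) 0 ∂(muk ((i : I) × B i) κ) := by
    intro i
    have h1 := lawA_one C κ i _ (hgm i)
    rw [show (∫⁻ y, ENNReal.ofReal (|(blk y i).det| ^ (2 * ν i)) ∂(lawA C κ)) =
      ∫⁻ y, ENNReal.ofReal (|(Matrix.of fun b a => y ⟨i, (b, a)⟩).det| ^ (2 * ν i))
        ∂(lawA C κ) from rfl, h1]
    refine lintegral_congr fun M => ?_
    unfold Gf
    simp_rw [add_zero]
    rfl
  have hall : ∫⁻ y, ∏ i, ENNReal.ofReal (|(blk y i).det| ^ (2 * ν i)) ∂(lawA C κ) =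
      ∫⁻ M, ∏ i, Gf (2 * ν i) (cw C i M) 0 ∂(muk ((i : I) × B i) κ) := by
    have h1 := lawA_prod C κ _ hgm
    rw [show (∫⁻ y, ∏ i, ENNReal.ofReal (|(blk y i).det| ^ (2 * ν i)) ∂(lawA C κ)) =
      ∫⁻ y, ∏ i, ENNReal.ofReal (|(Matrix.of fun b a => y ⟨i, (b, a)⟩).det| ^ (2 * ν i))
        ∂(lawA C κ) from rfl, h1]
    refine lintegral_congr fun M => ?_
    refine Finset.prod_congr rfl fun i _ => ?_
    unfold Gf
    simp_rw [add_zero]
    rfl
  simp_rw [hone] at hcl
  rw [hall] at hcl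
  have hG : ∀ i (M : ((i : I) × B i) → ((i : I) × B i) → ℝ), Gf (2 * ν i) (cw C i M) 0 =
      Zc (B i) (2 * ν i) * ENNReal.ofReal ((dblk (gram C M) i).det ^ ν i) := by
    intro i M
    rw [detG _ (mul_nonneg zero_le_two (hν i)), ← dblk_gram, mul_comm]
    congr 3
    ring
  simp_rw [hG] at hcl
  have hdm : ∀ i, Measurable fun M : ((i : I) × B i) → ((i : I) × B i) → ℝ =>
      ENNReal.ofReal ((dblk (gram C M) i).det ^ ν i) := by
    intro i
    have := measurable_det (fun M : ((i : I) × B i) → ((i : I) × B i) → ℝ =>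
      dblk (gram C M) i) (fun a b => by
        simp only [dblk, gram, Matrix.submatrix_apply, Matrix.of_apply, mulVec, dotProduct]
        fun_prop)
    exact ENNReal.measurable_ofReal.comp (this.pow_const _)
  have hZ : ∀ i, 0 < Zc (B i) (2 * ν i) ∧ Zc (B i) (2 * ν i) < ∞ := fun i =>
    Pool.Agent.TH511.WP.Zc_pos (2 * ν i) (by have := hν i; linarith)
  have hL : ∀ i, ∫⁻ M, Zc (B i) (2 * ν i) *
      ENNReal.ofReal ((dblk (gram C M) i).det ^ ν i) ∂(muk ((i : I) × B i) κ) =
      Zc (B i) (2 * ν i) * ∫⁻ M, ENNReal.ofReal ((dblk (gram C M) i).det ^ ν i)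
        ∂(muk ((i : I) × B i) κ) := fun i => lintegral_const_mul _ (hdm i)
  simp_rw [hL, Finset.prod_mul_distrib] at hcl
  rw [lintegral_const_mul _ (Finset.measurable_fun_prod _ fun i _ => hdm i)] at hcl
  refine (ENNReal.mul_le_mul_iff_right ?_ ?_).1 hcl
  · exact Finset.prod_ne_zero_iff.2 fun i _ => (hZ i).1.ne'
  · exact ENNReal.prod_ne_top fun i _ => (hZ i).2.ne

end

end Pool.Agent.TH985.WP
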